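import Mathlib

set_option autoImplicit false
open FirstOrder FirstOrder.Language
open scoped FirstOrder

namespace Pool.Agent.Helper180.SMin
open scoped Classical

/-! Finite-edge hypergraphs: a 'structure' on `V` is a set `E : Set (Finset V)` of edges
(all edges will have 2 or 3 elements).  `dl` is Hrushovski's predimension. -/

/-- number of edges inside the finite set `X` -/
noncomputable def en {V : Type} (E : Set (Finset V)) (X : Finset V) : ℕ :=
  (X.powerset.filter (fun e => e ∈ E)).card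

/-- predimension -/
noncomputable def dl {V : Type} (E : Set (Finset V)) (X : Finset V) : ℤ :=
  (X.card : ℤ) - (en E X : ℤ)

/-- the set `S` (finite or not) is strong (self-sufficient) in `(V,E)` -/
def Str {V : Type} (E : Set (Finset V)) (S : Set V) : Prop :=
  ∀ Y : Finset V, dl E (Y.filter (fun x => x ∈ S)) ≤ dl E Y

/-- good template: an abstract minimal prealgebraic extension of a base with `n` points by `k` new points;
only the edges meeting the new part are listed -/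
def TGood (n k : ℕ) (T : Finset (Finset (Fin n ⊕ Fin k))) : Prop :=
  0 < k ∧ T.card = k ∧ (∀ e ∈ T, ∃ j, Sum.inr j ∈ e) ∧ (∀ i : Fin n, ∃ e ∈ T, Sum.inl i ∈ e) ∧
  ∀ B : Finset (Fin k), B.Nonempty → B ≠ Finset.univ →
    (T.filter (fun e => ∀ j, Sum.inr j ∈ e → j ∈ B)).card < B.card

/-- The class of hypergraphs: edges have 2 or 3 points, no 2-edge inside a 3-edge, nonnegative predimension,
and at most `n` pairwise disjoint (weak) copies of a good template with `n` base points over a given base. -/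
structure Good {V : Type} (E : Set (Finset V)) : Prop where
  card : ∀ e ∈ E, e.card = 2 ∨ e.card = 3
  excl : ∀ e ∈ E, ∀ f ∈ E, e.card = 2 → f.card = 3 → ¬ e ⊆ f
  nonneg : ∀ X : Finset V, 0 ≤ dl E X
  bound : ∀ (n k : ℕ) (T : Finset (Finset (Fin n ⊕ Fin k))), TGood n k T →
    ∀ g : Fin (n + 1) → (Fin n ⊕ Fin k ↪ V),
      (∀ i, ∀ e ∈ T, e.map (g i) ∈ E) →
      (∀ i j x, g i (Sum.inl x) = g j (Sum.inl x)) →
      ∃ i j, i ≠ j ∧ ∃ x y, g i (Sum.inr x) = g j (Sum.inr y)

/-- all edges live on `S` -/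
def On {V : Type} (S : Set V) (E : Set (Finset V)) : Prop := ∀ e ∈ E, ∀ x ∈ e, x ∈ S

/-- a demand over `S`: new points `B` outside `S`, `B.card` new edges, each meeting `B` and inside `S ∪ B`,
minimal prealgebraic -/
def Dem {V : Type} (S : Set V) (B : Finset V) (F : Finset (Finset V)) : Prop :=
  B.Nonempty ∧ (∀ x ∈ B, x ∉ S) ∧ (∀ e ∈ F, ∃ x ∈ e, x ∈ B) ∧ (∀ e ∈ F, ∀ x ∈ e, x ∈ S ∨ x ∈ B) ∧
  F.card = B.card ∧
  ∀ B' : Finset V, B' ⊆ B → B'.Nonempty → B' ≠ B →
    (F.filter (fun e => ∀ x ∈ e, x ∈ B → x ∈ B')).card < B'.card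

/-- no demand over `S` can be added inside the class -/
def Closed {V : Type} (S : Set V) (E : Set (Finset V)) : Prop :=
  ∀ (B : Finset V) (F : Finset (Finset V)), Dem S B F → ¬ Good (E ∪ (↑F : Set (Finset V)))

/-- `G` (edges on `Fin m ⊕ Fin k`) is a minimal prealgebraic extension of its `Fin m`-part -/
def MinExt (m k : ℕ) (G : Finset (Finset (Fin m ⊕ Fin k))) : Prop :=
  (G.filter (fun e => ∃ j, Sum.inr j ∈ e)).card = k ∧
  ∀ B : Finset (Fin k), B.Nonempty → B ≠ Finset.univ →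
    (G.filter (fun e => (∃ j, Sum.inr j ∈ e) ∧ ∀ j, Sum.inr j ∈ e → j ∈ B)).card < B.card

/-- `A` is strong with respect to extensions by at most `k` points -/
def KStr {V : Type} (E : Set (Finset V)) (k : ℕ) (A : Finset V) : Prop :=
  ∀ X : Finset V, X.card ≤ k → dl E A ≤ dl E (A ∪ X)

/-- richness inside `S` for minimal prealgebraic extensions -/
def Rich {V : Type} (S : Set V) (E : Set (Finset V)) : Prop :=
  ∀ (m k : ℕ) (G : Finset (Finset (Fin m ⊕ Fin k))) (a : Fin m ↪ V), 0 < k →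
    Good (↑G : Set (Finset (Fin m ⊕ Fin k))) → MinExt m k G → (∀ i, a i ∈ S) →
    (∀ e : Finset (Fin m), e.map Function.Embedding.inl ∈ G ↔ e.map a ∈ E) →
    KStr E k (Finset.univ.map a) →
    ∃ g : Fin m ⊕ Fin k ↪ V, (∀ i, g (Sum.inl i) = a i) ∧ (∀ j, g (Sum.inr j) ∈ S) ∧
      ∀ e, e ∈ G ↔ e.map g ∈ E

/-- `b` is generic over the finite set `A` -/
def Gen {V : Type} (E : Set (Finset V)) (A : Finset V) (b : V) : Prop :=
  b ∉ A ∧ ∀ Y : Finset V, insert b A ⊆ Y → dl E A + 1 ≤ dl E Y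

/-- infinite dimensional on `S` -/
def InfDim {V : Type} (S : Set V) (E : Set (Finset V)) : Prop :=
  ∀ A : Finset V, (∀ x ∈ A, x ∈ S) → Str E (↑A : Set V) → ∃ b ∈ S, Gen E A b

/-- finite partial isomorphism between strong sets -/
structure PIso {V W : Type} (E : Set (Finset V)) (E' : Set (Finset W)) (A : Finset V) (f : V → W) : Prop where
  inj : Set.InjOn f (↑A : Set V)
  str : Str E (↑A : Set V)
  str' : Str E' (↑(A.image f) : Set W)
  iso : ∀ e : Finset V, e ⊆ A → (e ∈ E ↔ e.image f ∈ E')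

/-! The language with one ternary relation. -/

inductive TRel : ℕ → Type
  | R : TRel 3

/-- the language with one ternary relation symbol -/
def Lg : FirstOrder.Language.{0, 0} := ⟨fun _ => Empty, TRel⟩

/-- the ternary relation of an `Lg`-structure -/
def RR (N : Type) [Lg.Structure N] (x y z : N) : Prop :=
  FirstOrder.Language.Structure.RelMap (L := Lg) (M := N) TRel.R ![x, y, z]

/-- the hypergraph of an `Lg`-structure: 3-edges are the triples in `R`; 2-edges are the pairs not covered by `R` -/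
def hg (N : Type) [Lg.Structure N] : Set (Finset N) :=
  {e | ∃ x y z : N, x ≠ y ∧ x ≠ z ∧ y ≠ z ∧ e = {x, y, z} ∧ RR N x y z} ∪
  {e | ∃ x y : N, x ≠ y ∧ e = {x, y} ∧ ∀ z, ¬ RR N x y z}

/-- the axioms -/
structure Ax (N : Type) [Lg.Structure N] : Prop where
  irr : ∀ x y z : N, RR N x y z → x ≠ y ∧ x ≠ z ∧ y ≠ z
  sym1 : ∀ x y z : N, RR N x y z → RR N y x z
  sym2 : ∀ x y z : N, RR N x y z → RR N x z y
  good : Good (hg N)
  rich : Rich Set.univ (hg N)

/-- the `Lg`-structure on the subset `S` given by the 3-edges of `E` -/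
@[instance_reducible] def stru {V : Type} (S : Set V) (E : Set (Finset V)) : Lg.Structure ↥S where
  funMap := fun {_} f _ => nomatch f
  RelMap := fun {_} r x => match r, x with
    | TRel.R, x => ({(x 0 : V), (x 1 : V), (x 2 : V)} : Finset V) ∈ E ∧
        ({(x 0 : V), (x 1 : V), (x 2 : V)} : Finset V).card = 3

/-- the trace of `E` on the subtype `S` -/
def tr {V : Type} (S : Set V) (E : Set (Finset V)) : Set (Finset ↥S) :=
  {e | e.map (Function.Embedding.subtype (fun x => x ∈ S)) ∈ E}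

noncomputable def newE {V : Type} {m k : ℕ} (G : Finset (Finset (Fin m ⊕ Fin k))) (g0 : Fin m ⊕ Fin k ↪ V) :
    Finset (Finset V) := (G.filter (fun e => ∃ j, Sum.inr j ∈ e)).image (fun e => e.map g0)

def Ext {V : Type} (S : Set V) (E : Set (Finset V)) (S' : Set V) (E' : Set (Finset V)) : Prop :=
  S ⊆ S' ∧ (∀ e : Finset V, (∀ x ∈ e, x ∈ S) → (e ∈ E' ↔ e ∈ E)) ∧ Str E' S

def Alg {V : Type} (S0 S : Set V) (E : Set (Finset V)) : Prop :=
  ∀ s ∈ S, ∃ Y : Finset V, s ∈ Y ∧ (∀ y ∈ Y, y ∈ S) ∧ dl E Y ≤ dl E (Y.filter (fun x => x ∈ S0))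

def UD {α : Type} (P : ∀ (N : Type) [Lg.Structure N], (α → N) → Prop) : Prop :=
  ∃ φ : Lg.Formula α, ∀ (N : Type) [Lg.Structure N] (v : α → N), φ.Realize v ↔ P N v

def PE {α N N' : Type} [Lg.Structure N] [Lg.Structure N'] (v : α → N) (v' : α → N') : Prop :=
  (∀ i j, v i = v j ↔ v' i = v' j) ∧ (∀ i j k, RR N (v i) (v j) (v k) ↔ RR N' (v' i) (v' j) (v' k)) ∧
  (∀ i j, (∀ z, ¬ RR N (v i) (v j) z) ↔ (∀ z, ¬ RR N' (v' i) (v' j) z))

def IsEAE (σ : Lg.BoundedFormula Empty 0) : Prop :=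
  ∀ R : (n : ℕ) → Lg.BoundedFormula Empty n → Prop,
    (∀ (n : ℕ) (ψ : Lg.BoundedFormula Empty n),
      (∀ Q : (m : ℕ) → Lg.BoundedFormula Empty m → Prop,
        (∀ (m : ℕ) (χ : Lg.BoundedFormula Empty m),
          (∀ P : (k : ℕ) → Lg.BoundedFormula Empty k → Prop,
            (∀ (k : ℕ) (θ : Lg.BoundedFormula Empty k), θ.IsQF → P k θ) →
            (∀ (k : ℕ) (θ : Lg.BoundedFormula Empty (k + 1)), P (k + 1) θ → P k θ.ex) →
            P m χ) → Q m χ) →
        (∀ (m : ℕ) (χ : Lg.BoundedFormula Empty (m + 1)), Q (m + 1) χ → Q m χ.all) →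
        Q n ψ) → R n ψ) →
    (∀ (n : ℕ) (ψ : Lg.BoundedFormula Empty (n + 1)), R (n + 1) ψ → R n ψ.ex) →
    R 0 σ

end Pool.Agent.Helper180.SMin
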