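import Mathlib
import Pool.Agent.Helper180.SMin.Base

set_option autoImplicit false
open FirstOrder FirstOrder.Language
open scoped FirstOrder

namespace Pool.Agent.Helper180.SMin
open scoped Classical


theorem en_mono {V : Type} {E E' : Set (Finset V)} (h : E ⊆ E') (X : Finset V) : en E X ≤ en E' X := by
  unfold en
  apply Finset.card_le_card
  intro e he
  rw [Finset.mem_filter] at he ⊢
  exact ⟨he.1, h he.2⟩

theorem dl_congr {V : Type} {E E' : Set (Finset V)} {X : Finset V} (h : ∀ e, e ⊆ X → (e ∈ E ↔ e ∈ E')) :
    dl E X = dl E' X := by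
  unfold dl en
  have : X.powerset.filter (fun e => e ∈ E) = X.powerset.filter (fun e => e ∈ E') := by
    ext e
    rw [Finset.mem_filter, Finset.mem_filter, Finset.mem_powerset]
    exact and_congr_right fun he => h e he
  rw [this]

theorem dl_submod {V : Type} (E : Set (Finset V)) (X Y : Finset V) :
    dl E (X ∪ Y) + dl E (X ∩ Y) ≤ dl E X + dl E Y := by
  have h1 := Finset.card_union_add_card_inter X Y
  have h2 := Finset.card_union_add_card_inter (X.powerset.filter (fun e => e ∈ E))
    (Y.powerset.filter (fun e => e ∈ E))
  have h3 : X.powerset.filter (fun e => e ∈ E) ∩ Y.powerset.filter (fun e => e ∈ E) =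
      (X ∩ Y).powerset.filter (fun e => e ∈ E) := by
    ext e
    simp only [Finset.mem_inter, Finset.mem_filter, Finset.mem_powerset, Finset.subset_inter_iff]
    tauto
  have h4 : (X.powerset.filter (fun e => e ∈ E) ∪ Y.powerset.filter (fun e => e ∈ E)).card ≤
      ((X ∪ Y).powerset.filter (fun e => e ∈ E)).card := by
    apply Finset.card_le_card
    intro e he
    simp only [Finset.mem_union, Finset.mem_filter, Finset.mem_powerset] at he ⊢
    rcases he with ⟨he, hE⟩ | ⟨he, hE⟩
    · exact ⟨he.trans Finset.subset_union_left, hE⟩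
    · exact ⟨he.trans Finset.subset_union_right, hE⟩
  rw [h3] at h2
  unfold dl en
  omega

theorem dl_image {V W : Type} {E : Set (Finset V)} {E' : Set (Finset W)} {X : Finset V} {f : V → W}
    (hf : Set.InjOn f (↑X : Set V)) (h : ∀ e, e ⊆ X → (e ∈ E ↔ e.image f ∈ E')) :
    dl E' (X.image f) = dl E X := by
  unfold dl en
  have h1 : (X.image f).card = X.card := Finset.card_image_of_injOn hf
  have h2 : ((X.image f).powerset.filter (fun e => e ∈ E')).card =
      (X.powerset.filter (fun e => e ∈ E)).card := by
    have h3 : (X.image f).powerset.filter (fun e => e ∈ E') =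
        (X.powerset.filter (fun e => e ∈ E)).image (fun e => e.image f) := by
      ext e
      simp only [Finset.mem_filter, Finset.mem_powerset, Finset.mem_image]
      constructor
      · rintro ⟨he, hE⟩
        obtain ⟨e', he', rfl⟩ := Finset.subset_image_iff.mp he
        have he'' : e' ⊆ X := by exact_mod_cast he'
        exact ⟨e', ⟨he'', (h e' he'').mpr hE⟩, rfl⟩
      · rintro ⟨e', ⟨he', hE⟩, rfl⟩
        exact ⟨Finset.image_subset_image he', (h e' he').mp hE⟩
    rw [h3]
    apply Finset.card_image_of_injOn
    intro e he e' he' hee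
    simp only [Finset.coe_filter, Finset.mem_powerset, Set.mem_ofPred_eq] at he he'
    have hee' : e.image f = e'.image f := hee
    ext x
    constructor
    · intro hx
      have : f x ∈ e'.image f := by rw [← hee']; exact Finset.mem_image_of_mem f hx
      obtain ⟨y, hy, hyx⟩ := Finset.mem_image.mp this
      have := hf (he'.1 hy) (he.1 hx) hyx
      rwa [← this]
    · intro hx
      have : f x ∈ e.image f := by rw [hee']; exact Finset.mem_image_of_mem f hx
      obtain ⟨y, hy, hyx⟩ := Finset.mem_image.mp this
      have := hf (he.1 hy) (he'.1 hx) hyx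
      rwa [← this]
  rw [h1, h2]

theorem dl_off {V : Type} {S : Set V} {E : Set (Finset V)} (hE : On S E) (Y : Finset V) :
    dl E Y = dl E (Y.filter (fun x => x ∈ S)) + (Y.filter (fun x => x ∉ S)).card := by
  have h1 : (Y.filter (fun x => x ∈ S)).card + (Y.filter (fun x => x ∉ S)).card = Y.card :=
    Finset.card_filter_add_card_filter_not (fun x => x ∈ S)
  have h2 : Y.powerset.filter (fun e => e ∈ E) =
      (Y.filter (fun x => x ∈ S)).powerset.filter (fun e => e ∈ E) := by
    ext e
    simp only [Finset.mem_filter, Finset.mem_powerset]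
    constructor
    · rintro ⟨he, hE'⟩
      refine ⟨fun x hx => ?_, hE'⟩
      rw [Finset.mem_filter]
      exact ⟨he hx, hE e hE' x hx⟩
    · rintro ⟨he, hE'⟩
      exact ⟨he.trans (Finset.filter_subset _ _), hE'⟩
  unfold dl en
  rw [h2]
  omega

theorem dl_insert_le {V : Type} (E : Set (Finset V)) (A : Finset V) (b : V) :
    dl E (insert b A) ≤ dl E A + 1 := by
  have h1 := Finset.card_insert_le b A
  have h2 : (A.powerset.filter (fun e => e ∈ E)).card ≤
      ((insert b A).powerset.filter (fun e => e ∈ E)).card := by
    apply Finset.card_le_card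
    intro e he
    simp only [Finset.mem_filter, Finset.mem_powerset] at he ⊢
    exact ⟨he.1.trans (Finset.subset_insert b A), he.2⟩
  unfold dl en
  omega

end Pool.Agent.Helper180.SMin
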