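import Mathlib
import Pool.Agent.Helper180.SMin.Base
import Pool.Agent.Helper180.SMin.JBasic

set_option autoImplicit false
open FirstOrder FirstOrder.Language
open scoped FirstOrder

namespace Pool.Agent.Helper180.SMin
open scoped Classical


theorem str_finite_iff {V : Type} {E : Set (Finset V)} {A : Finset V} :
    Str E (↑A : Set V) ↔ ∀ Y : Finset V, A ⊆ Y → dl E A ≤ dl E Y := by
  constructor
  · intro h Y hAY
    have h1 := h Y
    convert h1 using 2
    ext x
    simp only [Finset.mem_filter, Finset.mem_coe]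
    exact ⟨fun hx => ⟨hAY hx, hx⟩, fun hx => hx.2⟩
  · intro h Y
    have h3 := h (Y ∪ A) Finset.subset_union_right
    have h4 := dl_submod E Y A
    have h5 : dl E (Y ∩ A) ≤ dl E Y := by linarith
    convert h5 using 2
    ext x
    simp only [Finset.mem_filter, Finset.mem_coe, Finset.mem_inter]

theorem str_of_le {V : Type} {E : Set (Finset V)} {A Y : Finset V} (hA : Str E (↑A : Set V)) (hAY : A ⊆ Y)
    (h : dl E Y ≤ dl E A) : Str E (↑Y : Set V) := by
  rw [str_finite_iff] at hA ⊢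
  intro Z hZ
  exact h.trans (hA Z (hAY.trans hZ))

theorem str_inter {V : Type} {E : Set (Finset V)} {S S' : Set V} (h : Str E S) (h' : Str E S') :
    Str E (S ∩ S') := by
  intro Y
  have h1 := h' Y
  have h2 := h (Y.filter (fun x => x ∈ S'))
  have h4 := h2.trans h1
  refine le_of_eq_of_le ?_ h4
  congr 1
  apply Finset.ext
  intro x
  simp only [Finset.mem_filter, Set.mem_inter_iff]
  tauto

theorem str_inter_fin {V : Type} {E : Set (Finset V)} {A A' : Finset V} (h : Str E (↑A : Set V))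
    (h' : Str E (↑A' : Set V)) : Str E (↑(A ∩ A') : Set V) := by
  rw [Finset.coe_inter]
  exact str_inter h h'

theorem str_trans {V : Type} {E E' : Set (Finset V)} {S S' : Set V} (hSS : S ⊆ S') (hE : On S' E)
    (h : ∀ e : Finset V, (∀ x ∈ e, x ∈ S') → (e ∈ E' ↔ e ∈ E)) (h' : Str E' S') (hS : Str E S) :
    Str E' S := by
  intro Y
  have h1 := h' Y
  have h2 := hS (Y.filter (fun x => x ∈ S'))
  have h3 : (Y.filter (fun x => x ∈ S')).filter (fun x => x ∈ S) = Y.filter (fun x => x ∈ S) := by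
    ext x
    simp only [Finset.mem_filter]
    exact ⟨fun hx => ⟨hx.1.1, hx.2⟩, fun hx => ⟨⟨hx.1, hSS hx.2⟩, hx.2⟩⟩
  rw [h3] at h2
  have h4 : dl E' (Y.filter (fun x => x ∈ S)) = dl E (Y.filter (fun x => x ∈ S)) := by
    apply dl_congr
    intro e he
    apply h
    intro x hx
    exact hSS (Finset.mem_filter.mp (he hx)).2
  have h5 : dl E' (Y.filter (fun x => x ∈ S')) = dl E (Y.filter (fun x => x ∈ S')) := by
    apply dl_congr
    intro e he
    apply h
    intro x hx
    exact (Finset.mem_filter.mp (he hx)).2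
  rw [h4]
  rw [h5] at h1
  exact h2.trans h1

theorem str_down {V : Type} {E E' : Set (Finset V)} {S S' : Set V} (hSS : S ⊆ S') (hE : On S' E)
    (h : ∀ e : Finset V, (∀ x ∈ e, x ∈ S') → (e ∈ E' ↔ e ∈ E)) (hS : Str E' S) :
    Str E S := by
  intro Y
  have h2 := hS (Y.filter (fun x => x ∈ S'))
  have h3 : (Y.filter (fun x => x ∈ S')).filter (fun x => x ∈ S) = Y.filter (fun x => x ∈ S) := by
    ext x
    simp only [Finset.mem_filter]
    exact ⟨fun hx => ⟨hx.1.1, hx.2⟩, fun hx => ⟨⟨hx.1, hSS hx.2⟩, hx.2⟩⟩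
  rw [h3] at h2
  have h4 : dl E' (Y.filter (fun x => x ∈ S)) = dl E (Y.filter (fun x => x ∈ S)) := by
    apply dl_congr
    intro e he
    apply h
    intro x hx
    exact hSS (Finset.mem_filter.mp (he hx)).2
  have h5 : dl E' (Y.filter (fun x => x ∈ S')) = dl E (Y.filter (fun x => x ∈ S')) := by
    apply dl_congr
    intro e he
    apply h
    intro x hx
    exact (Finset.mem_filter.mp (he hx)).2
  rw [h4, h5] at h2
  have h6 := dl_off hE Y
  have h7 : (0 : ℤ) ≤ ((Y.filter (fun x => x ∉ S')).card : ℤ) := Int.natCast_nonneg _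
  linarith

theorem exists_closure {V : Type} {E : Set (Finset V)} (hE : ∀ X : Finset V, 0 ≤ dl E X) (X : Finset V) :
    ∃ Y : Finset V, X ⊆ Y ∧ Str E (↑Y : Set V) := by
  have hex : ∃ n : ℕ, ∃ Y : Finset V, X ⊆ Y ∧ dl E Y = (n : ℤ) :=
    ⟨(dl E X).toNat, X, Finset.Subset.refl _, (Int.toNat_of_nonneg (hE X)).symm⟩
  obtain ⟨Y, hXY, hY⟩ := Nat.find_spec hex
  refine ⟨Y, hXY, ?_⟩
  rw [str_finite_iff]
  intro Z hZ
  have h1 : Nat.find hex ≤ (dl E Z).toNat :=
    Nat.find_min' hex ⟨Z, hXY.trans hZ, (Int.toNat_of_nonneg (hE Z)).symm⟩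
  have h2 := Int.toNat_of_nonneg (hE Z)
  rw [hY]
  have h3 : ((Nat.find hex : ℕ) : ℤ) ≤ (((dl E Z).toNat : ℕ) : ℤ) := by exact_mod_cast h1
  rw [h2] at h3
  exact h3

theorem exists_closure_in {V : Type} {E : Set (Finset V)} (hE : ∀ X : Finset V, 0 ≤ dl E X) {S : Set V}
    (hS : Str E S) (X : Finset V) (hX : ∀ x ∈ X, x ∈ S) :
    ∃ Y : Finset V, X ⊆ Y ∧ (∀ x ∈ Y, x ∈ S) ∧ Str E (↑Y : Set V) := by
  obtain ⟨Y, hXY, hY⟩ := exists_closure hE X
  refine ⟨Y.filter (fun x => x ∈ S), ?_, ?_, ?_⟩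
  · intro x hx
    exact Finset.mem_filter.mpr ⟨hXY hx, hX x hx⟩
  · intro x hx
    exact (Finset.mem_filter.mp hx).2
  · have h1 : ((Y.filter (fun x => x ∈ S) : Finset V) : Set V) = (↑Y : Set V) ∩ S := by
      ext x; simp
    rw [h1]
    exact str_inter hY hS

end Pool.Agent.Helper180.SMin
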