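import Mathlib
import Pool.Agent.Helper180.SMin.Base
import Pool.Agent.Helper180.SMin.JBasic
import Pool.Agent.Helper180.SMin.JStr

set_option autoImplicit false
open FirstOrder FirstOrder.Language
open scoped FirstOrder

namespace Pool.Agent.Helper180.SMin
open scoped Classical



theorem sm_en_split {V : Type} (E : Set (Finset V)) {A D : Finset V} (h : A ⊆ D) :
    en E D = en E A + (D.powerset.filter (fun e => e ∈ E ∧ ¬ e ⊆ A)).card := by
  unfold en
  rw [← Finset.card_union_of_disjoint]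
  · congr 1
    ext e
    simp only [Finset.mem_filter, Finset.mem_powerset, Finset.mem_union]
    constructor
    · rintro ⟨h1, h2⟩
      by_cases h3 : e ⊆ A
      · exact Or.inl ⟨h3, h2⟩
      · exact Or.inr ⟨h1, h2, h3⟩
    · rintro (⟨h1, h2⟩ | ⟨h1, h2, _⟩)
      · exact ⟨h1.trans h, h2⟩
      · exact ⟨h1, h2⟩
  · rw [Finset.disjoint_left]
    intro e he he'
    simp only [Finset.mem_filter, Finset.mem_powerset] at he he'
    exact he'.2.2 he.1

theorem sm_tgood {V : Type} {E : Set (Finset V)} {A C A0 : Finset V} (hA : Str E (↑A : Set V))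
    (hAC : A ⊆ C) (hdl : dl E C = dl E A)
    (hmin : ∀ D, A ⊆ D → D ⊆ C → dl E D = dl E A → D = A ∨ D = C)
    (hA0 : ∀ x, x ∈ A0 ↔ x ∈ A ∧ ∃ e ∈ E, e ⊆ C ∧ x ∈ e ∧ ∃ y ∈ e, y ∉ A)
    {n k' : ℕ} (hk' : 0 < k') (hcard : A.card + k' = C.card) (g : Fin n ⊕ Fin k' ↪ V)
    (hg1 : ∀ x ∈ A0, ∃ i, g (Sum.inl i) = x) (hg1' : ∀ i, g (Sum.inl i) ∈ A0)
    (hg2 : ∀ x ∈ C \ A, ∃ j, g (Sum.inr j) = x) (hg2' : ∀ j, g (Sum.inr j) ∈ C \ A) :
    TGood n k' (Finset.univ.filter (fun e => e.map g ∈ E ∧ ∃ j, Sum.inr j ∈ e)) := by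
  have hA0A : ∀ x ∈ A0, x ∈ A := fun x hx => ((hA0 x).1 hx).1
  have hgC : ∀ z, g z ∈ C := by
    intro z
    rcases z with i | j
    · exact hAC (hA0A _ (hg1' i))
    · exact (Finset.mem_sdiff.1 (hg2' j)).1
  have hinr : ∀ j, g (Sum.inr j) ∉ A := fun j => (Finset.mem_sdiff.1 (hg2' j)).2
  have lift : ∀ e ∈ E, e ⊆ C → ¬ e ⊆ A → ∃ e' : Finset (Fin n ⊕ Fin k'),
      e'.map g = e ∧ ∃ j, Sum.inr j ∈ e' := by
    intro e he heC heA
    obtain ⟨y, hy, hyA⟩ := Finset.not_subset.1 heA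
    refine ⟨Finset.univ.filter (fun z => g z ∈ e), ?_, ?_⟩
    · ext x
      simp only [Finset.mem_map, Finset.mem_filter, Finset.mem_univ, true_and]
      constructor
      · rintro ⟨z, hz, rfl⟩
        exact hz
      · intro hx
        by_cases hxA : x ∈ A
        · obtain ⟨i, hi⟩ := hg1 x ((hA0 x).2 ⟨hxA, e, he, heC, hx, y, hy, hyA⟩)
          exact ⟨Sum.inl i, by rw [hi]; exact hx, hi⟩
        · obtain ⟨j, hj⟩ := hg2 x (Finset.mem_sdiff.2 ⟨heC hx, hxA⟩)
          exact ⟨Sum.inr j, by rw [hj]; exact hx, hj⟩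
    · obtain ⟨j, hj⟩ := hg2 y (Finset.mem_sdiff.2 ⟨heC hy, hyA⟩)
      refine ⟨j, ?_⟩
      simp only [Finset.mem_filter, Finset.mem_univ, true_and]
      rw [hj]; exact hy
  refine ⟨hk', ?_, ?_, ?_, ?_⟩
  · -- cardinality
    have h1 : (Finset.univ.filter (fun e : Finset (Fin n ⊕ Fin k') => e.map g ∈ E ∧
        ∃ j, Sum.inr j ∈ e)).image (fun e => e.map g) =
        C.powerset.filter (fun e => e ∈ E ∧ ¬ e ⊆ A) := by
      ext e
      simp only [Finset.mem_image, Finset.mem_filter, Finset.mem_univ, true_and,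
        Finset.mem_powerset]
      constructor
      · rintro ⟨e', ⟨h1, j, hj⟩, rfl⟩
        refine ⟨?_, h1, ?_⟩
        · intro x hx
          obtain ⟨z, _, rfl⟩ := Finset.mem_map.1 hx
          exact hgC z
        · intro hsub
          exact hinr j (hsub (Finset.mem_map_of_mem g hj))
      · rintro ⟨h1, h2, h3⟩
        obtain ⟨e', he', hj⟩ := lift e h2 h1 h3
        exact ⟨e', ⟨by rw [he']; exact h2, hj⟩, he'⟩
    have h2 := Finset.card_image_of_injective (Finset.univ.filter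
      (fun e : Finset (Fin n ⊕ Fin k') => e.map g ∈ E ∧ ∃ j, Sum.inr j ∈ e))
      (Finset.map_injective g)
    rw [← h2, h1]
    have h3 := sm_en_split E hAC
    unfold dl at hdl
    omega
  · intro e he
    exact (Finset.mem_filter.1 he).2.2
  · intro i
    obtain ⟨_, e, he, heC, hie, y, hy, hyA⟩ := (hA0 _).1 (hg1' i)
    obtain ⟨e', he', hj⟩ := lift e he heC (fun hh => hyA (hh hy))
    refine ⟨e', ?_, ?_⟩
    · simp only [Finset.mem_filter, Finset.mem_univ, true_and]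
      exact ⟨by rw [he']; exact he, hj⟩
    · rw [← he'] at hie
      obtain ⟨z, hz, hzi⟩ := Finset.mem_map.1 hie
      rw [← g.injective hzi]
      exact hz
  · intro B hB hBu
    obtain ⟨D, hD⟩ : ∃ D, D = A ∪ B.image (fun j => g (Sum.inr j)) := ⟨_, rfl⟩
    have hAD : A ⊆ D := by rw [hD]; exact Finset.subset_union_left
    have hDC : D ⊆ C := by
      rw [hD]
      apply Finset.union_subset hAC
      intro x hx
      obtain ⟨j, _, rfl⟩ := Finset.mem_image.1 hx
      exact hgC _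
    have hDcard : D.card = A.card + B.card := by
      rw [hD, Finset.card_union_of_disjoint, Finset.card_image_of_injective]
      · intro j j' hjj
        exact Sum.inr_injective (g.injective hjj)
      · rw [Finset.disjoint_left]
        intro x hx hx'
        obtain ⟨j, _, rfl⟩ := Finset.mem_image.1 hx'
        exact hinr j hx
    have h1 := str_finite_iff.1 hA D hAD
    have h2 : dl E D ≠ dl E A := by
      intro heq
      rcases hmin D hAD hDC heq with h | h
      · have : 0 < B.card := Finset.card_pos.2 hB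
        rw [h] at hDcard
        omega
      · have : B.card < k' := by
          have h3 : B.card ≤ Fintype.card (Fin k') := Finset.card_le_univ B
          rw [Fintype.card_fin] at h3
          rcases Nat.lt_or_ge B.card k' with h4 | h4
          · exact h4
          · exact absurd (Finset.eq_univ_of_card B (by rw [Fintype.card_fin]; omega)) hBu
        rw [h] at hDcard
        omega
    have h3 := sm_en_split E hAD
    have h4 : ((Finset.univ.filter (fun e : Finset (Fin n ⊕ Fin k') => e.map g ∈ E ∧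
        ∃ j, Sum.inr j ∈ e)).filter (fun e => ∀ j, Sum.inr j ∈ e → j ∈ B)).card ≤
        (D.powerset.filter (fun e => e ∈ E ∧ ¬ e ⊆ A)).card := by
      apply Finset.card_le_card_of_injOn (fun e => e.map g)
      · intro e he
        simp only [Finset.coe_filter, Finset.mem_filter, Finset.mem_univ, true_and,
          Set.mem_setOf_eq, Finset.mem_powerset] at he ⊢
        obtain ⟨⟨he1, j, hj⟩, he2⟩ := he
        refine ⟨?_, he1, ?_⟩
        · intro x hx
          obtain ⟨z, hz, rfl⟩ := Finset.mem_map.1 hx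
          rcases z with i | j
          · exact hAD (hA0A _ (hg1' i))
          · rw [hD]
            exact Finset.mem_union_right _ (Finset.mem_image.2 ⟨j, he2 j hz, rfl⟩)
        · intro hsub
          exact hinr j (hsub (Finset.mem_map_of_mem g hj))
      · intro e _ e' _ hee
        exact Finset.map_injective g hee
    unfold dl at h1 h2
    omega

theorem min_finite {V : Type} {E : Set (Finset V)} (hE : Good E) {A : Finset V} (hA : Str E (↑A : Set V)) (k : ℕ) :
    {C : Finset V | A ⊆ C ∧ C.card = k ∧ C ≠ A ∧ dl E C = dl E A ∧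
      ∀ D : Finset V, A ⊆ D → D ⊆ C → dl E D = dl E A → D = A ∨ D = C}.Finite := by
  by_contra hinf
  obtain ⟨CC, hCC⟩ : ∃ CC : Set (Finset V), CC = {C : Finset V | A ⊆ C ∧ C.card = k ∧ C ≠ A ∧
      dl E C = dl E A ∧ ∀ D : Finset V, A ⊆ D → D ⊆ C → dl E D = dl E A → D = A ∨ D = C} :=
    ⟨_, rfl⟩
  rw [← hCC] at hinf
  have hmem : ∀ C ∈ CC, A ⊆ C ∧ C.card = k ∧ C ≠ A ∧ dl E C = dl E A ∧
      ∀ D : Finset V, A ⊆ D → D ⊆ C → dl E D = dl E A → D = A ∨ D = C := by
    intro C hC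
    rw [hCC] at hC
    exact hC
  have hinter : ∀ C ∈ CC, ∀ C' ∈ CC, C ≠ C' → C ∩ C' = A := by
    intro C hC C' hC' hne
    obtain ⟨h1, _, _, h4, h5⟩ := hmem C hC
    obtain ⟨h1', _, _, h4', h5'⟩ := hmem C' hC'
    have s1 := str_of_le hA h1 h4.le
    have s2 := str_of_le hA h1' h4'.le
    have s3 := str_inter_fin s1 s2
    have hAI : A ⊆ C ∩ C' := Finset.subset_inter h1 h1'
    have d1 := str_finite_iff.1 s3 C Finset.inter_subset_left
    have d2 := str_finite_iff.1 hA (C ∩ C') hAI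
    have d3 : dl E (C ∩ C') = dl E A := by omega
    rcases h5 _ hAI Finset.inter_subset_left d3 with h | h
    · exact h
    · rcases h5' _ hAI Finset.inter_subset_right d3 with h' | h'
      · exact h'
      · exact absurd (h.symm.trans h') hne
  have hinf1 : Infinite ↥CC := Set.infinite_coe_iff.2 hinf
  obtain ⟨C1⟩ : Nonempty ↥CC := inferInstance
  obtain ⟨k', hk'⟩ : ∃ k', k' = k - A.card := ⟨_, rfl⟩
  have hAk : A.card < k := by
    obtain ⟨h1, h2, h3, _, _⟩ := hmem C1.1 C1.2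
    rw [← h2]
    exact Finset.card_lt_card (Finset.ssubset_iff_subset_ne.2 ⟨h1, h3.symm⟩)
  have hk'0 : 0 < k' := by omega
  -- first pigeonhole
  obtain ⟨f1, hf1⟩ : ∃ f1 : ↥CC → ↥A.powerset, ∀ C, (f1 C).1 =
      A.filter (fun a => ∃ e ∈ E, e ⊆ C.1 ∧ a ∈ e ∧ ∃ y ∈ e, y ∉ A) :=
    ⟨fun C => ⟨A.filter (fun a => ∃ e ∈ E, e ⊆ C.1 ∧ a ∈ e ∧ ∃ y ∈ e, y ∉ A),
      Finset.mem_powerset.2 (Finset.filter_subset _ _)⟩, fun _ => rfl⟩
  obtain ⟨A0, hA0⟩ := Finite.exists_infinite_fiber f1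
  obtain ⟨n, hn⟩ : ∃ n, n = A0.1.card := ⟨_, rfl⟩
  obtain ⟨a, ha1, ha2⟩ : ∃ a : Fin n → V, Function.Injective a ∧ (∀ i, a i ∈ A0.1) ∧
      ∀ x ∈ A0.1, ∃ i, a i = x := by
    have eq := (Finset.equivFinOfCardEq hn.symm).symm
    refine ⟨fun i => (eq i : V), fun i j hij => eq.injective (Subtype.ext hij),
      fun i => (eq i).2, fun x hx => ?_⟩
    refine ⟨eq.symm ⟨x, hx⟩, ?_⟩
    simp
  have hA0A : ∀ x ∈ A0.1, x ∈ A := fun x hx => Finset.mem_powerset.1 A0.2 hx
  have hgex : ∀ C : ↥CC, ∃ g : Fin n ⊕ Fin k' ↪ V, (∀ i, g (Sum.inl i) = a i) ∧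
      (∀ j, g (Sum.inr j) ∈ C.1 \ A) ∧ ∀ x ∈ C.1 \ A, ∃ j, g (Sum.inr j) = x := by
    intro C
    obtain ⟨h1, h2, _, _, _⟩ := hmem C.1 C.2
    have hc : (C.1 \ A).card = k' := by
      rw [Finset.card_sdiff_of_subset h1, h2, hk']
    have eq := (Finset.equivFinOfCardEq hc).symm
    refine ⟨⟨Sum.elim a (fun j => (eq j : V)), ?_⟩, fun i => rfl, fun j => (eq j).2, ?_⟩
    · intro z z' hzz
      rcases z with i | j <;> rcases z' with i' | j'
      · simp only [Sum.elim_inl] at hzz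
        rw [ha1 hzz]
      · exfalso
        simp only [Sum.elim_inl, Sum.elim_inr] at hzz
        exact (Finset.mem_sdiff.1 (eq j').2).2 (hzz ▸ hA0A _ (ha2.1 i))
      · exfalso
        simp only [Sum.elim_inl, Sum.elim_inr] at hzz
        exact (Finset.mem_sdiff.1 (eq j).2).2 (hzz ▸ hA0A _ (ha2.1 i'))
      · simp only [Sum.elim_inr] at hzz
        rw [eq.injective (Subtype.ext hzz)]
    · intro x hx
      refine ⟨eq.symm ⟨x, hx⟩, ?_⟩
      change ((eq (eq.symm ⟨x, hx⟩) : ↥(C.1 \ A)) : V) = x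
      rw [Equiv.apply_symm_apply]
  choose g hg1 hg2 hg3 using hgex
  -- second pigeonhole
  obtain ⟨f2, hf2⟩ : ∃ f2 : ↥CC → Finset (Finset (Fin n ⊕ Fin k')), ∀ C, f2 C =
      Finset.univ.filter (fun e => e.map (g C) ∈ E ∧ ∃ j, Sum.inr j ∈ e) := ⟨_, fun _ => rfl⟩
  obtain ⟨T, hT⟩ := Finite.exists_infinite_fiber (fun C : ↥(f1 ⁻¹' {A0}) => f2 C.1)
  obtain ⟨seq⟩ : Nonempty (ℕ ↪ ↥((fun C : ↥(f1 ⁻¹' {A0}) => f2 C.1) ⁻¹' {T})) :=
    ⟨Infinite.natEmbedding _⟩
  obtain ⟨sq, hsq⟩ : ∃ sq : ℕ → ↥CC, ∀ i, sq i = (seq i).1.1 := ⟨_, fun _ => rfl⟩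
  have hsqT : ∀ i, Finset.univ.filter (fun e => e.map (g (sq i)) ∈ E ∧ ∃ j, Sum.inr j ∈ e) = T := by
    intro i
    rw [hsq, ← hf2]
    exact (seq i).2
  have hsqA : ∀ i, A.filter (fun a => ∃ e ∈ E, e ⊆ (sq i).1 ∧ a ∈ e ∧ ∃ y ∈ e, y ∉ A) = A0.1 := by
    intro i
    rw [hsq, ← hf1]
    exact congrArg Subtype.val (seq i).1.2
  have hsqinj : ∀ i j, i ≠ j → (sq i).1 ≠ (sq j).1 := by
    intro i j hij heq
    apply hij
    apply seq.injective
    apply Subtype.ext
    apply Subtype.ext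
    rw [← hsq, ← hsq]
    exact Subtype.ext heq
  have hTG : TGood n k' T := by
    rw [← hsqT 0]
    obtain ⟨h1, h2, h3, h4, h5⟩ := hmem (sq 0).1 (sq 0).2
    apply sm_tgood (A0 := A0.1) hA h1 h4 h5 _ hk'0 (by omega) (g (sq 0))
    · intro x hx
      obtain ⟨i, hi⟩ := ha2.2 x hx
      exact ⟨i, by rw [hg1]; exact hi⟩
    · intro i
      rw [hg1]
      exact ha2.1 i
    · exact hg3 (sq 0)
    · exact hg2 (sq 0)
    · intro x
      rw [← hsqA 0, Finset.mem_filter]
  obtain ⟨i, j, hij, x, y, hxy⟩ := hE.bound n k' T hTG (fun i => g (sq i))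
    (by
      intro i e he
      rw [← hsqT i] at he
      exact (Finset.mem_filter.1 he).2.1)
    (by
      intro i j x
      rw [hg1, hg1])
  have hne := hsqinj i j (fun hh => hij (Fin.ext hh))
  have hI := hinter _ (sq i).2 _ (sq j).2 hne
  have m1 := Finset.mem_sdiff.1 (hg2 (sq i) x)
  have m2 := Finset.mem_sdiff.1 (hg2 (sq j) y)
  rw [hxy] at m1
  apply m2.2
  rw [← hI]
  exact Finset.mem_inter.2 ⟨m1.1, m2.1⟩

end Pool.Agent.Helper180.SMin
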