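import Mathlib
import Pool.Agent.Helper180.SMin.Base
import Pool.Agent.Helper180.SMin.JBasic
import Pool.Agent.Helper180.SMin.JStr
import Pool.Agent.Helper180.SMin.JMinfin

set_option autoImplicit false
open FirstOrder FirstOrder.Language
open scoped FirstOrder

namespace Pool.Agent.Helper180.SMin
open scoped Classical


theorem alg_finite {V : Type} {E : Set (Finset V)} (hE : Good E) {A : Finset V} (hA : Str E (↑A : Set V)) (k : ℕ) :
    {C : Finset V | A ⊆ C ∧ C.card ≤ k ∧ dl E C = dl E A}.Finite := by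
  induction k with
  | zero =>
    refine (Set.finite_singleton (∅ : Finset V)).subset ?_
    rintro C ⟨-, h, -⟩
    exact Finset.card_eq_zero.1 (Nat.le_zero.1 h)
  | succ k ih =>
    have hfin : (⋃ C0 ∈ {C : Finset V | A ⊆ C ∧ C.card ≤ k ∧ dl E C = dl E A},
        ⋃ j ∈ Set.Iic (k + 1), {C : Finset V | C0 ⊆ C ∧ C.card = j ∧ C ≠ C0 ∧ dl E C = dl E C0 ∧
          ∀ D : Finset V, C0 ⊆ D → D ⊆ C → dl E D = dl E C0 → D = C0 ∨ D = C}).Finite := by
      refine ih.biUnion fun C0 hC0 => (Set.finite_Iic _).biUnion fun j _ => ?_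
      exact min_finite hE (str_of_le hA hC0.1 hC0.2.2.le) j
    refine ((Set.finite_singleton A).union hfin).subset ?_
    rintro C ⟨hAC, hCk, hCd⟩
    by_cases hCA : C = A
    · exact Or.inl hCA
    · right
      obtain ⟨C0, hC0, hmax⟩ := Finset.exists_max_image
        (C.powerset.filter (fun D => A ⊆ D ∧ D ≠ C ∧ dl E D = dl E A)) Finset.card
        ⟨A, by
          rw [Finset.mem_filter, Finset.mem_powerset]
          exact ⟨hAC, Finset.Subset.refl A, fun h => hCA h.symm, rfl⟩⟩
      rw [Finset.mem_filter, Finset.mem_powerset] at hC0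
      obtain ⟨h1, h2, h3, h4⟩ := hC0
      have hlt : C0.card < C.card := Finset.card_lt_card (Finset.ssubset_iff_subset_ne.2 ⟨h1, h3⟩)
      simp only [Set.mem_iUnion, exists_prop]
      refine ⟨C0, ⟨h2, by omega, h4⟩, C.card, hCk, h1, rfl, fun h => h3 h.symm,
        hCd.trans h4.symm, ?_⟩
      intro D hD1 hD2 hD3
      by_cases hDC : D = C
      · exact Or.inr hDC
      · left
        have := hmax D (by
          rw [Finset.mem_filter, Finset.mem_powerset]
          exact ⟨hD2, h2.trans hD1, hDC, hD3.trans h4⟩)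
        exact (Finset.eq_of_subset_of_card_le hD1 this).symm

theorem alg_countable {V : Type} {E : Set (Finset V)} (hE : Good E) {A : Finset V} (hA : Str E (↑A : Set V)) :
    {b : V | ¬ Gen E A b}.Countable := by
  have hc : (⋃ k : ℕ, ⋃ C ∈ {C : Finset V | A ⊆ C ∧ C.card ≤ k ∧ dl E C = dl E A},
      (↑C : Set V)).Countable :=
    Set.countable_iUnion fun k => (alg_finite hE hA k).countable.biUnion fun C _ =>
      C.countable_toSet
  refine hc.mono ?_
  intro b hb
  have hb' : ¬ (b ∉ A ∧ ∀ Y : Finset V, insert b A ⊆ Y → dl E A + 1 ≤ dl E Y) := hb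
  simp only [Set.mem_iUnion, exists_prop]
  by_cases hbA : b ∈ A
  · exact ⟨A.card, A, ⟨Finset.Subset.refl A, le_rfl, rfl⟩, hbA⟩
  · have h1 : ¬ ∀ Y : Finset V, insert b A ⊆ Y → dl E A + 1 ≤ dl E Y := fun h => hb' ⟨hbA, h⟩
    push Not at h1
    obtain ⟨Y, hY, hlt⟩ := h1
    have h2 : A ⊆ Y := (Finset.subset_insert b A).trans hY
    have h3 := str_finite_iff.1 hA Y h2
    exact ⟨Y.card, Y, ⟨h2, le_rfl, by omega⟩, hY (Finset.mem_insert_self b A)⟩

end Pool.Agent.Helper180.SMin
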