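import Mathlib
import Pool.Agent.Helper180.SMin.Base
import Pool.Agent.Helper180.SMin.JBasic

set_option autoImplicit false
open FirstOrder FirstOrder.Language
open scoped FirstOrder

namespace Pool.Agent.Helper180.SMin
open scoped Classical


theorem good_comap {V W : Type} {E : Set (Finset W)} (hE : Good E) (h : V ↪ W) :
    Good {e : Finset V | e.map h ∈ E} := by
  refine ⟨fun e he => ?_, fun e he f hf h2 h3 hef => ?_, fun X => ?_, fun n k T hT g h1 h2 => ?_⟩
  · have := hE.card _ he
    rwa [Finset.card_map] at this
  · refine hE.excl _ he _ hf ?_ ?_ ?_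
    · rw [Finset.card_map]; exact h2
    · rw [Finset.card_map]; exact h3
    · exact Finset.map_subset_map.2 hef
  · have e1 : dl E (X.image h) = dl {e : Finset V | e.map h ∈ E} X := by
      refine dl_image h.injective.injOn fun e _ => ?_
      rw [Set.mem_setOf_eq, Finset.map_eq_image]
    rw [← e1]
    exact hE.nonneg _
  · obtain ⟨i, j, hij, x, y, hxy⟩ := hE.bound n k T hT (fun i => (g i).trans h)
      (fun i e he => by
        have := h1 i e he
        rw [Set.mem_setOf_eq, Finset.map_map] at this
        exact this)
      (fun i j x => by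
        simp only [Function.Embedding.trans_apply]
        rw [h2 i j x])
    exact ⟨i, j, hij, x, y, h.injective hxy⟩

theorem good_mono {V : Type} {E E' : Set (Finset V)} (hE : Good E) (h : E' ⊆ E) : Good E' := by
  refine ⟨fun e he => hE.card _ (h he), fun e he f hf h2 h3 => hE.excl _ (h he) _ (h hf) h2 h3,
    fun X => ?_, fun n k T hT g h1 h2 => hE.bound n k T hT g (fun i e he => h (h1 i e he)) h2⟩
  have h1 := hE.nonneg X
  have h2 := en_mono h X
  unfold dl at h1 ⊢
  omega

end Pool.Agent.Helper180.SMin
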