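import Mathlib
import Pool.Agent.Helper180.SMin.Base
import Pool.Agent.Helper180.SMin.JBasic

set_option autoImplicit false
open FirstOrder FirstOrder.Language
open scoped FirstOrder

namespace Pool.Agent.Helper180.SMin
open scoped Classical


theorem count_lemma {V : Type} (E : Set (Finset V)) (S : Set V) {n k : ℕ} {T : Finset (Finset (Fin n ⊕ Fin k))}
    (hT : TGood n k T) {ι : Type} (J : Finset ι) (g : ι → (Fin n ⊕ Fin k ↪ V)) (a : Fin n → V)
    (ha : ∀ i ∈ J, ∀ x, g i (Sum.inl x) = a x) (hg : ∀ i ∈ J, ∀ e ∈ T, e.map (g i) ∈ E)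
    (hd : ∀ i ∈ J, ∀ j ∈ J, i ≠ j → ∀ x y, g i (Sum.inr x) ≠ g j (Sum.inr y))
    (hS : ∀ i ∈ J, (∃ x, g i (Sum.inr x) ∈ S) ∧ ((∃ x, g i (Sum.inr x) ∉ S) ∨ ∃ x, a x ∉ S)) :
    dl E (Finset.univ.image a ∪ J.biUnion (fun i => Finset.univ.image (fun x => g i (Sum.inr x)))) + J.card ≤
      dl E ((Finset.univ.image a ∪ J.biUnion (fun i => Finset.univ.image (fun x => g i (Sum.inr x)))).filter
        (fun x => x ∈ S)) + ((Finset.univ.image a).filter (fun x => x ∉ S)).card := by
  obtain ⟨A0, hA0⟩ : ∃ A0 : Finset V, A0 = Finset.univ.image a := ⟨_, rfl⟩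
  obtain ⟨B, hB⟩ : ∃ B : ι → Finset V, B = fun i => Finset.univ.image (fun x => g i (Sum.inr x)) :=
    ⟨_, rfl⟩
  rw [← hA0, ← hB]
  obtain ⟨Y, hY⟩ : ∃ Y : Finset V, Y = A0 ∪ J.biUnion B := ⟨_, rfl⟩
  rw [← hY]
  obtain ⟨M, hM⟩ : ∃ M : ι → Finset (Finset V), M = fun i =>
    (T.filter (fun e => ¬ ∀ y ∈ e, g i y ∈ S)).image (fun e => e.map (g i)) := ⟨_, rfl⟩
  obtain ⟨hk, hTk, hTr, hTl, hTB⟩ := hT
  have hMcard : ∀ i ∈ J, ((B i).filter (fun x => x ∉ S)).card + 1 ≤ (M i).card := by
    intro i hi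
    have h1 : (M i).card = (T.filter (fun e => ¬ ∀ y ∈ e, g i y ∈ S)).card := by
      rw [hM]
      exact Finset.card_image_of_injective _ (Finset.map_injective (g i))
    have h2 : (T.filter (fun e => ∀ y ∈ e, g i y ∈ S)).card +
        (T.filter (fun e => ¬ ∀ y ∈ e, g i y ∈ S)).card = k := by
      rw [Finset.card_filter_add_card_filter_not, hTk]
    obtain ⟨Bs, hBs⟩ : ∃ Bs : Finset (Fin k), Bs = Finset.univ.filter
      (fun x => g i (Sum.inr x) ∈ S) := ⟨_, rfl⟩
    have h3 : Bs.card + (Finset.univ.filter (fun x : Fin k => ¬ g i (Sum.inr x) ∈ S)).card = k := by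
      rw [hBs, Finset.card_filter_add_card_filter_not, Finset.card_univ, Fintype.card_fin]
    have h4 : ((B i).filter (fun x => x ∉ S)).card ≤
        (Finset.univ.filter (fun x : Fin k => ¬ g i (Sum.inr x) ∈ S)).card := by
      rw [hB]
      simp only [Finset.filter_image]
      exact Finset.card_image_le
    by_cases hBu : Bs = Finset.univ
    · have h5 : Bs.card = k := by rw [hBu, Finset.card_univ, Fintype.card_fin]
      have h6 : 0 < (T.filter (fun e => ¬ ∀ y ∈ e, g i y ∈ S)).card := by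
        rw [Finset.card_pos]
        rcases (hS i hi).2 with ⟨x, hx⟩ | ⟨x, hx⟩
        · exfalso
          have h7 : x ∈ Bs := by rw [hBu]; exact Finset.mem_univ _
          rw [hBs, Finset.mem_filter] at h7
          exact hx h7.2
        · obtain ⟨e, he, hxe⟩ := hTl x
          refine ⟨e, Finset.mem_filter.2 ⟨he, fun hall => ?_⟩⟩
          have := hall _ hxe
          rw [ha i hi] at this
          exact hx this
      omega
    · have hne : Bs.Nonempty := by
        obtain ⟨x, hx⟩ := (hS i hi).1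
        exact ⟨x, by rw [hBs]; exact Finset.mem_filter.2 ⟨Finset.mem_univ _, hx⟩⟩
      have h5 := hTB Bs hne hBu
      have h6 : (T.filter (fun e => ∀ y ∈ e, g i y ∈ S)).card ≤
          (T.filter (fun e => ∀ j, Sum.inr j ∈ e → j ∈ Bs)).card := by
        apply Finset.card_le_card
        intro e he
        rw [Finset.mem_filter] at he ⊢
        refine ⟨he.1, fun j hj => ?_⟩
        rw [hBs]
        exact Finset.mem_filter.2 ⟨Finset.mem_univ _, he.2 _ hj⟩
      omega
  have hMd : ∀ i ∈ J, ∀ j ∈ J, i ≠ j → Disjoint (M i) (M j) := by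
    intro i hi j hj hij
    rw [Finset.disjoint_left]
    intro u hu1 hu2
    rw [hM] at hu1 hu2
    simp only [Finset.mem_image, Finset.mem_filter] at hu1 hu2
    obtain ⟨e, ⟨he, _⟩, rfl⟩ := hu1
    obtain ⟨e', ⟨he', _⟩, hee⟩ := hu2
    obtain ⟨x, hx⟩ := hTr e he
    have h1 : g i (Sum.inr x) ∈ e'.map (g j) := by
      rw [hee]
      exact Finset.mem_map_of_mem _ hx
    rw [Finset.mem_map] at h1
    obtain ⟨z, hz, hgz⟩ := h1
    rcases z with y | y
    · rw [ha j hj, ← ha i hi] at hgz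
      have := (g i).injective hgz
      exact absurd this (by simp)
    · exact hd i hi j hj hij x y hgz.symm
  obtain ⟨D, hD⟩ : ∃ D : Finset (Finset V), D = (Y.powerset.filter (fun e => e ∈ E)) \
    ((Y.filter (fun x => x ∈ S)).powerset.filter (fun e => e ∈ E)) := ⟨_, rfl⟩
  have hsub : ((Y.filter (fun x => x ∈ S)).powerset.filter (fun e => e ∈ E)) ⊆
      (Y.powerset.filter (fun e => e ∈ E)) :=
    Finset.filter_subset_filter _ (Finset.powerset_mono.2 (Finset.filter_subset _ _))
  have hDcard : D.card + en E (Y.filter (fun x => x ∈ S)) = en E Y := by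
    rw [hD]
    exact Finset.card_sdiff_add_card_eq_card hsub
  have hMD : J.biUnion M ⊆ D := by
    intro u hu
    rw [Finset.mem_biUnion] at hu
    obtain ⟨i, hi, hu⟩ := hu
    rw [hM] at hu
    simp only [Finset.mem_image, Finset.mem_filter] at hu
    obtain ⟨e, ⟨he, hne⟩, rfl⟩ := hu
    rw [hD, Finset.mem_sdiff]
    constructor
    · rw [Finset.mem_filter, Finset.mem_powerset]
      refine ⟨?_, hg i hi e he⟩
      intro v hv
      rw [Finset.mem_map] at hv
      obtain ⟨y, hy, rfl⟩ := hv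
      rw [hY, Finset.mem_union]
      rcases y with x | x
      · left
        rw [ha i hi, hA0]
        exact Finset.mem_image_of_mem _ (Finset.mem_univ _)
      · right
        rw [Finset.mem_biUnion]
        refine ⟨i, hi, ?_⟩
        rw [hB]
        exact Finset.mem_image_of_mem (fun x => g i (Sum.inr x)) (Finset.mem_univ _)
    · rw [Finset.mem_filter, Finset.mem_powerset]
      rintro ⟨h1, _⟩
      apply hne
      intro y hy
      have h2 := h1 (Finset.mem_map_of_mem (g i) hy)
      exact (Finset.mem_filter.1 h2).2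
  have hsum : ∑ i ∈ J, ((B i).filter (fun x => x ∉ S)).card + J.card ≤ D.card := by
    calc ∑ i ∈ J, ((B i).filter (fun x => x ∉ S)).card + J.card
        = ∑ i ∈ J, (((B i).filter (fun x => x ∉ S)).card + 1) := by
          rw [Finset.sum_add_distrib, Finset.sum_const, smul_eq_mul, mul_one]
      _ ≤ ∑ i ∈ J, (M i).card := Finset.sum_le_sum hMcard
      _ = (J.biUnion M).card := (Finset.card_biUnion hMd).symm
      _ ≤ D.card := Finset.card_le_card hMD
  have hYc : (Y.filter (fun x => x ∈ S)).card + (Y.filter (fun x => ¬ x ∈ S)).card = Y.card :=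
    Finset.card_filter_add_card_filter_not _
  have hYn : (Y.filter (fun x => ¬ x ∈ S)).card ≤ (A0.filter (fun x => x ∉ S)).card +
      ∑ i ∈ J, ((B i).filter (fun x => x ∉ S)).card := by
    rw [hY, Finset.filter_union]
    refine (Finset.card_union_le _ _).trans ?_
    refine Nat.add_le_add_left ?_ _
    rw [Finset.filter_biUnion]
    exact Finset.card_biUnion_le
  have hfin : Y.card + en E (Y.filter (fun x => x ∈ S)) + J.card ≤
      (Y.filter (fun x => x ∈ S)).card + en E Y + (A0.filter (fun x => x ∉ S)).card := by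
    omega
  unfold dl
  have h9 : ((Y.card : ℤ) + (en E (Y.filter (fun x => x ∈ S)) : ℤ) + (J.card : ℤ)) ≤
      ((Y.filter (fun x => x ∈ S)).card : ℤ) + (en E Y : ℤ) +
        ((A0.filter (fun x => x ∉ S)).card : ℤ) := by exact_mod_cast hfin
  linarith

theorem count_strong {V : Type} {E : Set (Finset V)} {S : Set V} (hS : Str E S) {n k : ℕ}
    {T : Finset (Finset (Fin n ⊕ Fin k))} (hT : TGood n k T) {ι : Type} (J : Finset ι)
    (g : ι → (Fin n ⊕ Fin k ↪ V)) (a : Fin n → V)
    (ha : ∀ i ∈ J, ∀ x, g i (Sum.inl x) = a x) (hg : ∀ i ∈ J, ∀ e ∈ T, e.map (g i) ∈ E)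
    (hd : ∀ i ∈ J, ∀ j ∈ J, i ≠ j → ∀ x y, g i (Sum.inr x) ≠ g j (Sum.inr y))
    (hJ : ∀ i ∈ J, (∃ x, g i (Sum.inr x) ∈ S) ∧ ((∃ x, g i (Sum.inr x) ∉ S) ∨ ∃ x, a x ∉ S)) :
    J.card ≤ ((Finset.univ.image a).filter (fun x => x ∉ S)).card := by
  have h1 := count_lemma E S hT J g a ha hg hd hJ
  have h2 := hS (Finset.univ.image a ∪ J.biUnion (fun i => Finset.univ.image
    (fun x => g i (Sum.inr x))))
  have h3 : (J.card : ℤ) ≤ (((Finset.univ.image a).filter (fun x => x ∉ S)).card : ℤ) := by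
    linarith
  exact_mod_cast h3

end Pool.Agent.Helper180.SMin
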