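import Mathlib
import Pool.Agent.Helper180.SMin.Base
import Pool.Agent.Helper180.SMin.JBasic

set_option autoImplicit false
open FirstOrder FirstOrder.Language
open scoped FirstOrder

namespace Pool.Agent.Helper180.SMin
open scoped Classical


theorem dem_dl {V : Type} {S : Set V} {E : Set (Finset V)} (hE : On S E) {B : Finset V} {F : Finset (Finset V)}
    (hF : Dem S B F) (Y : Finset V) :
    dl (E ∪ (↑F : Set (Finset V))) Y =
      dl E (Y.filter (fun x => x ∈ S)) + (Y.filter (fun x => x ∉ S)).card - (F.filter (fun e => e ⊆ Y)).card := by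
  rw [← dl_off hE Y]
  have h1 : en (E ∪ (↑F : Set (Finset V))) Y = en E Y + (F.filter (fun e => e ⊆ Y)).card := by
    unfold en
    rw [← Finset.card_union_of_disjoint]
    · congr 1
      ext e
      simp only [Finset.mem_filter, Finset.mem_powerset, Finset.mem_union, Set.mem_union, Finset.mem_coe]
      tauto
    · rw [Finset.disjoint_left]
      intro e h2 h3
      rw [Finset.mem_filter] at h2 h3
      obtain ⟨x, hx, hxB⟩ := hF.2.2.1 e h3.1
      exact hF.2.1 x hxB (hE e h2.2 x hx)
  unfold dl
  rw [h1]
  push_cast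
  ring

theorem dem_old {V : Type} {S : Set V} {E : Set (Finset V)} {B : Finset V} {F : Finset (Finset V)}
    (hF : Dem S B F) (e : Finset V) (he : ∀ x ∈ e, x ∈ S) :
    e ∈ E ∪ (↑F : Set (Finset V)) ↔ e ∈ E := by
  constructor
  · rintro (h | h)
    · exact h
    · exfalso
      obtain ⟨x, hx, hxB⟩ := hF.2.2.1 e (Finset.mem_coe.mp h)
      exact hF.2.1 x hxB (he x hx)
  · exact fun h => Or.inl h

theorem dem_str {V : Type} {S : Set V} {E : Set (Finset V)} (hE : On S E) {B : Finset V} {F : Finset (Finset V)}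
    (hF : Dem S B F) : Str (E ∪ (↑F : Set (Finset V))) S := by
  intro Y
  have h0 : dl (E ∪ (↑F : Set (Finset V))) (Y.filter (fun x => x ∈ S)) = dl E (Y.filter (fun x => x ∈ S)) := by
    apply dl_congr
    intro e he
    apply dem_old hF
    intro x hx
    exact (Finset.mem_filter.mp (he hx)).2
  rw [h0, dem_dl hE hF Y]
  have h1 : (F.filter (fun e => e ⊆ Y)).card ≤ (Y.filter (fun x => x ∉ S)).card := by
    set B' := B.filter (fun x => x ∈ Y) with hB'
    have h2 : B' ⊆ Y.filter (fun x => x ∉ S) := by
      intro x hx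
      rw [hB', Finset.mem_filter] at hx
      rw [Finset.mem_filter]
      exact ⟨hx.2, hF.2.1 x hx.1⟩
    have h3 := Finset.card_le_card h2
    refine le_trans ?_ h3
    by_cases h4 : B' = B
    · rw [h4, ← hF.2.2.2.2.1]
      exact Finset.card_filter_le _ _
    · by_cases h5 : B'.Nonempty
      · have h6 := hF.2.2.2.2.2 B' (Finset.filter_subset _ _) h5 h4
        refine le_trans (Finset.card_le_card ?_) h6.le
        intro e he
        rw [Finset.mem_filter] at he ⊢
        refine ⟨he.1, fun x hx hxB => ?_⟩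
        rw [hB', Finset.mem_filter]
        exact ⟨hxB, he.2 hx⟩
      · have h7 : F.filter (fun e => e ⊆ Y) = ∅ := by
          rw [Finset.filter_eq_empty_iff]
          intro e he heY
          obtain ⟨x, hx, hxB⟩ := hF.2.2.1 e he
          exact h5 ⟨x, by rw [hB', Finset.mem_filter]; exact ⟨hxB, heY hx⟩⟩
        rw [h7]
        simp
  have h2 : ((F.filter (fun e => e ⊆ Y)).card : ℤ) ≤ ((Y.filter (fun x => x ∉ S)).card : ℤ) := by
    exact_mod_cast h1
  linarith

end Pool.Agent.Helper180.SMin
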