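import Mathlib
import Pool.Agent.Helper180.SMin.Base
import Pool.Agent.Helper180.SMin.JBasic
import Pool.Agent.Helper180.SMin.JComap
import Pool.Agent.Helper180.SMin.JCount
import Pool.Agent.Helper180.SMin.JDem

set_option autoImplicit false
open FirstOrder FirstOrder.Language
open scoped FirstOrder

namespace Pool.Agent.Helper180.SMin
open scoped Classical


theorem amalg_pair {V : Type} {S : Set V} {E : Set (Finset V)} (hS : On S E) (hE : Good E) {x b : V} (hx : x ∈ S)
    (hb : b ∉ S) (h : ∀ y, ({x, y} : Finset V) ∈ E → ({x, y} : Finset V).card ≠ 2) :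
    Good (E ∪ (↑({({x, b} : Finset V)} : Finset (Finset V)) : Set (Finset V))) := by
  have hbx : x ≠ b := fun h => hb (h ▸ hx)
  have hcard2 : ({x, b} : Finset V).card = 2 := Finset.card_pair hbx
  have hDem : Dem S {b} ({({x, b} : Finset V)} : Finset (Finset V)) := by
    refine ⟨⟨b, Finset.mem_singleton_self b⟩, ?_, ?_, ?_, ?_, ?_⟩
    · intro z hz
      rw [Finset.mem_singleton.1 hz]
      exact hb
    · intro e he
      rw [Finset.mem_singleton.1 he]
      exact ⟨b, by simp, by simp⟩
    · intro e he z hz
      rw [Finset.mem_singleton.1 he] at hz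
      rcases Finset.mem_insert.1 hz with rfl | hz
      · exact Or.inl hx
      · exact Or.inr hz
    · rw [Finset.card_singleton, Finset.card_singleton]
    · intro B' hB' hne hneq
      exfalso
      apply hneq
      rcases Finset.subset_singleton_iff.1 hB' with h1 | h1
      · rw [h1] at hne
        exact absurd hne Finset.not_nonempty_empty
      · exact h1
  have hStr := dem_str hS hDem
  have hE1 : ∀ e, e ∈ (E ∪ (↑({({x, b} : Finset V)} : Finset (Finset V)) : Set (Finset V))) →
      e ∈ E ∨ e = {x, b} := by
    intro e he
    rcases he with he | he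
    · exact Or.inl he
    · rw [Finset.mem_coe] at he
      exact Or.inr (Finset.mem_singleton.1 he)
  have hnew : ∀ e, e ∈ (E ∪ (↑({({x, b} : Finset V)} : Finset (Finset V)) : Set (Finset V))) →
      ∀ z ∈ e, z ∉ S → e = {x, b} ∧ z = b := by
    intro e he z hz hzS
    rcases hE1 e he with h1 | h1
    · exact absurd (hS e h1 z hz) hzS
    · refine ⟨h1, ?_⟩
      rw [h1] at hz
      rcases Finset.mem_insert.1 hz with h2 | h2
      · rw [h2] at hzS
        exact absurd hx hzS
      · exact Finset.mem_singleton.1 h2
  refine ⟨?_, ?_, ?_, ?_⟩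
  · intro e he
    rcases hE1 e he with h1 | h1
    · exact hE.card e h1
    · left
      rw [h1]
      exact hcard2
  · intro e he f hf he2 hf3 hef
    rcases hE1 f hf with h1 | h1
    · rcases hE1 e he with h2 | h2
      · exact hE.excl e h2 f h1 he2 hf3 hef
      · apply hb
        apply hS f h1 b
        apply hef
        rw [h2]
        simp
    · rw [h1, hcard2] at hf3
      norm_num at hf3
  · intro Y
    refine le_trans ?_ (hStr Y)
    have h1 : dl (E ∪ (↑({({x, b} : Finset V)} : Finset (Finset V)) : Set (Finset V)))
        (Y.filter (fun z => z ∈ S)) = dl E (Y.filter (fun z => z ∈ S)) := by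
      apply dl_congr
      intro e he
      apply dem_old hDem
      intro z hz
      exact (Finset.mem_filter.1 (he hz)).2
    rw [h1]
    exact hE.nonneg _
  · intro n k T hT g hg hbase
    by_contra hcon
    push Not at hcon
    have hTn : T.Nonempty := by
      rw [← Finset.card_pos, hT.2.1]
      exact hT.1
    -- the points of a copy that lie outside
    have hK : ∀ i, ∀ e ∈ T, ∀ z ∈ e, g i z ∉ S → e.map (g i) = {x, b} ∧ g i z = b := by
      intro i e he z hz hzS
      exact hnew _ (hg i e he) (g i z) (Finset.mem_map_of_mem _ hz) hzS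
    by_cases hI : ∃ x0, g 0 (Sum.inl x0) ∉ S
    · obtain ⟨x0, hx0⟩ := hI
      obtain ⟨e0, he0, hxe0⟩ := hT.2.2.2.1 x0
      have hb0 := (hK 0 e0 he0 _ hxe0 hx0).2
      have hc := count_strong hStr hT (Finset.univ.filter (fun i => ∃ j, g i (Sum.inr j) ∈ S)) g
        (fun y => g 0 (Sum.inl y)) (fun i _ y => hbase i 0 y) (fun i _ e he => hg i e he)
        (fun i _ j _ hij y z => hcon i j hij y z)
        (fun i hi => ⟨(Finset.mem_filter.1 hi).2, Or.inr ⟨x0, hx0⟩⟩)
      have hc2 : ((Finset.univ.image (fun y => g 0 (Sum.inl y))).filter (fun z => z ∉ S)).card ≤ n := by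
        refine (Finset.card_filter_le _ _).trans ?_
        refine Finset.card_image_le.trans ?_
        rw [Finset.card_univ, Fintype.card_fin]
      have hc3 : ∃ i : Fin (n + 1), i ∉ Finset.univ.filter (fun i => ∃ j, g i (Sum.inr j) ∈ S) := by
        by_contra hall
        push Not at hall
        have h1 : Finset.univ.filter (fun i => ∃ j, g i (Sum.inr j) ∈ S) = Finset.univ :=
          Finset.eq_univ_iff_forall.2 hall
        rw [h1, Finset.card_univ, Fintype.card_fin] at hc
        omega
      obtain ⟨i, hi⟩ := hc3
      simp only [Finset.mem_filter, Finset.mem_univ, true_and, not_exists] at hi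
      obtain ⟨e, he⟩ := hTn
      obtain ⟨j, hj⟩ := hT.2.2.1 e he
      have h1 := (hK i e he _ hj (hi j)).2
      have h2 : g i (Sum.inl x0) = b := by rw [hbase i 0 x0]; exact hb0
      have h3 := (g i).injective (h1.trans h2.symm)
      exact absurd h3 (by simp)
    · push Not at hI
      have hbS : ∀ i y, g i (Sum.inl y) ∈ S := by
        intro i y
        rw [hbase i 0 y]
        exact hI y
      have hc := count_strong hStr hT (Finset.univ.filter (fun i => (∃ j, g i (Sum.inr j) ∈ S) ∧
          ∃ j, g i (Sum.inr j) ∉ S)) g
        (fun y => g 0 (Sum.inl y)) (fun i _ y => hbase i 0 y) (fun i _ e he => hg i e he)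
        (fun i _ j _ hij y z => hcon i j hij y z)
        (fun i hi => ⟨(Finset.mem_filter.1 hi).2.1, Or.inl (Finset.mem_filter.1 hi).2.2⟩)
      have hc2 : (Finset.univ.image (fun y => g 0 (Sum.inl y))).filter (fun z => z ∉ S) = ∅ := by
        rw [Finset.filter_eq_empty_iff]
        intro z hz
        obtain ⟨y, -, rfl⟩ := Finset.mem_image.1 hz
        exact not_not.2 (hI y)
      rw [hc2, Finset.card_empty, Nat.le_zero, Finset.card_eq_zero, Finset.filter_eq_empty_iff] at hc
      have hdich : ∀ i, (∃ j, g i (Sum.inr j) ∉ S) → ∀ j, g i (Sum.inr j) ∉ S := by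
        intro i hi j hj
        exact hc (Finset.mem_univ i) ⟨⟨j, hj⟩, hi⟩
      by_cases hall : ∀ i j, g i (Sum.inr j) ∈ S
      · obtain ⟨i, j, hij, y, z, hyz⟩ := hE.bound n k T hT g (by
          intro i e he
          have h1 := hg i e he
          rw [dem_old hDem] at h1
          · exact h1
          · intro z hz
            obtain ⟨w, -, rfl⟩ := Finset.mem_map.1 hz
            rcases w with w | w
            · exact hbS i w
            · exact hall i w) hbase
        exact hcon i j hij y z hyz
      · push Not at hall
        obtain ⟨i0, j0, hj0⟩ := hall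
        have hi0 := hdich i0 ⟨j0, hj0⟩
        have hT1 : ∀ e ∈ T, e.map (g i0) = {x, b} := by
          intro e he
          obtain ⟨j, hj⟩ := hT.2.2.1 e he
          exact (hK i0 e he _ hj (hi0 j)).1
        obtain ⟨t, ht⟩ := hTn
        have hTt : ∀ e ∈ T, e = t := by
          intro e he
          exact Finset.map_injective (g i0) ((hT1 e he).trans (hT1 t ht).symm)
        have hTcard : T.card = 1 := by
          rw [Finset.card_eq_one]
          exact ⟨t, Finset.eq_singleton_iff_unique_mem.2 ⟨ht, hTt⟩⟩
        have htc : t.card = 2 := by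
          rw [← Finset.card_map (g i0), hT1 t ht]
          exact hcard2
        obtain ⟨j1, hj1⟩ := hT.2.2.1 t ht
        have hb1 := (hK i0 t ht _ hj1 (hi0 j1)).2
        have hxm : x ∈ t.map (g i0) := by rw [hT1 t ht]; simp
        obtain ⟨w, hw, hwx⟩ := Finset.mem_map.1 hxm
        rcases w with y0 | j2
        swap
        · exact absurd (hwx ▸ hx) (hi0 j2)
        have hn : 0 < n := Fin.pos y0
        obtain ⟨i1, hi1⟩ : ∃ i1 : Fin (n + 1), i1 ≠ i0 := by
          have : Nontrivial (Fin (n + 1)) := Fin.nontrivial_iff_two_le.2 (by omega)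
          exact exists_ne i0
        have hy' : ∀ j, g i1 (Sum.inr j) ∈ S := by
          intro j
          by_contra hjS
          have h1 := hdich i1 ⟨j, hjS⟩
          have h2 := (hK i1 t ht _ hj1 (h1 j1)).2
          exact hcon i1 i0 hi1 j1 j1 (h2.trans hb1.symm)
        have hmap : t.map (g i1) ∈ E := by
          have h1 := hg i1 t ht
          rw [dem_old hDem] at h1
          · exact h1
          · intro z hz
            obtain ⟨w, -, rfl⟩ := Finset.mem_map.1 hz
            rcases w with w | w
            · exact hbS i1 w
            · exact hy' w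
        have hx1 : g i1 (Sum.inl y0) = x := by
          rw [hbase i1 i0 y0]
          exact hwx
        have hxy : x ≠ g i1 (Sum.inr j1) := by
          intro h1
          rw [← hx1] at h1
          exact absurd ((g i1).injective h1) (by simp)
        have heq : ({x, g i1 (Sum.inr j1)} : Finset V) = t.map (g i1) := by
          apply Finset.eq_of_subset_of_card_le
          · intro z hz
            rcases Finset.mem_insert.1 hz with h1 | h1
            · rw [h1, ← hx1]
              exact Finset.mem_map_of_mem _ hw
            · rw [Finset.mem_singleton.1 h1]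
              exact Finset.mem_map_of_mem _ hj1
          · rw [Finset.card_map, htc, Finset.card_pair hxy]
        exact h (g i1 (Sum.inr j1)) (heq ▸ hmap) (Finset.card_pair hxy)

end Pool.Agent.Helper180.SMin
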