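import Mathlib
import Pool.Agent.Helper180.SMin.Base
import Pool.Agent.Helper180.SMin.JBasic
import Pool.Agent.Helper180.SMin.JComap
import Pool.Agent.Helper180.SMin.JCount
import Pool.Agent.Helper180.SMin.JDem

set_option autoImplicit false
open FirstOrder FirstOrder.Language
open scoped FirstOrder

namespace Pool.Agent.Helper180.SMin
open scoped Classical


theorem amalg_triple {V : Type} {S : Set V} {E : Set (Finset V)} (hS : On S E) (hE : Good E) {x y b : V} (hx : x ∈ S)
    (hy : y ∈ S) (hxy : x ≠ y) (hb : b ∉ S) (h2 : ({x, y} : Finset V) ∉ E)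
    (h : ∀ z, ({x, y, z} : Finset V).card = 3 → ({x, y, z} : Finset V) ∉ E) :
    Good (E ∪ (↑({({x, y, b} : Finset V)} : Finset (Finset V)) : Set (Finset V))) := by
  have hxb : x ≠ b := fun h => hb (h ▸ hx)
  have hyb : y ≠ b := fun h => hb (h ▸ hy)
  have hcard3 : ({x, y, b} : Finset V).card = 3 := by
    rw [Finset.card_insert_of_notMem (by simp [hxy, hxb]), Finset.card_insert_of_notMem (by simp [hyb]),
      Finset.card_singleton]
  have hDem : Dem S {b} ({({x, y, b} : Finset V)} : Finset (Finset V)) := by
    refine ⟨Finset.singleton_nonempty b, ?_, ?_, ?_, ?_, ?_⟩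
    · intro z hz
      rw [Finset.mem_singleton] at hz
      rwa [hz]
    · intro e he
      rw [Finset.mem_singleton] at he
      subst he
      exact ⟨b, by simp, by simp⟩
    · intro e he z hz
      rw [Finset.mem_singleton] at he
      subst he
      simp only [Finset.mem_insert, Finset.mem_singleton] at hz
      rcases hz with rfl | rfl | rfl
      · exact Or.inl hx
      · exact Or.inl hy
      · exact Or.inr (by simp)
    · simp
    · intro B' hB' hne hne'
      rcases Finset.subset_singleton_iff.1 hB' with h0 | h0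
      · exact absurd h0 hne.ne_empty
      · exact absurd h0 hne'
  set F : Finset (Finset V) := {({x, y, b} : Finset V)} with hF
  have hstr : Str (E ∪ (↑F : Set (Finset V))) S := dem_str hS hDem
  have hold : ∀ e : Finset V, (∀ z ∈ e, z ∈ S) → (e ∈ E ∪ (↑F : Set (Finset V)) ↔ e ∈ E) := fun e he => dem_old hDem e he
  have hnew : ∀ e ∈ E ∪ (↑F : Set (Finset V)), (∃ z ∈ e, z ∉ S) → e = {x, y, b} := by
    intro e he hz
    rcases he with he | he
    · obtain ⟨z, hz, hzS⟩ := hz
      exact absurd (hS e he z hz) hzS
    · rw [hF, Finset.coe_singleton] at he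
      exact he
  have hmem : ∀ z ∈ ({x, y, b} : Finset V), z ∉ S → z = b := by
    intro z hz hzS
    simp only [Finset.mem_insert, Finset.mem_singleton] at hz
    rcases hz with rfl | rfl | rfl
    · exact absurd hx hzS
    · exact absurd hy hzS
    · rfl
  refine ⟨?_, ?_, ?_, ?_⟩
  · rintro e (he | he)
    · exact hE.card e he
    · rw [hF, Finset.coe_singleton] at he
      right
      rw [he]; exact hcard3
  · intro e he f hf he2 hf3 hef
    have heE : e ∈ E := by
      rcases he with he | he
      · exact he
      · rw [hF, Finset.coe_singleton] at he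
        rw [he, hcard3] at he2
        omega
    rcases hf with hf | hf
    · exact hE.excl e heE f hf he2 hf3 hef
    · rw [hF, Finset.coe_singleton] at hf
      have hf' : f = {x, y, b} := hf
      rw [hf'] at hef
      have hsub : e ⊆ {x, y} := by
        intro z hz
        have h1 := hef hz
        have h3 := hS e heE z hz
        simp only [Finset.mem_insert, Finset.mem_singleton] at h1 ⊢
        rcases h1 with h1 | h1 | h1
        · exact Or.inl h1
        · exact Or.inr h1
        · exact absurd (h1 ▸ h3) hb
      have : e = {x, y} := Finset.eq_of_subset_of_card_le hsub (by rw [he2]; exact Finset.card_le_two)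
      exact h2 (this ▸ heE)
  · intro X
    refine le_trans ?_ (hstr X)
    have : dl (E ∪ (↑F : Set (Finset V))) (X.filter (fun x => x ∈ S)) = dl E (X.filter (fun x => x ∈ S)) := by
      refine dl_congr fun e he => hold e fun z hz => ?_
      exact (Finset.mem_filter.1 (he hz)).2
    rw [this]
    exact hE.nonneg _
  · intro n k T hT g hg hbase
    by_contra hcon
    push Not at hcon
    obtain ⟨hk, hTk, hTr, hTl, hTm⟩ := id hT
    have hTne : T.Nonempty := by
      rw [← Finset.card_pos, hTk]; exact hk
    obtain ⟨t, ht⟩ := hTne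
    -- (I) all base points are in S
    have hbS : ∀ x0, g 0 (Sum.inl x0) ∈ S := by
      intro x0
      by_contra hx0
      obtain ⟨e0, he0, hxe0⟩ := hTl x0
      have e1 := hnew _ (hg 0 e0 he0) ⟨g 0 (Sum.inl x0), Finset.mem_map_of_mem _ hxe0, hx0⟩
      have e2 : g 0 (Sum.inl x0) = b := hmem _ (e1 ▸ Finset.mem_map_of_mem _ hxe0) hx0
      have hJ := count_strong hstr hT (Finset.univ.filter (fun i => ∃ j, g i (Sum.inr j) ∈ S)) g
        (fun x => g 0 (Sum.inl x)) (fun i _ x => hbase i 0 x) (fun i _ => hg i)
        (fun i _ j _ hij => hcon i j hij) (fun i hi => ⟨(Finset.mem_filter.1 hi).2, Or.inr ⟨x0, hx0⟩⟩)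
      have hle : (Finset.univ.filter (fun i => ∃ j, g i (Sum.inr j) ∈ S)).card ≤ n := by
        refine hJ.trans ((Finset.card_filter_le _ _).trans ?_)
        refine Finset.card_image_le.trans ?_
        simp
      obtain ⟨i, hi⟩ : ∃ i, i ∉ Finset.univ.filter (fun i => ∃ j, g i (Sum.inr j) ∈ S) := by
        by_contra hall
        push Not at hall
        have : (Finset.univ.filter (fun i => ∃ j, g i (Sum.inr j) ∈ S)) = Finset.univ := by
          ext i; exact ⟨fun _ => Finset.mem_univ _, fun _ => hall i⟩
        rw [this, Finset.card_univ, Fintype.card_fin] at hle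
        omega
      have hi' : ∀ j, g i (Sum.inr j) ∉ S := by
        intro j hj
        exact hi (Finset.mem_filter.2 ⟨Finset.mem_univ _, j, hj⟩)
      obtain ⟨j, hj⟩ := hTr t ht
      have e3 := hnew _ (hg i t ht) ⟨g i (Sum.inr j), Finset.mem_map_of_mem _ hj, hi' j⟩
      have e4 : g i (Sum.inr j) = b := hmem _ (e3 ▸ Finset.mem_map_of_mem _ hj) (hi' j)
      have e5 : g i (Sum.inl x0) = g i (Sum.inr j) := by rw [hbase i 0 x0, e2, e4]
      exact absurd ((g i).injective e5) (by simp)
    have hbS' : ∀ i x0, g i (Sum.inl x0) ∈ S := fun i x0 => by rw [hbase i 0 x0]; exact hbS x0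
    -- (II)
    have hJ0 : ∀ i, (∃ j, g i (Sum.inr j) ∈ S) → ∀ j, g i (Sum.inr j) ∈ S := by
      intro i hi j
      by_contra hj
      have hJ := count_strong hstr hT {i} g
        (fun x => g 0 (Sum.inl x)) (fun i _ x => hbase i 0 x) (fun i _ => hg i)
        (fun i _ j _ hij => hcon i j hij) (fun i' hi' => by
          rw [Finset.mem_singleton] at hi'
          subst hi'
          exact ⟨hi, Or.inl ⟨j, hj⟩⟩)
      rw [Finset.card_singleton] at hJ
      have : (Finset.univ.image (fun x => g 0 (Sum.inl x))).filter (fun x => x ∉ S) = ∅ := by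
        rw [Finset.filter_eq_empty_iff]
        intro z hz
        obtain ⟨x0, -, rfl⟩ := Finset.mem_image.1 hz
        exact fun h => h (hbS x0)
      rw [this] at hJ
      simp at hJ
    by_cases hall : ∀ i j, g i (Sum.inr j) ∈ S
    · obtain ⟨i, j, hij, x', y', hxy'⟩ := hE.bound n k T hT g (fun i e he => by
        refine (hold _ ?_).1 (hg i e he)
        intro z hz
        obtain ⟨s, -, rfl⟩ := Finset.mem_map.1 hz
        rcases s with s | s
        · exact hbS' i s
        · exact hall i s) hbase
      exact hcon i j hij x' y' hxy'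
    · push Not at hall
      obtain ⟨i0, j0, hj0⟩ := hall
      have hi0 : ∀ j, g i0 (Sum.inr j) ∉ S := fun j hj => hj0 (hJ0 i0 ⟨j, hj⟩ j0)
      have hTe : ∀ e ∈ T, e.map (g i0) = {x, y, b} := by
        intro e he
        obtain ⟨j, hj⟩ := hTr e he
        exact hnew _ (hg i0 e he) ⟨_, Finset.mem_map_of_mem _ hj, hi0 j⟩
      have hT1 : ∀ e ∈ T, e = t := by
        intro e he
        exact Finset.map_injective (g i0) ((hTe e he).trans (hTe t ht).symm)
      have hk1 : k = 1 := by
        have : T.card ≤ 1 := Finset.card_le_one.2 fun a ha c hc => (hT1 a ha).trans (hT1 c hc).symm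
        omega
      subst hk1
      have htl : ∀ i, Sum.inl i ∈ t := by
        intro i
        obtain ⟨e, he, hie⟩ := hTl i
        rwa [hT1 e he] at hie
      have htr : Sum.inr 0 ∈ t := by
        obtain ⟨j, hj⟩ := hTr t ht
        rwa [Subsingleton.elim j 0] at hj
      have ht3 : t.card = 3 := by
        rw [← Finset.card_map (g i0), hTe t ht, hcard3]
      have hlift : ∀ z ∈ ({x, y, b} : Finset V), z ∈ S → ∃ i, g i0 (Sum.inl i) = z := by
        intro z hz hzS
        rw [← hTe t ht] at hz
        obtain ⟨s, -, hs⟩ := Finset.mem_map.1 hz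
        rcases s with s | s
        · exact ⟨s, hs⟩
        · rw [← hs] at hzS
          exact absurd hzS (hi0 s)
      obtain ⟨ix, hix⟩ := hlift x (by simp) hx
      obtain ⟨iy, hiy⟩ := hlift y (by simp) hy
      have hb0 : g i0 (Sum.inr 0) = b := hmem _ (by
        rw [← hTe t ht]; exact Finset.mem_map_of_mem _ htr) (hi0 0)
      have hn : 0 < n := Fin.pos ix
      haveI : Nontrivial (Fin (n + 1)) := Fin.nontrivial_iff_two_le.2 (by omega)
      obtain ⟨i1, hi1⟩ := exists_ne i0
      have hzb : g i1 (Sum.inr 0) ≠ b := by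
        rw [← hb0]
        exact hcon i1 i0 hi1 0 0
      have hzS : g i1 (Sum.inr 0) ∈ S := by
        by_contra hz
        have e1 := hnew _ (hg i1 t ht) ⟨_, Finset.mem_map_of_mem _ htr, hz⟩
        exact hzb (hmem _ (e1 ▸ Finset.mem_map_of_mem _ htr) hz)
      have hx1 : g i1 (Sum.inl ix) = x := by rw [hbase i1 i0, hix]
      have hy1 : g i1 (Sum.inl iy) = y := by rw [hbase i1 i0, hiy]
      have hxz : x ≠ g i1 (Sum.inr 0) := by
        intro h
        rw [← hx1] at h
        exact absurd ((g i1).injective h) (by simp)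
      have hyz : y ≠ g i1 (Sum.inr 0) := by
        intro h
        rw [← hy1] at h
        exact absurd ((g i1).injective h) (by simp)
      have hc3 : ({x, y, g i1 (Sum.inr 0)} : Finset V).card = 3 := by
        rw [Finset.card_insert_of_notMem (by simp [hxy, hxz]), Finset.card_insert_of_notMem (by simp [hyz]),
          Finset.card_singleton]
      have hsub : ({x, y, g i1 (Sum.inr 0)} : Finset V) ⊆ t.map (g i1) := by
        intro z hz
        simp only [Finset.mem_insert, Finset.mem_singleton] at hz
        rcases hz with rfl | rfl | rfl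
        · rw [← hx1]; exact Finset.mem_map_of_mem _ (htl ix)
        · rw [← hy1]; exact Finset.mem_map_of_mem _ (htl iy)
        · exact Finset.mem_map_of_mem _ htr
      have heq : ({x, y, g i1 (Sum.inr 0)} : Finset V) = t.map (g i1) :=
        Finset.eq_of_subset_of_card_le hsub (by rw [Finset.card_map, ht3, hc3])
      refine h _ hc3 ?_
      rw [heq]
      refine (hold _ ?_).1 (hg i1 t ht)
      intro z hz
      obtain ⟨s, -, rfl⟩ := Finset.mem_map.1 hz
      rcases s with s | s
      · exact hbS' i1 s
      · rw [Subsingleton.elim s 0]; exact hzS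

end Pool.Agent.Helper180.SMin
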