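import Mathlib
import Pool.Agent.Helper180.SMin.Base

set_option autoImplicit false
open FirstOrder FirstOrder.Language
open scoped FirstOrder

namespace Pool.Agent.Helper180.SMin
open scoped Classical


theorem ud_imp {α : Type} {P Q : ∀ (N : Type) [Lg.Structure N], (α → N) → Prop} (hP : UD P) (hQ : UD Q) :
    UD (fun N _ v => P N v → Q N v) := by
  obtain ⟨φ, hφ⟩ := hP
  obtain ⟨ψ, hψ⟩ := hQ
  refine ⟨φ.imp ψ, fun N _ v => ?_⟩
  show (φ.imp ψ).Realize v ↔ (P N v → Q N v)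
  rw [← hφ N v, ← hψ N v]
  exact Formula.realize_imp

theorem ud_exists {α β : Type} [Finite β] {P : ∀ (N : Type) [Lg.Structure N], (α ⊕ β → N) → Prop} (hP : UD P) :
    UD (fun N _ v => ∃ w : β → N, P N (Sum.elim v w)) := by
  obtain ⟨φ, hφ⟩ := hP
  refine ⟨φ.iExs β, fun N _ v => ?_⟩
  rw [Formula.realize_iExs]
  exact exists_congr fun w => hφ N _

theorem ud_forall {α β : Type} [Finite β] {P : ∀ (N : Type) [Lg.Structure N], (α ⊕ β → N) → Prop} (hP : UD P) :
    UD (fun N _ v => ∀ w : β → N, P N (Sum.elim v w)) := by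
  obtain ⟨φ, hφ⟩ := hP
  refine ⟨φ.iAlls β, fun N _ v => ?_⟩
  rw [Formula.realize_iAlls]
  exact forall_congr' fun w => hφ N _

theorem ud_transfer {N N' : Type} [Lg.Structure N] [Lg.Structure N']
    (h : ∀ σ : Lg.Sentence, N ⊨ σ → N' ⊨ σ) {α : Type} [Finite α]
    {P : ∀ (N : Type) [Lg.Structure N], (α → N) → Prop} (hP : UD P) (hN : ∀ v : α → N, P N v) (v : α → N') :
    P N' v := by
  obtain ⟨φ, hφ⟩ := hP
  let ψ : Lg.Formula (Empty ⊕ α) := φ.relabel Sum.inr
  let σ : Lg.Sentence := ψ.iAlls α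
  have key : ∀ (M : Type) [Lg.Structure M], M ⊨ σ ↔ ∀ v : α → M, P M v := by
    intro M _
    have h1 : M ⊨ σ ↔ ∀ i : α → M, ψ.Realize (fun a => Sum.elim (default : Empty → M) i a) :=
      Formula.realize_iAlls
    rw [h1]
    refine forall_congr' fun w => ?_
    rw [← hφ M w]
    exact Formula.realize_relabel
  exact (key N').1 (h σ ((key N).2 hN)) v

end Pool.Agent.Helper180.SMin
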