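import Mathlib
import Pool.Agent.Helper180.SMin.Base
import Pool.Agent.Helper180.SMin.JBasic

set_option autoImplicit false
open FirstOrder FirstOrder.Language
open scoped FirstOrder

namespace Pool.Agent.Helper180.SMin
open scoped Classical


/-- the pattern of a tuple -/
def pat {α N : Type} [Lg.Structure N] (v : α → N) :
    (α → α → Prop) × (α → α → α → Prop) × (α → α → Prop) :=
  (fun i j => v i = v j, fun i j k => RR N (v i) (v j) (v k), fun i j => ∀ z, ¬ RR N (v i) (v j) z)

theorem pe_of_pat {α N N' : Type} [Lg.Structure N] [Lg.Structure N'] {v : α → N} {v' : α → N'}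
    (h : pat v = pat v') : PE v v' := by
  unfold pat at h
  rw [Prod.mk.injEq, Prod.mk.injEq] at h
  obtain ⟨h1, h2, h3⟩ := h
  refine ⟨fun i j => ?_, fun i j k => ?_, fun i j => ?_⟩
  · exact iff_of_eq (congrFun (congrFun h1 i) j)
  · exact iff_of_eq (congrFun (congrFun (congrFun h2 i) j) k)
  · exact iff_of_eq (congrFun (congrFun h3 i) j)

/-- literal -/
noncomputable def lit {α : Type} (p : Prop) (φ : Lg.Formula α) : Lg.Formula α :=
  if p then φ else φ.not

theorem lit_realize {α N : Type} [Lg.Structure N] (v : α → N) (p : Prop) (φ : Lg.Formula α) :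
    (lit p φ).Realize v ↔ (φ.Realize v ↔ p) := by
  unfold lit
  by_cases hp : p
  · simp [hp]
  · simp [hp, Formula.realize_not]

noncomputable def fEq {α : Type} (i j : α) : Lg.Formula α :=
  Term.equal (Term.var i) (Term.var j)

noncomputable def fR {α : Type} (i j k : α) : Lg.Formula α :=
  Relations.formula (L := Lg) (n := 3) TRel.R ![Term.var i, Term.var j, Term.var k]

theorem fEq_realize {α N : Type} [Lg.Structure N] (v : α → N) (i j : α) :
    (fEq i j).Realize v ↔ v i = v j := by
  unfold fEq
  simp [Formula.realize_equal]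

theorem fR_realize {α N : Type} [Lg.Structure N] (v : α → N) (i j k : α) :
    (fR i j k).Realize v ↔ RR N (v i) (v j) (v k) := by
  have : (fun t => Term.realize v ((![Term.var i, Term.var j, Term.var k] : Fin 3 → Lg.Term α) t)) =
      ![v i, v j, v k] := by
    funext t
    fin_cases t <;> rfl
  unfold fR RR
  refine Iff.trans Formula.realize_rel ?_
  exact iff_of_eq (congrArg _ this)

noncomputable def fN {α : Type} (i j : α) : Lg.Formula α :=
  Formula.iAlls Unit (fR (Sum.inl i) (Sum.inl j) (Sum.inr ()) : Lg.Formula (α ⊕ Unit)).not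

theorem fN_realize {α N : Type} [Lg.Structure N] (v : α → N) (i j : α) :
    (fN i j).Realize v ↔ ∀ z, ¬ RR N (v i) (v j) z := by
  unfold fN
  rw [Formula.realize_iAlls]
  constructor
  · intro h z hz
    have := h (fun _ => z)
    rw [Formula.realize_not, fR_realize] at this
    exact this hz
  · intro h z
    rw [Formula.realize_not, fR_realize]
    exact h (z ())

noncomputable def fPat {α : Type} [Finite α]
    (q : (α → α → Prop) × (α → α → α → Prop) × (α → α → Prop)) : Lg.Formula α :=
  (Formula.iInf fun i : α => Formula.iInf fun j : α => lit (q.1 i j) (fEq i j)) ⊓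
  ((Formula.iInf fun i : α => Formula.iInf fun j : α => Formula.iInf fun k : α =>
      lit (q.2.1 i j k) (fR i j k)) ⊓
    (Formula.iInf fun i : α => Formula.iInf fun j : α => lit (q.2.2 i j) (fN i j)))

theorem fPat_realize {α N : Type} [Finite α] [Lg.Structure N] (v : α → N)
    (q : (α → α → Prop) × (α → α → α → Prop) × (α → α → Prop)) :
    (fPat q).Realize v ↔ pat v = q := by
  unfold fPat
  rw [Formula.realize_inf, Formula.realize_inf]
  simp only [Formula.realize_iInf, lit_realize, fEq_realize, fR_realize, fN_realize]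
  obtain ⟨q1, q2, q3⟩ := q
  unfold pat
  rw [Prod.mk.injEq, Prod.mk.injEq]
  constructor
  · rintro ⟨h1, h2, h3⟩
    refine ⟨?_, ?_, ?_⟩
    · funext i j; exact propext (h1 i j)
    · funext i j k; exact propext (h2 i j k)
    · funext i j; exact propext (h3 i j)
  · rintro ⟨h1, h2, h3⟩
    refine ⟨?_, ?_, ?_⟩
    · intro i j; exact iff_of_eq (congrFun (congrFun h1 i) j)
    · intro i j k; exact iff_of_eq (congrFun (congrFun (congrFun h2 i) j) k)
    · intro i j; exact iff_of_eq (congrFun (congrFun h3 i) j)

theorem ud_of_pe {α : Type} [Finite α] (P : ∀ (N : Type) [Lg.Structure N], (α → N) → Prop)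
    (h : ∀ (N N' : Type) [Lg.Structure N] [Lg.Structure N'] (v : α → N) (v' : α → N'), PE v v' → P N v → P N' v') :
    UD P := by
  refine ⟨Formula.iSup (fun q : {q : (α → α → Prop) × (α → α → α → Prop) × (α → α → Prop) //
    ∃ (N : Type) (_ : Lg.Structure N) (v : α → N), pat v = q ∧ P N v} => fPat q.1), ?_⟩
  intro N _ v
  rw [Formula.realize_iSup]
  constructor
  · rintro ⟨⟨q, N', inst', v', hq, hP⟩, hr⟩
    rw [fPat_realize] at hr
    exact h N' N v' v (pe_of_pat (hq.trans hr.symm)) hP
  · intro hP
    exact ⟨⟨pat v, N, _, v, rfl, hP⟩, (fPat_realize v _).2 rfl⟩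

theorem pe_symm {α N N' : Type} [Lg.Structure N] [Lg.Structure N'] {v : α → N} {v' : α → N'} (h : PE v v') :
    PE v' v := by
  obtain ⟨h1, h2, h3⟩ := h
  exact ⟨fun i j => (h1 i j).symm, fun i j k => (h2 i j k).symm, fun i j => (h3 i j).symm⟩

theorem pe_edge {α N N' : Type} [Lg.Structure N] [Lg.Structure N'] {v : α → N} {v' : α → N'} (h : PE v v')
    (e : Finset α) : e.image v ∈ hg N → e.image v' ∈ hg N' := by
  obtain ⟨h1, h2, h3⟩ := h
  rintro (⟨x, y, z, hxy, hxz, hyz, he, hR⟩ | ⟨x, y, hxy, he, hR⟩)
  · left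
    have hx : x ∈ e.image v := by rw [he]; simp
    have hy : y ∈ e.image v := by rw [he]; simp
    have hz : z ∈ e.image v := by rw [he]; simp
    obtain ⟨i, hi, rfl⟩ := Finset.mem_image.1 hx
    obtain ⟨j, hj, rfl⟩ := Finset.mem_image.1 hy
    obtain ⟨k, hk, rfl⟩ := Finset.mem_image.1 hz
    refine ⟨v' i, v' j, v' k, fun h => hxy ((h1 i j).2 h), fun h => hxz ((h1 i k).2 h),
      fun h => hyz ((h1 j k).2 h), ?_, (h2 i j k).1 hR⟩
    ext w
    simp only [Finset.mem_image, Finset.mem_insert, Finset.mem_singleton]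
    constructor
    · rintro ⟨l, hl, rfl⟩
      have : v l ∈ e.image v := Finset.mem_image_of_mem _ hl
      rw [he] at this
      simp only [Finset.mem_insert, Finset.mem_singleton] at this
      rcases this with h | h | h
      · left; exact (h1 _ _).1 h
      · right; left; exact (h1 _ _).1 h
      · right; right; exact (h1 _ _).1 h
    · rintro (rfl | rfl | rfl)
      exacts [⟨i, hi, rfl⟩, ⟨j, hj, rfl⟩, ⟨k, hk, rfl⟩]
  · right
    have hx : x ∈ e.image v := by rw [he]; simp
    have hy : y ∈ e.image v := by rw [he]; simp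
    obtain ⟨i, hi, rfl⟩ := Finset.mem_image.1 hx
    obtain ⟨j, hj, rfl⟩ := Finset.mem_image.1 hy
    refine ⟨v' i, v' j, fun h => hxy ((h1 i j).2 h), ?_, (h3 i j).1 hR⟩
    ext w
    simp only [Finset.mem_image, Finset.mem_insert, Finset.mem_singleton]
    constructor
    · rintro ⟨l, hl, rfl⟩
      have : v l ∈ e.image v := Finset.mem_image_of_mem _ hl
      rw [he] at this
      simp only [Finset.mem_insert, Finset.mem_singleton] at this
      rcases this with h | h
      · left; exact (h1 _ _).1 h
      · right; exact (h1 _ _).1 h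
    · rintro (rfl | rfl)
      exacts [⟨i, hi, rfl⟩, ⟨j, hj, rfl⟩]

theorem pe_dl {α N N' : Type} [Lg.Structure N] [Lg.Structure N'] {v : α → N} {v' : α → N'} (h : PE v v')
    (e : Finset α) : dl (hg N) (e.image v) = dl (hg N') (e.image v') := by
  rcases e.eq_empty_or_nonempty with rfl | ⟨i0, hi0⟩
  · have key : ((∅ : Finset N) ∈ hg N) ↔ ((∅ : Finset N') ∈ hg N') := by
      have h1 := pe_edge h (∅ : Finset α)
      have h2 := pe_edge (pe_symm h) (∅ : Finset α)
      simp only [Finset.image_empty] at h1 h2
      exact ⟨h1, h2⟩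
    simp only [Finset.image_empty, dl, en, Finset.powerset_empty, Finset.card_empty,
      Finset.filter_singleton, key]
    by_cases hk : (∅ : Finset N') ∈ hg N'
    · simp [hk]
    · simp [hk]
  · set f : N → N' := fun x => if h : ∃ i ∈ e, v i = x then v' h.choose else v' i0 with hf
    have hfv : ∀ i ∈ e, f (v i) = v' i := by
      intro i hi
      have hex : ∃ j ∈ e, v j = v i := ⟨i, hi, rfl⟩
      have : f (v i) = v' hex.choose := by
        simp only [hf]
        rw [dif_pos hex]
      rw [this]
      exact (h.1 _ _).1 hex.choose_spec.2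
    have himg : ∀ e' : Finset α, e' ⊆ e → (e'.image v).image f = e'.image v' := by
      intro e' he'
      rw [Finset.image_image]
      apply Finset.image_congr
      intro i hi
      exact hfv i (he' hi)
    rw [← himg e (Finset.Subset.refl _)]
    symm
    apply dl_image
    · intro x hx y hy hxy
      rw [Finset.mem_coe, Finset.mem_image] at hx hy
      obtain ⟨i, hi, rfl⟩ := hx
      obtain ⟨j, hj, rfl⟩ := hy
      rw [hfv i hi, hfv j hj] at hxy
      exact (h.1 i j).2 hxy
    · intro s hs
      have hs' : (e.filter (fun i => v i ∈ s)).image v = s := by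
        ext x
        simp only [Finset.mem_image, Finset.mem_filter]
        constructor
        · rintro ⟨i, ⟨hi, his⟩, rfl⟩
          exact his
        · intro hx
          obtain ⟨i, hi, rfl⟩ := Finset.mem_image.1 (hs hx)
          exact ⟨i, ⟨hi, hx⟩, rfl⟩
      have h2 := himg (e.filter (fun i => v i ∈ s)) (Finset.filter_subset _ _)
      rw [hs'] at h2
      rw [h2]
      have h3 := pe_edge h (e.filter (fun i => v i ∈ s))
      have h4 := pe_edge (pe_symm h) (e.filter (fun i => v i ∈ s))
      rw [hs'] at h3 h4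
      exact ⟨h3, h4⟩

end Pool.Agent.Helper180.SMin
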