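import Mathlib
import Pool.Agent.Helper180.SMin.Base
import Pool.Agent.Helper180.SMin.JBasic
import Pool.Agent.Helper180.SMin.JUdpe
import Pool.Agent.Helper180.SMin.JUdcalc

set_option autoImplicit false
open FirstOrder FirstOrder.Language
open scoped FirstOrder

namespace Pool.Agent.Helper180.SMin
open scoped Classical


theorem h441_cov {N : Type} (X : Finset N) (hX : X.Nonempty) (k : ℕ) (hk : X.card ≤ k) :
    ∃ x : Fin k → N, Finset.univ.image x = X := by
  obtain ⟨x0, hx0⟩ := hX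
  refine ⟨fun i => if h : (i : ℕ) < X.card then (X.equivFin.symm ⟨i, h⟩ : X).val else x0, ?_⟩
  ext y
  simp only [Finset.mem_image, Finset.mem_univ, true_and]
  constructor
  · rintro ⟨i, hi⟩
    split_ifs at hi with h
    · rw [← hi]; exact (X.equivFin.symm ⟨i, h⟩).2
    · rw [← hi]; exact hx0
  · intro hy
    refine ⟨⟨X.equivFin ⟨y, hy⟩, lt_of_lt_of_le (X.equivFin ⟨y, hy⟩).2 hk⟩, ?_⟩
    rw [dif_pos (X.equivFin ⟨y, hy⟩).2]
    simp

theorem h441_pe_inj {α N N' : Type} [Lg.Structure N] [Lg.Structure N'] {v : α → N} {v' : α → N'} (h : PE v v')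
    (hi : Function.Injective v) : Function.Injective v' := fun i j hij => hi ((h.1 i j).2 hij)

theorem h441_pe_edge {α N N' : Type} [Lg.Structure N] [Lg.Structure N'] {v : α → N} {v' : α → N'} (h : PE v v')
    (e : Finset α) : e.image v ∈ hg N ↔ e.image v' ∈ hg N' := ⟨pe_edge h e, pe_edge (pe_symm h) e⟩

theorem h441_pe_comp {α β N N' : Type} [Lg.Structure N] [Lg.Structure N'] {v : α → N} {v' : α → N'} (h : PE v v')
    (f : β → α) : PE (fun b => v (f b)) (fun b => v' (f b)) :=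
  ⟨fun i j => h.1 (f i) (f j), fun i j k => h.2.1 (f i) (f j) (f k), fun i j => h.2.2 (f i) (f j)⟩

theorem h441_irr {N N' : Type} [Lg.Structure N] [Lg.Structure N'] (hN : Ax N)
    (h : ∀ σ : Lg.Sentence, N ⊨ σ → N' ⊨ σ) (x y z : N') (hR : RR N' x y z) : x ≠ y ∧ x ≠ z ∧ y ≠ z := by
  let P : ∀ (N : Type) [Lg.Structure N], (Fin 3 → N) → Prop := fun N _ v =>
    RR N (v 0) (v 1) (v 2) → v 0 ≠ v 1 ∧ v 0 ≠ v 2 ∧ v 1 ≠ v 2
  have hP : UD P := by
    apply ud_of_pe
    intro N N' _ _ v v' hv hPv hR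
    obtain ⟨h1, h2, h3⟩ := hPv ((hv.2.1 0 1 2).2 hR)
    exact ⟨fun e => h1 ((hv.1 _ _).2 e), fun e => h2 ((hv.1 _ _).2 e), fun e => h3 ((hv.1 _ _).2 e)⟩
  have := ud_transfer h hP (fun v => hN.irr _ _ _) ![x, y, z]
  exact this hR

theorem h441_sym1 {N N' : Type} [Lg.Structure N] [Lg.Structure N'] (hN : Ax N)
    (h : ∀ σ : Lg.Sentence, N ⊨ σ → N' ⊨ σ) (x y z : N') (hR : RR N' x y z) : RR N' y x z := by
  let P : ∀ (N : Type) [Lg.Structure N], (Fin 3 → N) → Prop := fun N _ v =>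
    RR N (v 0) (v 1) (v 2) → RR N (v 1) (v 0) (v 2)
  have hP : UD P := by
    apply ud_of_pe
    intro N N' _ _ v v' hv hPv hR
    exact (hv.2.1 1 0 2).1 (hPv ((hv.2.1 0 1 2).2 hR))
  have := ud_transfer h hP (fun v => hN.sym1 _ _ _) ![x, y, z]
  exact this hR

theorem h441_sym2 {N N' : Type} [Lg.Structure N] [Lg.Structure N'] (hN : Ax N)
    (h : ∀ σ : Lg.Sentence, N ⊨ σ → N' ⊨ σ) (x y z : N') (hR : RR N' x y z) : RR N' x z y := by
  let P : ∀ (N : Type) [Lg.Structure N], (Fin 3 → N) → Prop := fun N _ v =>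
    RR N (v 0) (v 1) (v 2) → RR N (v 0) (v 2) (v 1)
  have hP : UD P := by
    apply ud_of_pe
    intro N N' _ _ v v' hv hPv hR
    exact (hv.2.1 0 2 1).1 (hPv ((hv.2.1 0 1 2).2 hR))
  have := ud_transfer h hP (fun v => hN.sym2 _ _ _) ![x, y, z]
  exact this hR

theorem h441_nonneg {N N' : Type} [Lg.Structure N] [Lg.Structure N'] (hN : Ax N)
    (h : ∀ σ : Lg.Sentence, N ⊨ σ → N' ⊨ σ) (X : Finset N') : 0 ≤ dl (hg N') X := by
  let P : ∀ (N : Type) [Lg.Structure N], (↥X → N) → Prop := fun N _ v =>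
    0 ≤ dl (hg N) (Finset.univ.image v)
  have hP : UD P := by
    apply ud_of_pe
    intro N N' _ _ v v' hv hPv
    show 0 ≤ dl (hg N') (Finset.univ.image v')
    rw [← pe_dl hv]
    exact hPv
  have h1 := ud_transfer h hP (fun v => hN.good.nonneg _) (Subtype.val : ↥X → N')
  have h2 : (Finset.univ.image (Subtype.val : ↥X → N')) = X := by
    ext y
    simp
  have h3 : 0 ≤ dl (hg N') (Finset.univ.image (Subtype.val : ↥X → N')) := h1
  rw [h2] at h3
  exact h3

theorem h441_bound {N N' : Type} [Lg.Structure N] [Lg.Structure N'] (hN : Ax N)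
    (h : ∀ σ : Lg.Sentence, N ⊨ σ → N' ⊨ σ) (n k : ℕ) (T : Finset (Finset (Fin n ⊕ Fin k))) (hT : TGood n k T)
    (g : Fin (n + 1) → (Fin n ⊕ Fin k ↪ N')) (h1 : ∀ i, ∀ e ∈ T, e.map (g i) ∈ hg N')
    (h2 : ∀ i j x, g i (Sum.inl x) = g j (Sum.inl x)) :
      ∃ i j, i ≠ j ∧ ∃ x y, g i (Sum.inr x) = g j (Sum.inr y) := by
  let P : ∀ (N : Type) [Lg.Structure N], (Fin (n + 1) × (Fin n ⊕ Fin k) → N) → Prop := fun N _ v =>
    (∀ i, Function.Injective (fun z => v (i, z))) → (∀ i, ∀ e ∈ T, e.image (fun z => v (i, z)) ∈ hg N) →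
      (∀ i j x, v (i, Sum.inl x) = v (j, Sum.inl x)) →
      ∃ i j, i ≠ j ∧ ∃ x y, v (i, Sum.inr x) = v (j, Sum.inr y)
  have hP : UD P := by
    apply ud_of_pe
    intro N N' _ _ v v' hv hPv k1 k2 k3
    obtain ⟨i, j, hij, x, y, hxy⟩ := hPv
      (fun i => h441_pe_inj (pe_symm (h441_pe_comp hv (fun z => (i, z)))) (k1 i))
      (fun i e he => (h441_pe_edge (h441_pe_comp hv (fun z => (i, z))) e).2 (k2 i e he))
      (fun i j x => (hv.1 _ _).2 (k3 i j x))
    exact ⟨i, j, hij, x, y, (hv.1 _ _).1 hxy⟩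
  have hNv : ∀ v : Fin (n + 1) × (Fin n ⊕ Fin k) → N, P N v := by
    intro v k1 k2 k3
    have := hN.good.bound n k T hT (fun i => ⟨fun z => v (i, z), k1 i⟩)
      (fun i e he => by
        rw [Finset.map_eq_image]
        exact k2 i e he) (fun i j x => k3 i j x)
    exact this
  have h3 := ud_transfer h hP hNv (fun p => g p.1 p.2)
  exact h3 (fun i => (g i).injective) (fun i e he => by
    have := h1 i e he
    rw [Finset.map_eq_image] at this
    exact this) (fun i j x => h2 i j x)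

theorem h441_un {N : Type} {m k : ℕ} (v : Fin m → N) (x : Fin k → N) :
    Finset.univ.image (Sum.elim v x) = Finset.univ.image v ∪ Finset.univ.image x := by
  ext y
  simp

theorem h441_rich {N N' : Type} [Lg.Structure N] [Lg.Structure N'] (hN : Ax N)
    (h : ∀ σ : Lg.Sentence, N ⊨ σ → N' ⊨ σ) : Rich Set.univ (hg N') := by
  intro m k G a hk hG hM _ hiso hK
  let Q1 : ∀ (N : Type) [Lg.Structure N], (Fin m → N) → Prop := fun N _ v =>
    Function.Injective v ∧ ∀ e : Finset (Fin m), e.map Function.Embedding.inl ∈ G ↔ e.image v ∈ hg N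
  let R2 : ∀ (N : Type) [Lg.Structure N], (Fin m ⊕ Fin k → N) → Prop := fun N _ w =>
    dl (hg N) (Finset.univ.image (fun i => w (Sum.inl i))) ≤ dl (hg N) (Finset.univ.image w)
  let R3 : ∀ (N : Type) [Lg.Structure N], (Fin m ⊕ Fin k → N) → Prop := fun N _ w =>
    Function.Injective w ∧ ∀ e : Finset (Fin m ⊕ Fin k), e ∈ G ↔ e.image w ∈ hg N
  have hQ1 : UD Q1 := by
    apply ud_of_pe
    intro N N' _ _ v v' hv hPv
    exact ⟨h441_pe_inj hv hPv.1, fun e => (hPv.2 e).trans (h441_pe_edge hv e)⟩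
  have hR2 : UD R2 := by
    apply ud_of_pe
    intro N N' _ _ v v' hv hPv
    show dl (hg N') (Finset.univ.image (fun i => v' (Sum.inl i))) ≤ dl (hg N') (Finset.univ.image v')
    rw [← pe_dl hv, ← pe_dl (h441_pe_comp hv Sum.inl)]
    exact hPv
  have hR3 : UD R3 := by
    apply ud_of_pe
    intro N N' _ _ v v' hv hPv
    exact ⟨h441_pe_inj hv hPv.1, fun e => (hPv.2 e).trans (h441_pe_edge hv e)⟩
  have hP := ud_imp hQ1 (ud_imp (ud_forall hR2) (ud_exists hR3))
  have hNv : ∀ v : Fin m → N, Q1 N v → (∀ w : Fin k → N, R2 N (Sum.elim v w)) →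
      ∃ w : Fin k → N, R3 N (Sum.elim v w) := by
    intro v k1 k2
    obtain ⟨g, hg1, _, hg3⟩ := hN.rich m k G ⟨v, k1.1⟩ hk hG hM (fun _ => trivial)
      (fun e => by
        rw [Finset.map_eq_image ⟨v, k1.1⟩ e]
        exact k1.2 e)
      (by
        intro X hX
        rcases X.eq_empty_or_nonempty with hX0 | hX0
        · rw [hX0, Finset.union_empty]
        · obtain ⟨x, hx⟩ := h441_cov X hX0 k hX
          have h5 : dl (hg N) (Finset.univ.image v) ≤ dl (hg N) (Finset.univ.image (Sum.elim v x)) := k2 x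
          rw [h441_un, hx] at h5
          rw [Finset.map_eq_image]
          exact h5)
    have hge : Sum.elim v (fun j => g (Sum.inr j)) = g := by
      funext z
      rcases z with i | j
      · exact (hg1 i).symm
      · rfl
    refine ⟨fun j => g (Sum.inr j), ?_⟩
    rw [hge]
    refine ⟨g.injective, fun e => ?_⟩
    rw [hg3 e, Finset.map_eq_image]
  have h6 := ud_transfer h hP hNv a
  obtain ⟨b, hb1, hb2⟩ := h6 ⟨a.injective, fun e => by
      rw [hiso e, Finset.map_eq_image]⟩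
    (fun x => by
      show dl (hg N') (Finset.univ.image a) ≤ dl (hg N') (Finset.univ.image (Sum.elim a x))
      have h7 := hK (Finset.univ.image x) (by
        refine Finset.card_image_le.trans ?_
        simp)
      rw [Finset.map_eq_image] at h7
      rw [h441_un]
      exact h7)
  refine ⟨⟨Sum.elim a b, hb1⟩, fun i => rfl, fun _ => trivial, fun e => ?_⟩
  rw [hb2 e, Finset.map_eq_image]
  rfl


theorem ax_transfer {N N' : Type} [Lg.Structure N] [Lg.Structure N'] [Nonempty N'] (hN : Ax N)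
    (h : ∀ σ : Lg.Sentence, N ⊨ σ → N' ⊨ σ) : Ax N' := by 
  have hs1 := h441_sym1 hN h
  have hs2 := h441_sym2 hN h
  refine ⟨h441_irr hN h, hs1, hs2, ⟨?_, ?_, h441_nonneg hN h, h441_bound hN h⟩, h441_rich hN h⟩
  · rintro e (⟨x, y, z, hxy, hxz, hyz, rfl, _⟩ | ⟨x, y, hxy, rfl, _⟩)
    · right
      exact Finset.card_eq_three.mpr ⟨x, y, z, hxy, hxz, hyz, rfl⟩
    · left
      exact Finset.card_pair hxy
  · rintro e (⟨x, y, z, hxy, hxz, hyz, rfl, _⟩ | ⟨x, y, hxy, rfl, hno⟩) f hf he2 hf3 hsub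
    · rw [Finset.card_eq_three.mpr ⟨x, y, z, hxy, hxz, hyz, rfl⟩] at he2
      omega
    · rcases hf with ⟨p, q, r, hpq, hpr, hqr, rfl, hR⟩ | ⟨p, q, hpq, rfl, _⟩
      · have hx : x ∈ ({p, q, r} : Finset N') := hsub (by simp)
        have hy : y ∈ ({p, q, r} : Finset N') := hsub (by simp)
        simp only [Finset.mem_insert, Finset.mem_singleton] at hx hy
        rcases hx with rfl | rfl | rfl <;> rcases hy with rfl | rfl | rfl
        · exact hxy rfl
        · exact hno _ hR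
        · exact hno _ (hs2 _ _ _ hR)
        · exact hno _ (hs1 _ _ _ hR)
        · exact hxy rfl
        · exact hno _ (hs2 _ _ _ (hs1 _ _ _ hR))
        · exact hno _ (hs1 _ _ _ (hs2 _ _ _ hR))
        · exact hno _ (hs2 _ _ _ (hs1 _ _ _ (hs2 _ _ _ hR)))
        · exact hxy rfl
      · rw [Finset.card_pair hpq] at hf3
        omega

end Pool.Agent.Helper180.SMin
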