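import Mathlib
import Pool.Agent.Helper180.SMin.Base
import Pool.Agent.Helper180.SMin.JBasic
import Pool.Agent.Helper180.SMin.JStr

set_option autoImplicit false
open FirstOrder FirstOrder.Language
open scoped FirstOrder

namespace Pool.Agent.Helper180.SMin
open scoped Classical


theorem chain_union {V : Type} {S0 : Set V} {E0 : Set (Finset V)} (c : Set (Set V × Set (Finset V)))
    (hne : c.Nonempty) (hc : ∀ p ∈ c, ∀ q ∈ c, p = q ∨ Ext p.1 p.2 q.1 q.2 ∨ Ext q.1 q.2 p.1 p.2)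
    (h : ∀ p ∈ c, On p.1 p.2 ∧ Good p.2 ∧ Ext S0 E0 p.1 p.2 ∧ Alg S0 p.1 p.2) :
    On (⋃ p ∈ c, p.1) (⋃ p ∈ c, p.2) ∧ Good (⋃ p ∈ c, p.2) ∧ Ext S0 E0 (⋃ p ∈ c, p.1) (⋃ p ∈ c, p.2) ∧
      Alg S0 (⋃ p ∈ c, p.1) (⋃ p ∈ c, p.2) ∧
      ∀ p ∈ c, Ext p.1 p.2 (⋃ p ∈ c, p.1) (⋃ p ∈ c, p.2) := by
  obtain ⟨U1, hU1⟩ : ∃ U1 : Set V, U1 = ⋃ p ∈ c, p.1 := ⟨_, rfl⟩
  obtain ⟨U2, hU2⟩ : ∃ U2 : Set (Finset V), U2 = ⋃ p ∈ c, p.2 := ⟨_, rfl⟩
  have m1 : ∀ x, x ∈ U1 ↔ ∃ p ∈ c, x ∈ p.1 := by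
    intro x
    rw [hU1, Set.mem_iUnion₂]
    constructor
    · rintro ⟨p, hp, hx⟩; exact ⟨p, hp, hx⟩
    · rintro ⟨p, hp, hx⟩; exact ⟨p, hp, hx⟩
  have m2 : ∀ e, e ∈ U2 ↔ ∃ p ∈ c, e ∈ p.2 := by
    intro e
    rw [hU2, Set.mem_iUnion₂]
    constructor
    · rintro ⟨p, hp, hx⟩; exact ⟨p, hp, hx⟩
    · rintro ⟨p, hp, hx⟩; exact ⟨p, hp, hx⟩
  rw [← hU1, ← hU2]
  -- agreement
  have hag : ∀ p ∈ c, ∀ e : Finset V, (∀ x ∈ e, x ∈ p.1) → (e ∈ U2 ↔ e ∈ p.2) := by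
    intro p hp e he
    rw [m2]
    constructor
    · rintro ⟨q, hq, heq⟩
      rcases hc p hp q hq with h1 | h1 | h1
      · rw [h1]; exact heq
      · exact (h1.2.1 e he).mp heq
      · exact (h1.2.1 e ((h q hq).1 e heq)).mpr heq
    · intro h1; exact ⟨p, hp, h1⟩
  -- recover Ext from inclusion
  have hrec : ∀ q ∈ c, ∀ p ∈ c, q.1 ⊆ p.1 → q = p ∨ Ext q.1 q.2 p.1 p.2 := by
    intro q hq p hp hqp
    rcases hc q hq p hp with h1 | h1 | h1
    · exact Or.inl h1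
    · exact Or.inr h1
    · left
      have h2 : q.1 = p.1 := Set.Subset.antisymm hqp h1.1
      have h3 : q.2 = p.2 := by
        ext e
        constructor
        · intro he
          have h4 : ∀ x ∈ e, x ∈ p.1 := fun x hx => hqp ((h q hq).1 e he x hx)
          exact (h1.2.1 e h4).mp he
        · intro he
          exact (h1.2.1 e ((h p hp).1 e he)).mpr he
      exact Prod.ext h2 h3
  have hdir : ∀ q ∈ c, ∀ Z : Finset V, ∃ p ∈ c, q.1 ⊆ p.1 ∧ ∀ x ∈ Z, x ∈ U1 → x ∈ p.1 := by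
    intro q hq Z
    induction Z using Finset.induction_on with
    | empty => exact ⟨q, hq, subset_rfl, by simp⟩
    | insert a Z _ ih =>
      obtain ⟨p, hp, hqp, hpZ⟩ := ih
      by_cases ha : a ∈ U1
      · obtain ⟨r, hr, har⟩ := (m1 a).mp ha
        have hcmp : p.1 ⊆ r.1 ∨ r.1 ⊆ p.1 := by
          rcases hc p hp r hr with h1 | h1 | h1
          · left; rw [h1]
          · left; exact h1.1
          · right; exact h1.1
        rcases hcmp with h2 | h2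
        · refine ⟨r, hr, hqp.trans h2, fun x hx hxU => ?_⟩
          rcases Finset.mem_insert.mp hx with rfl | hx
          · exact har
          · exact h2 (hpZ x hx hxU)
        · refine ⟨p, hp, hqp, fun x hx hxU => ?_⟩
          rcases Finset.mem_insert.mp hx with rfl | hx
          · exact h2 har
          · exact hpZ x hx hxU
      · refine ⟨p, hp, hqp, fun x hx hxU => ?_⟩
        rcases Finset.mem_insert.mp hx with rfl | hx
        · exact absurd hxU ha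
        · exact hpZ x hx hxU
  have hOn : On U1 U2 := by
    intro e he x hx
    obtain ⟨p, hp, hep⟩ := (m2 e).mp he
    exact (m1 x).mpr ⟨p, hp, (h p hp).1 e hep x hx⟩
  have K : ∀ q ∈ c, ∀ Z : Finset V, ∃ p ∈ c, q.1 ⊆ p.1 ∧ (∀ e, e ⊆ Z → (e ∈ U2 ↔ e ∈ p.2)) := by
    intro q hq Z
    obtain ⟨p, hp, hqp, hpZ⟩ := hdir q hq Z
    refine ⟨p, hp, hqp, fun e he => ⟨fun heU => ?_, fun hep => (m2 e).mpr ⟨p, hp, hep⟩⟩⟩
    exact (hag p hp e fun x hx => hpZ x (he hx) (hOn e heU x hx)).mp heU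
  obtain ⟨q0, hq0⟩ := hne
  refine ⟨hOn, ⟨?_, ?_, ?_, ?_⟩, ⟨?_, ?_, ?_⟩, ?_, ?_⟩
  · intro e he
    obtain ⟨p, hp, hep⟩ := (m2 e).mp he
    exact (h p hp).2.1.card e hep
  · intro e he f hf h2 h3
    obtain ⟨p, hp, _, hpZ⟩ := K q0 hq0 (e ∪ f)
    exact (h p hp).2.1.excl e ((hpZ e Finset.subset_union_left).mp he) f
      ((hpZ f Finset.subset_union_right).mp hf) h2 h3
  · intro X
    obtain ⟨p, hp, _, hpZ⟩ := K q0 hq0 X
    rw [dl_congr hpZ]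
    exact (h p hp).2.1.nonneg X
  · intro n k T hT g hg hgg
    obtain ⟨p, hp, _, hpZ⟩ := K q0 hq0
      (Finset.univ.biUnion fun i : Fin (n + 1) => T.biUnion fun e => e.map (g i))
    refine (h p hp).2.1.bound n k T hT g (fun i e he => (hpZ _ ?_).mp (hg i e he)) hgg
    intro x hx
    rw [Finset.mem_biUnion]
    exact ⟨i, Finset.mem_univ i, Finset.mem_biUnion.mpr ⟨e, he, hx⟩⟩
  · intro x hx
    exact (m1 x).mpr ⟨q0, hq0, (h q0 hq0).2.2.1.1 hx⟩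
  · intro e he
    rw [hag q0 hq0 e fun x hx => (h q0 hq0).2.2.1.1 (he x hx)]
    exact (h q0 hq0).2.2.1.2.1 e he
  · intro Y
    obtain ⟨p, hp, _, hpZ⟩ := K q0 hq0 Y
    rw [dl_congr hpZ, dl_congr (E := U2) (E' := p.2)
      (X := Y.filter (fun x => x ∈ S0)) (fun e he => hpZ e (he.trans (Finset.filter_subset _ _)))]
    exact (h p hp).2.2.1.2.2 Y
  · intro s hs
    obtain ⟨p, hp, hsp⟩ := (m1 s).mp hs
    obtain ⟨Y, hsY, hYp, hYd⟩ := (h p hp).2.2.2 s hsp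
    refine ⟨Y, hsY, fun y hy => (m1 y).mpr ⟨p, hp, hYp y hy⟩, ?_⟩
    have hpZ : ∀ e, e ⊆ Y → (e ∈ U2 ↔ e ∈ p.2) := fun e he =>
      hag p hp e fun x hx => hYp x (he hx)
    rw [dl_congr hpZ, dl_congr (E := U2) (E' := p.2)
      (X := Y.filter (fun x => x ∈ S0)) (fun e he => hpZ e (he.trans (Finset.filter_subset _ _)))]
    exact hYd
  · intro p hp
    refine ⟨fun x hx => (m1 x).mpr ⟨p, hp, hx⟩, hag p hp, ?_⟩
    intro Y
    obtain ⟨r, hr, hpr, hrZ⟩ := K p hp Y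
    rw [dl_congr hrZ, dl_congr (E := U2) (E' := r.2)
      (X := Y.filter (fun x => x ∈ p.1)) (fun e he => hrZ e (he.trans (Finset.filter_subset _ _)))]
    rcases hrec p hp r hr hpr with h1 | h1
    · subst h1
      rw [dl_off (h p hp).1 Y]
      have : (0 : ℤ) ≤ ((Y.filter (fun x => x ∉ p.1)).card : ℤ) := Int.natCast_nonneg _
      linarith
    · exact h1.2.2 Y

end Pool.Agent.Helper180.SMin
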