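import Mathlib
import Pool.Agent.Helper180.SMin.Base
import Pool.Agent.Helper180.SMin.JBasic
import Pool.Agent.Helper180.SMin.JStr
import Pool.Agent.Helper180.SMin.JDem
import Pool.Agent.Helper180.SMin.JAlgfin

set_option autoImplicit false
open FirstOrder FirstOrder.Language
open scoped FirstOrder

namespace Pool.Agent.Helper180.SMin
open scoped Classical


theorem ext_trans {V : Type} {S S' S'' : Set V} {E E' E'' : Set (Finset V)} (hO : On S' E')
    (h : Ext S E S' E') (h' : Ext S' E' S'' E'') : Ext S E S'' E'' := by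
  obtain ⟨h1, h2, h3⟩ := h
  obtain ⟨h1', h2', h3'⟩ := h'
  refine ⟨h1.trans h1', ?_, str_trans h1 hO h2' h3' h3⟩
  intro e he
  rw [h2' e (fun x hx => h1 (he x hx)), h2 e he]

theorem alg_union {V : Type} {S0 : Set V} {E : Set (Finset V)} (hS0 : Str E S0) {Y Y' : Finset V}
    (h : dl E Y ≤ dl E (Y.filter (fun x => x ∈ S0))) (h' : dl E Y' ≤ dl E (Y'.filter (fun x => x ∈ S0))) :
    dl E (Y ∪ Y') ≤ dl E ((Y ∪ Y').filter (fun x => x ∈ S0)) := by
  obtain ⟨A, hA⟩ : ∃ A : Finset V, A = (Y ∪ Y').filter (fun x => x ∈ S0) := ⟨_, rfl⟩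
  rw [← hA]
  have hmA : ∀ x, x ∈ A ↔ (x ∈ Y ∨ x ∈ Y') ∧ x ∈ S0 := by
    intro x
    rw [hA, Finset.mem_filter, Finset.mem_union]
  have e1 : Y ∩ A = Y.filter (fun x => x ∈ S0) := by
    ext x
    rw [Finset.mem_inter, Finset.mem_filter, hmA]
    tauto
  have e2 : Y' ∩ A = Y'.filter (fun x => x ∈ S0) := by
    ext x
    rw [Finset.mem_inter, Finset.mem_filter, hmA]
    tauto
  have s1 := dl_submod E Y A
  have s2 := dl_submod E Y' A
  rw [e1] at s1
  rw [e2] at s2
  have s3 := dl_submod E (Y ∪ A) (Y' ∪ A)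
  have e3 : (Y ∪ A) ∪ (Y' ∪ A) = Y ∪ Y' := by
    ext x
    simp only [Finset.mem_union, hmA]
    tauto
  have e4 : ((Y ∪ A) ∩ (Y' ∪ A)).filter (fun x => x ∈ S0) = A := by
    ext x
    simp only [Finset.mem_union, Finset.mem_inter, Finset.mem_filter, hmA]
    tauto
  have s4 := hS0 ((Y ∪ A) ∩ (Y' ∪ A))
  rw [e4] at s4
  rw [e3] at s3
  linarith

theorem alg_set_countable {V : Type} {S0 S : Set V} {E : Set (Finset V)} (h0 : S0.Countable) (hE : Good E)
    (hS0 : Str E S0) (hA : Alg S0 S E) : S.Countable := by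
  have hc : {A : Finset V | (∀ x ∈ A, x ∈ S0) ∧ Str E (↑A : Set V)}.Countable := by
    have h1 : ((fun A : Finset V => (↑A : Set V)) ⁻¹' {t : Set V | t.Finite ∧ t ⊆ S0}).Countable :=
      (Set.countable_setOf_finite_subset h0).preimage Finset.coe_injective
    refine h1.mono ?_
    rintro A ⟨h2, _⟩
    exact ⟨A.finite_toSet, fun x hx => h2 x hx⟩
  have hU : (⋃ A ∈ {A : Finset V | (∀ x ∈ A, x ∈ S0) ∧ Str E (↑A : Set V)},
      {b : V | ¬ Gen E A b}).Countable :=
    hc.biUnion fun A hA => alg_countable hE hA.2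
  refine hU.mono ?_
  intro s hs
  obtain ⟨Y, hsY, hYS, hY⟩ := hA s hs
  obtain ⟨A, hA1, hA2, hA3⟩ := exists_closure_in hE.nonneg hS0 (Y.filter (fun x => x ∈ S0))
    (fun x hx => (Finset.mem_filter.1 hx).2)
  have e1 : Y ∩ A = Y.filter (fun x => x ∈ S0) := by
    ext x
    rw [Finset.mem_inter, Finset.mem_filter]
    constructor
    · rintro ⟨h1, h2⟩
      exact ⟨h1, hA2 x h2⟩
    · rintro ⟨h1, h2⟩
      exact ⟨h1, hA1 (Finset.mem_filter.2 ⟨h1, h2⟩)⟩
  have s1 := dl_submod E Y A
  rw [e1] at s1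
  refine Set.mem_biUnion (show A ∈ {A : Finset V | (∀ x ∈ A, x ∈ S0) ∧ Str E (↑A : Set V)} from
    ⟨hA2, hA3⟩) ?_
  rintro ⟨h1, h2⟩
  have h3 := h2 (Y ∪ A) (by
    intro x hx
    rw [Finset.mem_insert] at hx
    rw [Finset.mem_union]
    rcases hx with rfl | hx
    · exact Or.inl hsY
    · exact Or.inr hx)
  linarith

theorem alg_finset {V : Type} {S0 S : Set V} {E : Set (Finset V)} (hS0 : Str E S0)
    (hA : Alg S0 S E) (A : Finset V) (hAS : ∀ x ∈ A, x ∈ S) :
    ∃ Y : Finset V, A ⊆ Y ∧ (∀ y ∈ Y, y ∈ S) ∧ dl E Y ≤ dl E (Y.filter (fun x => x ∈ S0)) := by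
  induction A using Finset.induction_on with
  | empty =>
    refine ⟨∅, Finset.empty_subset _, fun y hy => absurd hy (Finset.notMem_empty _), ?_⟩
    rw [Finset.filter_empty]
  | insert a A _ ih =>
    obtain ⟨Y, h1, h2, h3⟩ := ih (fun x hx => hAS x (Finset.mem_insert_of_mem hx))
    obtain ⟨Y', h1', h2', h3'⟩ := hA a (hAS a (Finset.mem_insert_self _ _))
    refine ⟨Y ∪ Y', ?_, ?_, alg_union hS0 h3 h3'⟩
    · intro x hx
      rw [Finset.mem_insert] at hx
      rw [Finset.mem_union]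
      rcases hx with rfl | hx
      · exact Or.inr h1'
      · exact Or.inl (h1 hx)
    · intro y hy
      rcases Finset.mem_union.1 hy with hy | hy
      · exact h2 y hy
      · exact h2' y hy

theorem alg_step {V : Type} {S0 S : Set V} {E : Set (Finset V)} (hO : On S E) (h0 : S0 ⊆ S) (hS0 : Str E S0)
    (hA : Alg S0 S E) {B : Finset V} {F : Finset (Finset V)} (hF : Dem S B F) :
    Alg S0 (S ∪ (↑B : Set V)) (E ∪ (↑F : Set (Finset V))) := by
  have hcong : ∀ Z : Finset V, (∀ z ∈ Z, z ∈ S) → dl (E ∪ (↑F : Set (Finset V))) Z = dl E Z := by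
    intro Z hZ
    exact dl_congr fun e he => dem_old hF e (fun x hx => hZ x (he hx))
  intro s hs
  rcases hs with hs | hs
  · obtain ⟨Y, h1, h2, h3⟩ := hA s hs
    refine ⟨Y, h1, fun y hy => Or.inl (h2 y hy), ?_⟩
    rw [hcong Y h2, hcong _ (fun z hz => h2 z (Finset.mem_filter.1 hz).1)]
    exact h3
  · obtain ⟨hBn, hBS, hFB, hFS, hFc, _⟩ := id hF
    obtain ⟨Y0, h1, h2, h3⟩ := alg_finset hS0 hA ((F.biUnion id) \ B) (by
      intro x hx
      rw [Finset.mem_sdiff, Finset.mem_biUnion] at hx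
      obtain ⟨⟨e, he, hxe⟩, hxB⟩ := hx
      rcases hFS e he x hxe with h | h
      · exact h
      · exact absurd h hxB)
    refine ⟨Y0 ∪ B, Finset.mem_union_right _ hs, ?_, ?_⟩
    · intro y hy
      rcases Finset.mem_union.1 hy with hy | hy
      · exact Or.inl (h2 y hy)
      · exact Or.inr hy
    · have e1 : (Y0 ∪ B).filter (fun x => x ∈ S) = Y0 := by
        ext x
        rw [Finset.mem_filter, Finset.mem_union]
        constructor
        · rintro ⟨h | h, h'⟩
          · exact h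
          · exact absurd h' (hBS x h)
        · intro h
          exact ⟨Or.inl h, h2 x h⟩
      have e2 : (Y0 ∪ B).filter (fun x => x ∉ S) = B := by
        ext x
        rw [Finset.mem_filter, Finset.mem_union]
        constructor
        · rintro ⟨h | h, h'⟩
          · exact absurd (h2 x h) h'
          · exact h
        · intro h
          exact ⟨Or.inr h, hBS x h⟩
      have e3 : F.filter (fun e => e ⊆ Y0 ∪ B) = F := by
        apply Finset.filter_true_of_mem
        intro e he x hx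
        rw [Finset.mem_union]
        by_cases hxB : x ∈ B
        · exact Or.inr hxB
        · left
          apply h1
          rw [Finset.mem_sdiff, Finset.mem_biUnion]
          exact ⟨⟨e, he, hx⟩, hxB⟩
      have e4 : (Y0 ∪ B).filter (fun x => x ∈ S0) = Y0.filter (fun x => x ∈ S0) := by
        ext x
        rw [Finset.mem_filter, Finset.mem_filter, Finset.mem_union]
        constructor
        · rintro ⟨h | h, h'⟩
          · exact ⟨h, h'⟩
          · exact absurd (h0 h') (hBS x h)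
        · rintro ⟨h, h'⟩
          exact ⟨Or.inl h, h'⟩
      rw [dem_dl hO hF, e1, e2, e3, hFc, e4,
        hcong _ (fun z hz => h2 z (Finset.mem_filter.1 hz).1)]
      linarith

end Pool.Agent.Helper180.SMin
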