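import Mathlib
import Pool.Agent.Helper180.SMin.Base
import Pool.Agent.Helper180.SMin.JBasic
import Pool.Agent.Helper180.SMin.JStr
import Pool.Agent.Helper180.SMin.JDem
import Pool.Agent.Helper180.SMin.JExtt
import Pool.Agent.Helper180.SMin.JChainu

set_option autoImplicit false
open FirstOrder FirstOrder.Language
open scoped FirstOrder

namespace Pool.Agent.Helper180.SMin
open scoped Classical


theorem ext_closed {V : Type} (hV : ¬ (Set.univ : Set V).Countable) {S : Set V} (hS : S.Countable)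
    {E : Set (Finset V)} (hO : On S E) (hE : Good E) :
    ∃ (S' : Set V) (E' : Set (Finset V)), S'.Countable ∧ S ⊆ S' ∧ On S' E' ∧ Good E' ∧ Closed S' E' ∧
      (∀ e : Finset V, (∀ x ∈ e, x ∈ S) → (e ∈ E' ↔ e ∈ E)) ∧ Str E' S := by
  have hSS : Str E S := by
    intro Y
    have h := dl_off hO Y
    rw [h]
    have : (0:ℤ) ≤ ((Y.filter (fun x => x ∉ S)).card : ℤ) := Int.natCast_nonneg _
    linarith
  have hbase : On S E ∧ Good E ∧ Ext S E S E ∧ Alg S S E := by
    refine ⟨hO, hE, ⟨subset_rfl, fun e _ => Iff.rfl, hSS⟩, ?_⟩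
    intro s hs
    refine ⟨{s}, Finset.mem_singleton_self s, ?_, ?_⟩
    · intro y hy
      rw [Finset.mem_singleton] at hy
      rw [hy]
      exact hs
    · have : ({s} : Finset V).filter (fun x => x ∈ S) = {s} := by
        apply Finset.filter_true_of_mem
        intro y hy
        rw [Finset.mem_singleton] at hy
        rw [hy]
        exact hs
      rw [this]
  let X := {p : Set V × Set (Finset V) // On p.1 p.2 ∧ Good p.2 ∧ Ext S E p.1 p.2 ∧ Alg S p.1 p.2}
  let r : X → X → Prop := fun p q => p = q ∨ Ext p.1.1 p.1.2 q.1.1 q.1.2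
  have htr : ∀ {a b c : X}, r a b → r b c → r a c := by
    intro a b c hab hbc
    rcases hab with rfl | hab
    · exact hbc
    · rcases hbc with rfl | hbc
      · exact Or.inr hab
      · exact Or.inr (ext_trans b.2.1 hab hbc)
  have hch : ∀ c : Set X, IsChain r c → ∃ ub, ∀ a ∈ c, r a ub := by
    intro c hc
    rcases c.eq_empty_or_nonempty with rfl | hne
    · exact ⟨⟨(S, E), hbase⟩, fun a ha => absurd ha (Set.notMem_empty a)⟩
    · have hu := chain_union (S0 := S) (E0 := E) (Subtype.val '' c) (hne.image _) (by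
        rintro _ ⟨p, hp, rfl⟩ _ ⟨q, hq, rfl⟩
        by_cases hpq : p = q
        · exact Or.inl (by rw [hpq])
        · rcases hc hp hq hpq with h | h
          · rcases h with h | h
            · exact absurd h hpq
            · exact Or.inr (Or.inl h)
          · rcases h with h | h
            · exact absurd h.symm hpq
            · exact Or.inr (Or.inr h)) (by
        rintro _ ⟨p, hp, rfl⟩
        exact p.2)
      obtain ⟨h1, h2, h3, h4, h5⟩ := hu
      refine ⟨⟨(⋃ p ∈ Subtype.val '' c, p.1, ⋃ p ∈ Subtype.val '' c, p.2), h1, h2, h3, h4⟩, ?_⟩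
      intro a ha
      exact Or.inr (h5 a.1 ⟨a, ha, rfl⟩)
  obtain ⟨m, hm⟩ := exists_maximal_of_chains_bounded hch htr
  obtain ⟨⟨S', E'⟩, hO', hG', hX', hA'⟩ := m
  simp only at hO' hG' hX' hA'
  refine ⟨S', E', alg_set_countable hS hG' hX'.2.2 hA', hX'.1, hO', hG', ?_, hX'.2.1, hX'.2.2⟩
  intro B F hD hGood
  have hExt : Ext S' E' (S' ∪ (↑B : Set V)) (E' ∪ (↑F : Set (Finset V))) :=
    ⟨Set.subset_union_left, fun e he => dem_old hD e he, dem_str hO' hD⟩
  have hOn : On (S' ∪ (↑B : Set V)) (E' ∪ (↑F : Set (Finset V))) := by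
    intro e he x hx
    rcases he with he | he
    · exact Or.inl (hO' e he x hx)
    · rcases hD.2.2.2.1 e he x hx with h | h
      · exact Or.inl h
      · exact Or.inr h
  have hq : On (S' ∪ (↑B : Set V)) (E' ∪ (↑F : Set (Finset V))) ∧
      Good (E' ∪ (↑F : Set (Finset V))) ∧
      Ext S E (S' ∪ (↑B : Set V)) (E' ∪ (↑F : Set (Finset V))) ∧
      Alg S (S' ∪ (↑B : Set V)) (E' ∪ (↑F : Set (Finset V))) :=
    ⟨hOn, hGood, ext_trans hO' hX' hExt, alg_step hO' hX'.1 hX'.2.2 hA' hD⟩
  have hr := hm ⟨(S' ∪ (↑B : Set V), E' ∪ (↑F : Set (Finset V))), hq⟩ (Or.inr hExt)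
  have hsub : S' ∪ (↑B : Set V) ⊆ S' := by
    rcases hr with h | h
    · have h1 := congrArg (fun p : X => p.1.1) h
      simp only at h1
      rw [h1]
    · exact h.1
  obtain ⟨x, hx⟩ := hD.1
  exact hD.2.1 x hx (hsub (Or.inr hx))

end Pool.Agent.Helper180.SMin
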