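import Mathlib
import Pool.Agent.Helper180.SMin.Base
import Pool.Agent.Helper180.SMin.JBasic
import Pool.Agent.Helper180.SMin.JStr

set_option autoImplicit false
open FirstOrder FirstOrder.Language
open scoped FirstOrder

namespace Pool.Agent.Helper180.SMin
open scoped Classical


theorem dl_of_no_edge {V : Type} {E : Set (Finset V)} (X : Finset V) (h : ∀ e ⊆ X, e ∉ E) :
    dl E X = X.card := by
  unfold dl en
  have h1 : X.powerset.filter (fun e => e ∈ E) = ∅ := by
    rw [Finset.filter_eq_empty_iff]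
    intro e he
    exact h e (Finset.mem_powerset.mp he)
  rw [h1]
  simp

theorem exists_big {V : Type} {E : Set (Finset V)} {P : Set V} {A : Finset V}
    (hA : Str E (↑A : Set V))
    (h : ∀ p ∈ P, ∃ Y : Finset V, insert p A ⊆ Y ∧ dl E Y ≤ dl E A) (Q : Finset V) :
    (↑Q : Set V) ⊆ P → ∃ Y : Finset V, A ⊆ Y ∧ Q ⊆ Y ∧ dl E Y ≤ dl E A := by
  induction Q using Finset.induction_on with
  | empty => intro _; exact ⟨A, subset_rfl, Finset.empty_subset _, le_rfl⟩
  | insert p Q hp ih =>
    intro hQ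
    obtain ⟨Y, hAY, hQY, hY⟩ := ih (fun x hx => hQ (by
      rw [Finset.coe_insert]; exact Set.mem_insert_of_mem _ hx))
    obtain ⟨Z, hpZ, hZ⟩ := h p (hQ (by simp))
    have hAZ : A ⊆ Z := (Finset.subset_insert p A).trans hpZ
    refine ⟨Y ∪ Z, hAY.trans Finset.subset_union_left, ?_, ?_⟩
    · intro x hx
      rw [Finset.mem_insert] at hx
      rcases hx with rfl | hx
      · exact Finset.mem_union_right _ (hpZ (Finset.mem_insert_self _ _))
      · exact Finset.mem_union_left _ (hQY hx)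
    · have h1 := dl_submod E Y Z
      have h2 := str_finite_iff.mp hA (Y ∩ Z) (Finset.subset_inter hAY hAZ)
      linarith

theorem infDim_of_indep {V : Type} {E : Set (Finset V)} (hE : Good E) {P S : Set V} (hP : P.Infinite)
    (hPS : P ⊆ S) (hs : Str E P) (hi : ∀ e ∈ E, ∃ x ∈ e, x ∉ P) : InfDim S E := by
  intro A hAS hA
  by_contra hcon
  push Not at hcon
  have h : ∀ p ∈ P, ∃ Y : Finset V, insert p A ⊆ Y ∧ dl E Y ≤ dl E A := by
    intro p hp
    have h1 := hcon p (hPS hp)
    by_cases hpA : p ∈ A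
    · exact ⟨A, by rw [Finset.insert_eq_of_mem hpA], le_rfl⟩
    · by_contra h2
      push Not at h2
      exact h1 ⟨hpA, fun Y hY => by have := h2 Y hY; linarith⟩
  obtain ⟨Q, hQP, hQc⟩ := hP.exists_subset_card_eq ((dl E A).toNat + 1)
  obtain ⟨Y, hAY, hQY, hY⟩ := exists_big hA h Q hQP
  have h3 := hs Y
  have h4 : dl E (Y.filter (fun x => x ∈ P)) = (Y.filter (fun x => x ∈ P)).card := by
    apply dl_of_no_edge
    intro e he heE
    obtain ⟨x, hx, hxP⟩ := hi e heE
    exact hxP (Finset.mem_filter.mp (he hx)).2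
  have h5 : Q ⊆ Y.filter (fun x => x ∈ P) := by
    intro x hx
    exact Finset.mem_filter.mpr ⟨hQY hx, hQP hx⟩
  have h6 := Finset.card_le_card h5
  have h7 : (dl E A) ≤ ((dl E A).toNat : ℤ) := Int.self_le_toNat _
  have h8 : ((Q.card : ℕ) : ℤ) ≤ ((Y.filter (fun x => x ∈ P)).card : ℤ) := by exact_mod_cast h6
  rw [hQc] at h8
  push_cast at h8
  linarith

end Pool.Agent.Helper180.SMin
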