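import Mathlib
import Pool.Agent.Helper180.SMin.Base
import Pool.Agent.Helper180.SMin.JAmalgp
import Pool.Agent.Helper180.SMin.JAmalgt

set_option autoImplicit false
open FirstOrder FirstOrder.Language
open scoped FirstOrder

namespace Pool.Agent.Helper180.SMin
open scoped Classical


theorem dem_single_7691 {V : Type} {S : Set V} {b : V} (hb : b ∉ S) (e0 : Finset V) (hbe : b ∈ e0)
    (he0 : ∀ x ∈ e0, x ∈ S ∨ x = b) : Dem S ({b} : Finset V) ({e0} : Finset (Finset V)) := by
  refine ⟨Finset.singleton_nonempty b, ?_, ?_, ?_, ?_, ?_⟩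
  · intro x hx
    rw [Finset.mem_singleton] at hx
    rw [hx]; exact hb
  · intro e he
    rw [Finset.mem_singleton] at he
    rw [he]
    exact ⟨b, hbe, Finset.mem_singleton_self b⟩
  · intro e he x hx
    rw [Finset.mem_singleton] at he
    rw [he] at hx
    rcases he0 x hx with h | h
    · exact Or.inl h
    · exact Or.inr (by rw [h]; exact Finset.mem_singleton_self b)
  · rw [Finset.card_singleton, Finset.card_singleton]
  · intro B' hB' hne hneq
    exact absurd (hne.subset_singleton_iff.mp hB') hneq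

theorem closed_partner {V : Type} {S : Set V} {E : Set (Finset V)} (hS : On S E) (hE : Good E) (hC : Closed S E)
    (hinf : ∃ b, b ∉ S) {x : V} (hx : x ∈ S) : ∃ y ∈ S, x ≠ y ∧ ({x, y} : Finset V) ∈ E := by
  obtain ⟨b, hb⟩ := hinf
  by_contra hcon
  push Not at hcon
  have hno : ∀ y, ({x, y} : Finset V) ∈ E → ({x, y} : Finset V).card ≠ 2 := by
    intro y hy hcard
    have hyS : y ∈ S := hS _ hy y (by simp)
    have hxy : x ≠ y := by
      rintro rfl
      simp at hcard
    exact hcon y hyS hxy hy
  have hgood := amalg_pair hS hE hx hb hno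
  refine hC _ _ (dem_single_7691 hb ({x, b} : Finset V) (by simp) ?_) hgood
  intro z hz
  rw [Finset.mem_insert, Finset.mem_singleton] at hz
  rcases hz with h | h
  · left; rw [h]; exact hx
  · right; exact h

theorem closed_cover {V : Type} {S : Set V} {E : Set (Finset V)} (hS : On S E) (hE : Good E) (hC : Closed S E)
    (hinf : ∃ b, b ∉ S) {x y : V} (hx : x ∈ S) (hy : y ∈ S) (hxy : x ≠ y) :
    ({x, y} : Finset V) ∈ E ∨ ∃ z ∈ S, ({x, y, z} : Finset V).card = 3 ∧ ({x, y, z} : Finset V) ∈ E := by
  obtain ⟨b, hb⟩ := hinf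
  by_contra hcon
  push Not at hcon
  obtain ⟨h2, h3⟩ := hcon
  have hno : ∀ z, ({x, y, z} : Finset V).card = 3 → ({x, y, z} : Finset V) ∉ E := by
    intro z hcard hmem
    have hzS : z ∈ S := hS _ hmem z (by simp)
    exact h3 z hzS hcard hmem
  have hgood := amalg_triple hS hE hx hy hxy hb h2 hno
  refine hC _ _ (dem_single_7691 hb ({x, y, b} : Finset V) (by simp) ?_) hgood
  intro z hz
  rw [Finset.mem_insert, Finset.mem_insert, Finset.mem_singleton] at hz
  rcases hz with h | h | h
  · left; rw [h]; exact hx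
  · left; rw [h]; exact hy
  · right; exact h

end Pool.Agent.Helper180.SMin
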