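import Mathlib
import Pool.Agent.Helper180.SMin.Base
import Pool.Agent.Helper180.SMin.JBasic
import Pool.Agent.Helper180.SMin.JExtc

set_option autoImplicit false
open FirstOrder FirstOrder.Language
open scoped FirstOrder

namespace Pool.Agent.Helper180.SMin
open scoped Classical



theorem partner_unique {V : Type} {E : Set (Finset V)} (hE : Good E) {x y z : V} (hxy : x ≠ y) (hxz : x ≠ z)
    (h : ({x, y} : Finset V) ∈ E) (h' : ({x, z} : Finset V) ∈ E) : y = z := by
  by_contra hyz
  let T : Finset (Finset (Fin 1 ⊕ Fin 1)) := {{Sum.inl 0, Sum.inr 0}}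
  have hT : TGood 1 1 T := by
    refine ⟨by norm_num, by simp [T], ?_, ?_, ?_⟩
    · intro e he
      rw [Finset.mem_singleton] at he
      exact ⟨0, by rw [he]; simp⟩
    · intro i
      refine ⟨{Sum.inl 0, Sum.inr 0}, by simp [T], ?_⟩
      have : i = 0 := Subsingleton.elim _ _
      rw [this]; simp
    · intro B hB hB'
      exfalso
      apply hB'
      obtain ⟨b, hb⟩ := hB
      ext c
      have : c = b := Subsingleton.elim _ _
      rw [this]
      exact ⟨fun _ => Finset.mem_univ _, fun _ => hb⟩
  let g : Fin (1 + 1) → (Fin 1 ⊕ Fin 1 ↪ V) := fun i =>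
    ⟨fun s => s.elim (fun _ => x) (fun _ => if i = 0 then y else z), by
      intro a b hab
      rcases a with a | a <;> rcases b with b | b
      · exact congrArg _ (Subsingleton.elim _ _)
      · exfalso
        simp only [Sum.elim_inl, Sum.elim_inr] at hab
        split_ifs at hab
        · exact hxy hab
        · exact hxz hab
      · exfalso
        simp only [Sum.elim_inl, Sum.elim_inr] at hab
        split_ifs at hab
        · exact hxy hab.symm
        · exact hxz hab.symm
      · exact congrArg _ (Subsingleton.elim _ _)⟩
  have hgl : ∀ i a, g i (Sum.inl a) = x := fun i a => rfl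
  have hgr : ∀ i a, g i (Sum.inr a) = if i = 0 then y else z := fun i a => rfl
  obtain ⟨i, j, hij, a, b, hab⟩ := hE.bound 1 1 T hT g (by
    intro i e he
    rw [Finset.mem_singleton] at he
    rw [he, Finset.map_insert, Finset.map_singleton, hgl, hgr]
    split_ifs
    · exact h
    · exact h') (by intro i j x'; rw [hgl, hgl])
  rw [hgr, hgr] at hab
  by_cases hi : i = 0
  · by_cases hj : j = 0
    · exact hij (hi.trans hj.symm)
    · rw [if_pos hi, if_neg hj] at hab
      exact hyz hab
  · by_cases hj : j = 0
    · rw [if_neg hi, if_pos hj] at hab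
      exact hyz hab.symm
    · apply hij
      omega

theorem good_empty {V : Type} : Good (∅ : Set (Finset V)) where
  card := by intro e he; exact absurd he (Set.notMem_empty _)
  excl := by intro e he; exact absurd he (Set.notMem_empty _)
  nonneg := by
    intro X
    unfold dl en
    simp
  bound := by
    intro n k T hT g hg _
    exfalso
    obtain ⟨hk, hc, -⟩ := hT
    have hne : T.Nonempty := by
      rw [← Finset.card_pos]; omega
    obtain ⟨e, he⟩ := hne
    exact Set.notMem_empty _ (hg 0 e he)

theorem base_exists {V : Type} (hV : ¬ (Set.univ : Set V).Countable) :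
    ∃ (P SM : Set V) (EM : Set (Finset V)), P.Infinite ∧ P ⊆ SM ∧ SM.Countable ∧ On SM EM ∧ Good EM ∧
      Closed SM EM ∧ Str EM P ∧ ∀ e ∈ EM, ∃ x ∈ e, x ∉ P := by
  have hinf : Infinite V := by
    by_contra hfin
    rw [not_infinite_iff_finite] at hfin
    exact hV (Set.toFinite _).countable
  let f : ℕ ↪ V := Infinite.natEmbedding V
  have hPi : (Set.range f).Infinite := Set.infinite_range_of_injective f.injective
  have hPc : (Set.range f).Countable := Set.countable_range f
  obtain ⟨S', E', h1, h2, h3, h4, h5, h6, h7⟩ := ext_closed hV hPc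
    (E := (∅ : Set (Finset V))) (by intro e he; exact absurd he (Set.notMem_empty _)) good_empty
  refine ⟨Set.range f, S', E', hPi, h2, h1, h3, h4, h5, h7, ?_⟩
  intro e he
  by_contra hno
  push Not at hno
  exact Set.notMem_empty _ ((h6 e hno).1 he)

end Pool.Agent.Helper180.SMin
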