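import Mathlib
import Pool.Agent.Helper180.SMin.Base
import Pool.Agent.Helper180.SMin.JBasic
import Pool.Agent.Helper180.SMin.JStr
import Pool.Agent.Helper180.SMin.JComap
import Pool.Agent.Helper180.SMin.JDem
import Pool.Agent.Helper180.SMin.JAmalgt
import Pool.Agent.Helper180.SMin.JClosedpc
import Pool.Agent.Helper180.SMin.JExtt
import Pool.Agent.Helper180.SMin.JExtc
import Pool.Agent.Helper180.SMin.JPbase

set_option autoImplicit false
open FirstOrder FirstOrder.Language
open scoped FirstOrder

namespace Pool.Agent.Helper180.SMin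
open scoped Classical


theorem kill_step {V : Type} (hV : ¬ (Set.univ : Set V).Countable) {SM S : Set V} {EM E : Set (Finset V)}
    (hS : S.Countable) (hO : On S E) (hE : Good E) (hC : Closed S E) (hOM : On SM EM) (hM : SM ⊆ S)
    (hME : ∀ e : Finset V, (∀ x ∈ e, x ∈ SM) → (e ∈ E ↔ e ∈ EM)) (hs : Str E SM) {a : V} (ha : a ∈ S) (haM : a ∉ SM) :
    ∃ (S' : Set V) (E' : Set (Finset V)), S'.Countable ∧ On S' E' ∧ Good E' ∧ Closed S' E' ∧ S ⊆ S' ∧
      (∀ e : Finset V, e.card = 3 → (∀ x ∈ e, x ∈ S) → (e ∈ E' ↔ e ∈ E)) ∧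
      (∀ e : Finset V, (∀ x ∈ e, x ∈ SM) → (e ∈ E' ↔ e ∈ EM)) ∧ Str E' SM ∧
      (∀ y ∈ S, a ≠ y → ∃ z ∈ S', ({a, y, z} : Finset V).card = 3 ∧ ({a, y, z} : Finset V) ∈ E') := by
  have hex : ∃ z, z ∉ S := by
    by_contra hcon
    push Not at hcon
    exact hV (hS.mono (fun x _ => hcon x))
  obtain ⟨z, hz⟩ := hex
  obtain ⟨a', ha', hne, hpE⟩ := closed_partner hO hE hC ⟨z, hz⟩ ha
  have hza : z ≠ a := fun h => hz (h ▸ ha)
  have hza' : z ≠ a' := fun h => hz (h ▸ ha')
  have hc2 : ({a, a'} : Finset V).card = 2 := Finset.card_pair hne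
  have hc3 : ({a, a', z} : Finset V).card = 3 := by
    rw [Finset.card_eq_three]
    exact ⟨a, a', z, hne, hza.symm, hza'.symm, rfl⟩
  obtain ⟨E0, hE0⟩ : ∃ E0 : Set (Finset V), ∀ e, e ∈ E0 ↔ e ∈ E ∧ e ≠ {a, a'} :=
    ⟨E \ {({a, a'} : Finset V)}, fun e => by simp⟩
  have hE0E : E0 ⊆ E := fun e he => ((hE0 e).1 he).1
  have hG0 : Good E0 := good_mono hE hE0E
  have hO0 : On S E0 := fun e he => hO e (hE0E he)
  obtain ⟨F, hF⟩ : ∃ F : Finset (Finset V), F = {({a, a', z} : Finset V)} := ⟨_, rfl⟩
  have hG1 : Good (E0 ∪ (↑F : Set (Finset V))) := by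
    rw [hF]
    refine amalg_triple hO0 hG0 ha ha' hne hz (fun h => ((hE0 _).1 h).2 rfl) (fun w hw hw' => ?_)
    refine hE.excl _ hpE _ (hE0E hw') hc2 hw ?_
    intro x hx
    simp only [Finset.mem_insert, Finset.mem_singleton] at hx ⊢
    tauto
  have hDem : Dem S {z} F := by
    refine ⟨Finset.singleton_nonempty z, ?_, ?_, ?_, ?_, ?_⟩
    · intro x hx
      rw [Finset.mem_singleton] at hx
      rw [hx]; exact hz
    · intro e he
      rw [hF, Finset.mem_singleton] at he
      exact ⟨z, by rw [he]; simp, by simp⟩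
    · intro e he x hx
      rw [hF, Finset.mem_singleton] at he
      rw [he] at hx
      simp only [Finset.mem_insert, Finset.mem_singleton] at hx ⊢
      rcases hx with rfl | rfl | rfl
      · left; exact ha
      · left; exact ha'
      · right; rfl
    · rw [hF]; simp
    · intro B' hB' hn hne'
      exact absurd (Finset.Subset.antisymm hB' (by
        intro x hx
        rw [Finset.mem_singleton] at hx
        obtain ⟨y, hy⟩ := hn
        have := hB' hy
        rw [Finset.mem_singleton] at this
        rw [hx, ← this]; exact hy)) hne'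
  obtain ⟨E1, hE1⟩ : ∃ E1 : Set (Finset V), E1 = E0 ∪ (↑F : Set (Finset V)) := ⟨_, rfl⟩
  have hold : ∀ e : Finset V, (∀ x ∈ e, x ∈ S) → (e ∈ E1 ↔ e ∈ E0) := by
    intro e he
    rw [hE1]
    exact dem_old hDem e he
  have hO1 : On (insert z S) E1 := by
    intro e he x hx
    rw [hE1] at he
    rcases he with he | he
    · right; exact hO0 e he x hx
    · rw [hF] at he
      simp only [Finset.coe_singleton, Set.mem_singleton_iff] at he
      rw [he] at hx
      simp only [Finset.mem_insert, Finset.mem_singleton] at hx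
      rcases hx with rfl | rfl | rfl
      · right; exact ha
      · right; exact ha'
      · left; rfl
  rw [← hE1] at hG1
  obtain ⟨S', E', h1, h2, h3, h4, h5, h6, h7⟩ :=
    ext_closed hV (hS.insert z) hO1 hG1
  have hSS1 : S ⊆ insert z S := Set.subset_insert z S
  have hSS' : S ⊆ S' := hSS1.trans h2
  have hag : ∀ e : Finset V, (∀ x ∈ e, x ∈ S) → (e ∈ E' ↔ e ∈ E ∧ e ≠ {a, a'}) := by
    intro e he
    rw [h6 e (fun x hx => hSS1 (he x hx)), hold e he, hE0]
  have hthree : ∀ e : Finset V, e.card = 3 → (∀ x ∈ e, x ∈ S) → (e ∈ E' ↔ e ∈ E) := by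
    intro e hc he
    rw [hag e he]
    refine and_iff_left ?_
    rintro rfl
    omega
  have hSM0 : ∀ e : Finset V, (∀ x ∈ e, x ∈ SM) → (e ∈ E0 ↔ e ∈ E) := by
    intro e he
    rw [hE0]
    refine and_iff_left ?_
    rintro rfl
    exact haM (he a (by simp))
  refine ⟨S', E', h1, h3, h4, h5, hSS', hthree, ?_, ?_, ?_⟩
  · intro e he
    rw [hag e (fun x hx => hM (he x hx)), ← hE0, hSM0 e he, hME e he]
  · have s0 : Str E0 SM := by
      intro Y
      have e1 : dl E0 (Y.filter (fun x => x ∈ SM)) = dl E (Y.filter (fun x => x ∈ SM)) := by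
        apply dl_congr
        intro e he
        apply hSM0
        intro x hx
        exact (Finset.mem_filter.1 (he hx)).2
      have e2 := hs Y
      have e3 : dl E Y ≤ dl E0 Y := by
        unfold dl
        have := en_mono hE0E Y
        have h' : (en E0 Y : ℤ) ≤ en E Y := by exact_mod_cast this
        linarith
      rw [e1]
      exact e2.trans e3
    have s1 : Str E1 S := by
      rw [hE1]; exact dem_str hO0 hDem
    have s2 : Str E1 SM := str_trans hM hO0 hold s1 s0
    exact str_trans (hM.trans hSS1) hO1 h6 h7 s2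
  · intro y hy hay
    rcases closed_cover hO hE hC ⟨z, hz⟩ ha hy hay with h | ⟨w, hw, hw3, hwE⟩
    · have hya : y = a' := partner_unique hE hay hne h hpE
      subst hya
      refine ⟨z, h2 (Set.mem_insert z S), hc3, ?_⟩
      rw [h6]
      · rw [hE1, hF]
        right
        simp
      · intro x hx
        simp only [Finset.mem_insert, Finset.mem_singleton] at hx
        rcases hx with rfl | rfl | rfl
        · right; exact ha
        · right; exact hy
        · left; rfl
    · refine ⟨w, hSS' hw, hw3, ?_⟩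
      rw [hthree _ hw3]
      · exact hwE
      · intro x hx
        simp only [Finset.mem_insert, Finset.mem_singleton] at hx
        rcases hx with rfl | rfl | rfl
        · exact ha
        · exact hy
        · exact hw

end Pool.Agent.Helper180.SMin
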