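import Mathlib
import Pool.Agent.Helper180.SMin.Base
import Pool.Agent.Helper180.SMin.JBasic
import Pool.Agent.Helper180.SMin.JStr
import Pool.Agent.Helper180.SMin.JExtc
import Pool.Agent.Helper180.SMin.JInfd
import Pool.Agent.Helper180.SMin.JPbase
import Pool.Agent.Helper180.SMin.JKill

set_option autoImplicit false
open FirstOrder FirstOrder.Language
open scoped FirstOrder

namespace Pool.Agent.Helper180.SMin
open scoped Classical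


theorem chain_exists : ∃ (V : Type) (SM : Set V) (EM : Set (Finset V)) (S : ℕ → Set V) (E : ℕ → Set (Finset V)) (a : V),
    (SM.Infinite ∧ SMᶜ.Infinite ∧ On SM EM ∧ Good EM ∧ Closed SM EM ∧ InfDim SM EM) ∧
    (∀ i, (S i)ᶜ.Infinite ∧ On (S i) (E i) ∧ Good (E i) ∧ Closed (S i) (E i) ∧ InfDim (S i) (E i) ∧
      SM ⊆ S i ∧ (∀ e : Finset V, (∀ x ∈ e, x ∈ SM) → (e ∈ E i ↔ e ∈ EM)) ∧ Str (E i) SM) ∧
    (∀ i, S i ⊆ S (i + 1)) ∧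
    (∀ i, ∀ e : Finset V, e.card = 3 → (∀ x ∈ e, x ∈ S i) → (e ∈ E (i + 1) ↔ e ∈ E i)) ∧
    a ∈ S 0 ∧
    (∀ i, ∀ y ∈ S i, a ≠ y → ∃ z ∈ S (i + 1), ({a, y, z} : Finset V).card = 3 ∧ ({a, y, z} : Finset V) ∈ E (i + 1)) := by
  have hV : ¬ (Set.univ : Set ℝ).Countable := Cardinal.not_countable_real
  obtain ⟨P, SM, EM, hPi, hPSM, hSMc, hOM, hGM, hCM, hsP, hiP⟩ := base_exists hV
  have hcompl : ∀ s : Set ℝ, s.Countable → sᶜ.Infinite := by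
    intro s hs hfin
    apply hV
    rw [← Set.union_compl_self s]
    exact hs.union hfin.countable
  obtain ⟨a, ha⟩ : ∃ a, a ∉ SM := (hcompl SM hSMc).nonempty
  have hStrM : Str EM SM := by
    intro Y
    rw [dl_off hOM Y]
    omega
  have hOM' : On (insert a SM) EM := fun e he x hx => Set.mem_insert_of_mem _ (hOM e he x hx)
  obtain ⟨S0, E0, c1, c2, c3, c4, c5, c6, c7⟩ := ext_closed hV (hSMc.insert a) hOM' hGM
  have hsub : SM ⊆ insert a SM := Set.subset_insert _ _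
  have c8 : Str E0 SM := str_trans hsub hOM' c6 c7 hStrM
  let Good' : Set ℝ × Set (Finset ℝ) → Prop := fun p => p.1.Countable ∧ On p.1 p.2 ∧ Good p.2 ∧
    Closed p.1 p.2 ∧ SM ⊆ p.1 ∧ (∀ e : Finset ℝ, (∀ x ∈ e, x ∈ SM) → (e ∈ p.2 ↔ e ∈ EM)) ∧
    Str p.2 SM ∧ a ∈ p.1
  have step : ∀ s : {p // Good' p}, ∃ s' : {p // Good' p}, s.1.1 ⊆ s'.1.1 ∧
      (∀ e : Finset ℝ, e.card = 3 → (∀ x ∈ e, x ∈ s.1.1) → (e ∈ s'.1.2 ↔ e ∈ s.1.2)) ∧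
      (∀ y ∈ s.1.1, a ≠ y → ∃ z ∈ s'.1.1, ({a, y, z} : Finset ℝ).card = 3 ∧
        ({a, y, z} : Finset ℝ) ∈ s'.1.2) := by
    rintro ⟨⟨S, E⟩, g1, g2, g3, g4, g5, g6, g7, g8⟩
    obtain ⟨S', E', k1, k2, k3, k4, k5, k6, k7, k8, k9⟩ :=
      kill_step hV g1 g2 g3 g4 hOM g5 g6 g7 g8 ha
    exact ⟨⟨⟨S', E'⟩, k1, k2, k3, k4, g5.trans k5, k7, k8, k5 g8⟩, k5, k6, k9⟩
  choose next h1 h2 h3 using step
  let s0 : {p // Good' p} := ⟨⟨S0, E0⟩, c1, c3, c4, c5, hsub.trans c2,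
    fun e he => c6 e (fun x hx => hsub (he x hx)), c8, c2 (Set.mem_insert _ _)⟩
  let sq : ℕ → {p // Good' p} := fun n => Nat.rec s0 (fun _ s => next s) n
  have hsucc : ∀ n, sq (n + 1) = next (sq n) := fun _ => rfl
  refine ⟨ℝ, SM, EM, fun n => (sq n).1.1, fun n => (sq n).1.2, a, ?_, ?_, ?_, ?_, ?_, ?_⟩
  · exact ⟨hPi.mono hPSM, hcompl SM hSMc, hOM, hGM, hCM, infDim_of_indep hGM hPi hPSM hsP hiP⟩
  · intro i
    obtain ⟨g1, g2, g3, g4, g5, g6, g7, g8⟩ := (sq i).2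
    refine ⟨hcompl _ g1, g2, g3, g4, ?_, g5, g6, g7⟩
    refine infDim_of_indep g3 hPi (hPSM.trans g5) (str_trans hPSM hOM g6 g7 hsP) fun e he => ?_
    by_contra hcon
    push Not at hcon
    obtain ⟨x, hx, hxP⟩ := hiP e ((g6 e (fun x hx => hPSM (hcon x hx))).1 he)
    exact hxP (hcon x hx)
  · intro i
    show (sq i).1.1 ⊆ (sq (i + 1)).1.1
    rw [hsucc]
    exact h1 _
  · intro i
    show ∀ e : Finset ℝ, e.card = 3 → (∀ x ∈ e, x ∈ (sq i).1.1) →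
      (e ∈ (sq (i + 1)).1.2 ↔ e ∈ (sq i).1.2)
    rw [hsucc]
    exact h2 _
  · exact (sq 0).2.2.2.2.2.2.2.2
  · intro i
    show ∀ y ∈ (sq i).1.1, a ≠ y → ∃ z ∈ (sq (i + 1)).1.1, ({a, y, z} : Finset ℝ).card = 3 ∧
        ({a, y, z} : Finset ℝ) ∈ (sq (i + 1)).1.2
    rw [hsucc]
    exact h3 _

end Pool.Agent.Helper180.SMin
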