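import Mathlib
import Pool.Agent.Helper180.SMin.Base

set_option autoImplicit false
open FirstOrder FirstOrder.Language
open scoped FirstOrder

namespace Pool.Agent.Helper180.SMin
open scoped Classical


theorem rd_mem_newE {V : Type} {m k : ℕ} {G : Finset (Finset (Fin m ⊕ Fin k))} {g0 : Fin m ⊕ Fin k ↪ V}
    {f : Finset V} : f ∈ newE G g0 ↔ ∃ e ∈ G, (∃ j, Sum.inr j ∈ e) ∧ e.map g0 = f := by
  unfold newE
  rw [Finset.mem_image]
  constructor
  · rintro ⟨e, he, rfl⟩
    rw [Finset.mem_filter] at he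
    exact ⟨e, he.1, he.2, rfl⟩
  · rintro ⟨e, he, hj, rfl⟩
    exact ⟨e, Finset.mem_filter.mpr ⟨he, hj⟩, rfl⟩

theorem rd_mem_B {V : Type} {m k : ℕ} {g0 : Fin m ⊕ Fin k ↪ V} {x : V} :
    x ∈ (Finset.univ.image (fun j : Fin k => g0 (Sum.inr j))) ↔ ∃ j : Fin k, g0 (Sum.inr j) = x := by
  simp

theorem rd_inj {V : Type} {m k : ℕ} (g0 : Fin m ⊕ Fin k ↪ V) :
    Function.Injective (fun j : Fin k => g0 (Sum.inr j)) := by
  intro a b h
  exact Sum.inr_injective (g0.injective h)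

theorem rich_dem {V : Type} {S : Set V} {m k : ℕ} {G : Finset (Finset (Fin m ⊕ Fin k))} {g0 : Fin m ⊕ Fin k ↪ V}
    (hk : 0 < k) (hM : MinExt m k G) (h1 : ∀ i, g0 (Sum.inl i) ∈ S) (h2 : ∀ j, g0 (Sum.inr j) ∉ S) :
    Dem S (Finset.univ.image (fun j => g0 (Sum.inr j))) (newE G g0) := by
  refine ⟨?_, ?_, ?_, ?_, ?_, ?_⟩
  · exact ⟨g0 (Sum.inr ⟨0, hk⟩), rd_mem_B.mpr ⟨⟨0, hk⟩, rfl⟩⟩
  · intro x hx
    obtain ⟨j, rfl⟩ := rd_mem_B.mp hx
    exact h2 j
  · intro e he
    obtain ⟨e', -, ⟨j, hj⟩, rfl⟩ := rd_mem_newE.mp he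
    exact ⟨g0 (Sum.inr j), Finset.mem_map_of_mem g0 hj, rd_mem_B.mpr ⟨j, rfl⟩⟩
  · intro e he x hx
    obtain ⟨e', -, -, rfl⟩ := rd_mem_newE.mp he
    obtain ⟨y, hy, rfl⟩ := Finset.mem_map.mp hx
    rcases y with i | j
    · exact Or.inl (h1 i)
    · exact Or.inr (rd_mem_B.mpr ⟨j, rfl⟩)
  · unfold newE
    rw [Finset.card_image_of_injective _ (Finset.map_injective g0), hM.1,
      Finset.card_image_of_injective _ (rd_inj g0), Finset.card_univ, Fintype.card_fin]
  · intro B' hB' hne hneq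
    set B'' : Finset (Fin k) := Finset.univ.filter (fun j => g0 (Sum.inr j) ∈ B') with hB''
    have himg : B''.image (fun j => g0 (Sum.inr j)) = B' := by
      ext x
      rw [Finset.mem_image]
      constructor
      · rintro ⟨j, hj, rfl⟩
        rw [hB'', Finset.mem_filter] at hj
        exact hj.2
      · intro hx
        obtain ⟨j, rfl⟩ := rd_mem_B.mp (hB' hx)
        exact ⟨j, by rw [hB'', Finset.mem_filter]; exact ⟨Finset.mem_univ _, hx⟩, rfl⟩
    have hcard : B''.card = B'.card := by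
      rw [← himg, Finset.card_image_of_injective _ (rd_inj g0)]
    have hne'' : B''.Nonempty := by
      rw [← Finset.card_pos, hcard, Finset.card_pos]; exact hne
    have hneq'' : B'' ≠ Finset.univ := by
      intro h
      apply hneq
      rw [← himg, h]
    have h3 := hM.2 B'' hne'' hneq''
    rw [← hcard]
    refine lt_of_le_of_lt ?_ h3
    refine le_trans (Finset.card_le_card (t := (G.filter (fun e => (∃ j, Sum.inr j ∈ e) ∧
      ∀ j, Sum.inr j ∈ e → j ∈ B'')).image (fun e => e.map g0)) ?_) Finset.card_image_le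
    intro f hf
    rw [Finset.mem_filter] at hf
    obtain ⟨hf1, hf2⟩ := hf
    obtain ⟨e, he, hj, rfl⟩ := rd_mem_newE.mp hf1
    rw [Finset.mem_image]
    refine ⟨e, ?_, rfl⟩
    rw [Finset.mem_filter]
    refine ⟨he, hj, ?_⟩
    intro j hje
    rw [hB'', Finset.mem_filter]
    exact ⟨Finset.mem_univ _, hf2 _ (Finset.mem_map_of_mem g0 hje) (rd_mem_B.mpr ⟨j, rfl⟩)⟩

theorem rich_edges {V : Type} {S : Set V} {E : Set (Finset V)} (hE : On S E) {m k : ℕ}
    {G : Finset (Finset (Fin m ⊕ Fin k))} {g0 : Fin m ⊕ Fin k ↪ V}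
    (h1 : ∀ i, g0 (Sum.inl i) ∈ S) (h2 : ∀ j, g0 (Sum.inr j) ∉ S)
    (hp : ∀ e : Finset (Fin m), e.map Function.Embedding.inl ∈ G ↔ (e.map Function.Embedding.inl).map g0 ∈ E)
    (e : Finset (Fin m ⊕ Fin k)) :
    e.map g0 ∈ E ∪ (↑(newE G g0) : Set (Finset V)) ↔ e ∈ G := by
  have hnew : e.map g0 ∈ newE G g0 ↔ (e ∈ G ∧ ∃ j, Sum.inr j ∈ e) := by
    rw [rd_mem_newE]
    constructor
    · rintro ⟨e', he', hj, h⟩
      have := Finset.map_injective g0 h
      subst this
      exact ⟨he', hj⟩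
    · rintro ⟨he, hj⟩
      exact ⟨e, he, hj, rfl⟩
  rw [Set.mem_union, Finset.mem_coe, hnew]
  by_cases hj : ∃ j, Sum.inr j ∈ e
  · have hnot : e.map g0 ∉ E := by
      intro h
      obtain ⟨j, hje⟩ := hj
      exact h2 j (hE _ h _ (Finset.mem_map_of_mem g0 hje))
    constructor
    · rintro (h | h)
      · exact absurd h hnot
      · exact h.1
    · intro h
      exact Or.inr ⟨h, hj⟩
  · have hform : e = (Finset.univ.filter (fun i : Fin m => (Sum.inl i : Fin m ⊕ Fin k) ∈ e)).map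
        Function.Embedding.inl := by
      ext x
      rw [Finset.mem_map]
      constructor
      · intro hx
        rcases x with i | j
        · exact ⟨i, by rw [Finset.mem_filter]; exact ⟨Finset.mem_univ _, hx⟩, rfl⟩
        · exact absurd ⟨j, hx⟩ hj
      · rintro ⟨i, hi, rfl⟩
        rw [Finset.mem_filter] at hi
        exact hi.2
    have h3 := hp (Finset.univ.filter (fun i : Fin m => (Sum.inl i : Fin m ⊕ Fin k) ∈ e))
    rw [← hform] at h3
    constructor
    · rintro (h | h)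
      · exact h3.mpr h
      · exact h.1
    · intro h
      exact Or.inl (h3.mp h)

end Pool.Agent.Helper180.SMin
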