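import Mathlib
import Pool.Agent.Helper180.SMin.Base
import Pool.Agent.Helper180.SMin.JBasic
import Pool.Agent.Helper180.SMin.JStr
import Pool.Agent.Helper180.SMin.JCount
import Pool.Agent.Helper180.SMin.JDem
import Pool.Agent.Helper180.SMin.JRichdem

set_option autoImplicit false
open FirstOrder FirstOrder.Language
open scoped FirstOrder

namespace Pool.Agent.Helper180.SMin
open scoped Classical


theorem h845_cover {n k : ℕ} {T : Finset (Finset (Fin n ⊕ Fin k))} (hT : TGood n k T) (j : Fin k) :
    ∃ e ∈ T, Sum.inr j ∈ e := by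
  obtain ⟨hk, hcard, hmeet, hbase, hmin⟩ := hT
  by_contra hno
  push Not at hno
  by_cases hB : (Finset.univ.erase j).Nonempty
  · have h1 := hmin (Finset.univ.erase j) hB (by
      intro h
      have : j ∈ Finset.univ.erase j := by rw [h]; exact Finset.mem_univ j
      simp at this)
    have h2 : T.filter (fun e => ∀ j', Sum.inr j' ∈ e → j' ∈ Finset.univ.erase j) = T := by
      apply Finset.filter_true_of_mem
      intro e he j' hj'
      rw [Finset.mem_erase]
      refine ⟨?_, Finset.mem_univ _⟩
      rintro rfl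
      exact hno e he hj'
    rw [h2, hcard, Finset.card_erase_of_mem (Finset.mem_univ j), Finset.card_univ, Fintype.card_fin] at h1
    omega
  · rw [Finset.not_nonempty_iff_eq_empty] at hB
    have hT0 : T.Nonempty := by rw [← Finset.card_pos, hcard]; exact hk
    obtain ⟨e, he⟩ := hT0
    obtain ⟨j', hj'⟩ := hmeet e he
    have : j' = j := by
      by_contra hne
      have : j' ∈ Finset.univ.erase j := Finset.mem_erase.2 ⟨hne, Finset.mem_univ _⟩
      rw [hB] at this
      simp at this
    subst this
    exact hno e he hj'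

theorem h845_en_add {V : Type} (E : Set (Finset V)) (A Y : Finset V) (hAY : A ⊆ Y)
    (H : Finset (Finset V)) (hH : ∀ e ∈ H, e ∈ E ∧ e ⊆ Y ∧ ¬ e ⊆ A) :
    en E A + H.card ≤ en E Y := by
  unfold en
  have hdisj : Disjoint (A.powerset.filter (fun e => e ∈ E)) H := by
    rw [Finset.disjoint_left]
    intro e he heH
    rw [Finset.mem_filter, Finset.mem_powerset] at he
    exact (hH e heH).2.2 he.1
  rw [← Finset.card_union_of_disjoint hdisj]
  apply Finset.card_le_card
  intro e he
  rw [Finset.mem_union] at he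
  rw [Finset.mem_filter, Finset.mem_powerset]
  rcases he with he | he
  · rw [Finset.mem_filter, Finset.mem_powerset] at he
    exact ⟨he.1.trans hAY, he.2⟩
  · exact ⟨(hH e he).2.1, (hH e he).1⟩

theorem rich_case1 {V : Type} {S : Set V} {E : Set (Finset V)} (hO : On S E) (hE : Good E) {m k : ℕ}
    {G : Finset (Finset (Fin m ⊕ Fin k))} (hk : 0 < k) (hG : Good (↑G : Set (Finset (Fin m ⊕ Fin k))))
    (hM : MinExt m k G) {g0 : Fin m ⊕ Fin k ↪ V}
    (h1 : ∀ i, g0 (Sum.inl i) ∈ S) (h2 : ∀ j, g0 (Sum.inr j) ∉ S)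
    (hp : ∀ e : Finset (Fin m), e.map Function.Embedding.inl ∈ G ↔ (e.map Function.Embedding.inl).map g0 ∈ E)
    (hK : KStr E k (Finset.univ.image (fun i => g0 (Sum.inl i))))
    {n k' : ℕ} {T : Finset (Finset (Fin n ⊕ Fin k'))} (hT : TGood n k' T)
    (g : Fin (n + 1) → (Fin n ⊕ Fin k' ↪ V))
    (hg : ∀ i, ∀ e ∈ T, e.map (g i) ∈ E ∪ (↑(newE G g0) : Set (Finset V)))
    (hb : ∀ i j x, g i (Sum.inl x) = g j (Sum.inl x))
    (hd : ∀ i j, i ≠ j → ∀ x y, g i (Sum.inr x) ≠ g j (Sum.inr y))
    (hx : ∀ x, g 0 (Sum.inl x) ∈ S) :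
    ∃ g' : Fin m ⊕ Fin k ↪ V, (∀ i, g' (Sum.inl i) = g0 (Sum.inl i)) ∧ (∀ j, g' (Sum.inr j) ∈ S) ∧
      ∀ e, e ∈ G ↔ e.map g' ∈ E := by
  set F := newE G g0 with hF
  set A : Finset V := Finset.univ.image (fun i => g0 (Sum.inl i)) with hA
  set B : Finset V := Finset.univ.image (fun j => g0 (Sum.inr j)) with hBdef
  have hDem : Dem S B F := rich_dem hk hM h1 h2
  have hStr : Str (E ∪ (↑F : Set (Finset V))) S := dem_str hO hDem
  have hTc := hT
  obtain ⟨hk', hTcard, hTmeet, hTbase, hTmin⟩ := hT
  have hb0 : ∀ i x, g i (Sum.inl x) = g 0 (Sum.inl x) := fun i x => hb i 0 x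
  have hinlS : ∀ i x, g i (Sum.inl x) ∈ S := fun i x => by rw [hb0]; exact hx x
  obtain ⟨hBne, hBS, hFmeet, hFin, hFcard, hFmin⟩ := hDem
  have hDem' : Dem S B F := ⟨hBne, hBS, hFmeet, hFin, hFcard, hFmin⟩
  have hBcard : B.card = k := by
    rw [hBdef, Finset.card_image_of_injective _ (fun a b hab => Sum.inr_injective (g0.injective hab)), Finset.card_univ, Fintype.card_fin]
  -- (1) dichotomy
  have hdich : ∀ i, (∀ x, g i (Sum.inr x) ∈ S) ∨ (∀ x, g i (Sum.inr x) ∉ S) := by
    have hc := count_strong hStr hTc (Finset.univ.filter (fun i => (∃ x, g i (Sum.inr x) ∈ S) ∧ (∃ x, g i (Sum.inr x) ∉ S))) g (fun x => g 0 (Sum.inl x))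
      (fun i _ x => hb0 i x) (fun i _ => hg i) (fun i _ j _ hij => hd i j hij)
      (fun i hi => by
        rw [Finset.mem_filter] at hi
        exact ⟨hi.2.1, Or.inl hi.2.2⟩)
    have h0 : ((Finset.univ.image (fun x => g 0 (Sum.inl x))).filter (fun x => x ∉ S)) = ∅ := by
      apply Finset.filter_false_of_mem
      intro y hy
      obtain ⟨x, _, rfl⟩ := Finset.mem_image.1 hy
      simpa using hx x
    rw [h0, Finset.card_empty, Nat.le_zero, Finset.card_eq_zero] at hc
    intro i
    by_contra hcon
    push Not at hcon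
    have : i ∈ Finset.univ.filter (fun i => (∃ x, g i (Sum.inr x) ∈ S) ∧ (∃ x, g i (Sum.inr x) ∉ S)) := by
      rw [Finset.mem_filter]
      exact ⟨Finset.mem_univ _, hcon.2, hcon.1⟩
    rw [hc] at this
    simp at this
  -- edges inside S are old
  have hold : ∀ i, (∀ x, g i (Sum.inr x) ∈ S) → ∀ e ∈ T, e.map (g i) ∈ E := by
    intro i hi e he
    refine (dem_old hDem' (e.map (g i)) ?_).1 (hg i e he)
    intro y hy
    obtain ⟨w, _, rfl⟩ := Finset.mem_map.1 hy
    rcases w with x | x
    · exact hinlS i x
    · exact hi x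
  obtain ⟨i0, hi0⟩ : ∃ i0, ∀ x, g i0 (Sum.inr x) ∉ S := by
    by_contra hno
    push Not at hno
    have hall : ∀ i, ∀ x, g i (Sum.inr x) ∈ S := by
      intro i
      rcases hdich i with h | h
      · exact h
      · obtain ⟨x, hx'⟩ := hno i
        exact absurd hx' (h x)
    obtain ⟨i, j, hij, x, y, hxy⟩ := hE.bound n k' T hTc g (fun i => hold i (hall i)) hb
    exact hd i j hij x y hxy
  -- copies outside S
  have hnew : ∀ i, (∀ x, g i (Sum.inr x) ∉ S) → ∀ e ∈ T, e.map (g i) ∈ F := by
    intro i hi e he
    rcases hg i e he with h | h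
    · exfalso
      obtain ⟨j, hj⟩ := hTmeet e he
      exact hi j (hO _ h _ (Finset.mem_map_of_mem _ hj))
    · exact_mod_cast h
  have hsubB : ∀ i, (∀ x, g i (Sum.inr x) ∉ S) → ∀ x, g i (Sum.inr x) ∈ B := by
    intro i hi x
    obtain ⟨e, he, hxe⟩ := h845_cover hTc x
    rcases hFin _ (hnew i hi e he) _ (Finset.mem_map_of_mem (g i) hxe) with h | h
    · exact absurd h (hi x)
    · exact h
  set B0 : Finset V := Finset.univ.image (fun j => g i0 (Sum.inr j)) with hB0
  have hB0card : B0.card = k' := by
    rw [hB0, Finset.card_image_of_injective _ (fun a b hab => Sum.inr_injective ((g i0).injective hab)), Finset.card_univ, Fintype.card_fin]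
  have hB0B : B0 ⊆ B := by
    intro y hy
    obtain ⟨x, _, rfl⟩ := Finset.mem_image.1 hy
    exact hsubB i0 hi0 x
  have hB0ne : B0.Nonempty := by rw [← Finset.card_pos, hB0card]; exact hk'
  have hTimg : (T.image (fun e => e.map (g i0))).card = k' := by
    rw [Finset.card_image_of_injective _ (Finset.map_injective (g i0)), hTcard]
  have hBeq : B0 = B := by
    by_contra hne
    have h3 := hFmin B0 hB0B hB0ne hne
    have h4 : T.image (fun e => e.map (g i0)) ⊆ F.filter (fun e => ∀ x ∈ e, x ∈ B → x ∈ B0) := by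
      intro f hf
      obtain ⟨e, he, rfl⟩ := Finset.mem_image.1 hf
      rw [Finset.mem_filter]
      refine ⟨hnew i0 hi0 e he, ?_⟩
      intro y hy hyB
      obtain ⟨w, _, rfl⟩ := Finset.mem_map.1 hy
      rcases w with x | x
      · exact absurd (hinlS i0 x) (hBS _ hyB)
      · exact Finset.mem_image_of_mem _ (Finset.mem_univ x)
    have h5 := Finset.card_le_card h4
    rw [hTimg] at h5
    omega
  have hkk : k' = k := by rw [← hB0card, hBeq, hBcard]
  have hTF : T.image (fun e => e.map (g i0)) = F := by
    apply Finset.eq_of_subset_of_card_le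
    · intro f hf
      obtain ⟨e, he, rfl⟩ := Finset.mem_image.1 hf
      exact hnew i0 hi0 e he
    · rw [hTimg, hFcard, hBcard, hkk]
  -- (2)
  have hS' : ∀ i, i ≠ i0 → ∀ x, g i (Sum.inr x) ∈ S := by
    intro i hi
    rcases hdich i with h | h
    · exact h
    · exfalso
      have h3 := hsubB i h ⟨0, hk'⟩
      rw [← hBeq] at h3
      obtain ⟨y, _, hy⟩ := Finset.mem_image.1 h3
      exact hd i0 i hi.symm y ⟨0, hk'⟩ hy
  have haA : ∀ x, g 0 (Sum.inl x) ∈ A := by
    intro x
    obtain ⟨e, he, hxe⟩ := hTbase x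
    have h3 := hnew i0 hi0 e he
    have h4 : g 0 (Sum.inl x) ∈ e.map (g i0) := by
      rw [← hb0 i0 x]; exact Finset.mem_map_of_mem _ hxe
    rw [hF] at h3
    obtain ⟨e', he', hee'⟩ := Finset.mem_image.1 h3
    rw [← hee'] at h4
    obtain ⟨w, _, hw⟩ := Finset.mem_map.1 h4
    rcases w with y | y
    · rw [← hw]; exact Finset.mem_image_of_mem _ (Finset.mem_univ y)
    · exfalso
      apply h2 y
      rw [hw]; exact hx x
  have hdich2 : ∀ i, i ≠ i0 → (∀ x, g i (Sum.inr x) ∈ A) ∨ (∀ x, g i (Sum.inr x) ∉ A) := by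
    intro i hi
    by_contra hcon
    push Not at hcon
    obtain ⟨⟨y, hy⟩, ⟨x, hxA⟩⟩ := hcon
    have hc := count_lemma E (↑A : Set V) hTc {i} g (fun x => g 0 (Sum.inl x))
      (fun i' hi' x => hb0 i' x) (fun i' hi' => by
        rw [Finset.mem_singleton] at hi'; subst hi'; exact hold _ (hS' _ hi))
      (fun i' hi' j' hj' hij => by
        rw [Finset.mem_singleton] at hi' hj'; exact absurd (hi'.trans hj'.symm) hij)
      (fun i' hi' => by
        rw [Finset.mem_singleton] at hi'; subst hi'
        exact ⟨⟨x, by exact_mod_cast hxA⟩, Or.inl ⟨y, by exact_mod_cast hy⟩⟩)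
    set Bi : Finset V := Finset.univ.image (fun x => g i (Sum.inr x)) with hBi
    have hbi : (({i} : Finset (Fin (n + 1))).biUnion (fun i => Finset.univ.image (fun x => g i (Sum.inr x)))) = Bi := by
      rw [Finset.singleton_biUnion]
    rw [hbi] at hc
    have h0 : ∀ inst : DecidablePred (fun x => x ∉ (↑A : Set V)), @Finset.filter V (fun x => x ∉ (↑A : Set V)) inst (Finset.univ.image (fun x => g 0 (Sum.inl x))) = ∅ := by
      intro inst
      apply Finset.filter_false_of_mem
      intro y hy
      obtain ⟨x, _, rfl⟩ := Finset.mem_image.1 hy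
      simpa using haA x
    rw [h0, Finset.card_empty, Finset.card_singleton] at hc
    set Y := Finset.univ.image (fun x => g 0 (Sum.inl x)) ∪ Bi with hY
    have hYA : ∀ inst : DecidablePred (fun x => x ∈ (↑A : Set V)), @Finset.filter V (fun x => x ∈ (↑A : Set V)) inst Y = A ∩ Y := by
      intro inst
      ext z; simp [and_comm]
    rw [hYA] at hc
    have hsub := dl_submod E A Y
    have hAY : A ∪ Y = A ∪ Bi := by
      ext z
      simp only [hY, Finset.mem_union]
      constructor
      · rintro (h | h | h)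
        · exact Or.inl h
        · obtain ⟨x, _, rfl⟩ := Finset.mem_image.1 h
          exact Or.inl (haA x)
        · exact Or.inr h
      · rintro (h | h)
        · exact Or.inl h
        · exact Or.inr (Or.inr h)
    have hBicard : Bi.card = k' := by
      rw [hBi, Finset.card_image_of_injective _ (fun a b hab => Sum.inr_injective ((g i).injective hab)), Finset.card_univ, Fintype.card_fin]
    have hKi := hK Bi (by rw [hBicard, hkk])
    rw [hAY] at hsub
    push_cast at hc
    have : A = Finset.univ.image (fun i => g0 (Sum.inl i)) := rfl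
    linarith
  -- (3)
  obtain ⟨i1, hi1, hi1A⟩ : ∃ i1, i1 ≠ i0 ∧ ∀ x, g i1 (Sum.inr x) ∉ A := by
    by_contra hno
    push Not at hno
    have hAll : ∀ i, i ≠ i0 → ∀ x, g i (Sum.inr x) ∈ A := by
      intro i hi
      rcases hdich2 i hi with h | h
      · exact h
      · obtain ⟨x, hx'⟩ := hno i hi
        exact absurd hx' (h x)
    have hrangeA : ∀ y ∈ A, ∃ w, g0 w = y := by
      intro y hy
      obtain ⟨x, _, rfl⟩ := Finset.mem_image.1 hy
      exact ⟨_, rfl⟩
    have hrange : ∀ i z, ∃ w, g0 w = g i z := by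
      intro i z
      rcases z with x | x
      · rw [hb0]; exact hrangeA _ (haA x)
      · by_cases hi : i = i0
        · subst hi
          have : g i (Sum.inr x) ∈ B := by
            rw [← hBeq]; exact Finset.mem_image_of_mem _ (Finset.mem_univ x)
          obtain ⟨y, _, hy⟩ := Finset.mem_image.1 this
          exact ⟨_, hy⟩
        · exact hrangeA _ (hAll i hi x)
    choose q hq using hrange
    let g' : Fin (n + 1) → (Fin n ⊕ Fin k' ↪ Fin m ⊕ Fin k) := fun i => ⟨q i, by
      intro a b hab
      apply (g i).injective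
      rw [← hq i a, ← hq i b, hab]⟩
    have hmap : ∀ i (e : Finset (Fin n ⊕ Fin k')), (e.map (g' i)).map g0 = e.map (g i) := by
      intro i e
      ext y
      simp only [Finset.mem_map]
      constructor
      · rintro ⟨w, ⟨z, hz, rfl⟩, rfl⟩
        exact ⟨z, hz, (hq i z).symm⟩
      · rintro ⟨z, hz, rfl⟩
        exact ⟨g' i z, ⟨z, hz, rfl⟩, hq i z⟩
    obtain ⟨i, j, hij, x, y, hxy⟩ := hG.bound n k' T hTc g' (fun i e he => by
        have := (rich_edges hO h1 h2 hp (e.map (g' i))).1 (by rw [hmap]; exact hg i e he)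
        exact_mod_cast this)
      (fun i j x => by
        apply g0.injective
        show g0 (q i _) = g0 (q j _)
        rw [hq, hq, hb i j x])
    apply hd i j hij x y
    rw [← hq i, ← hq j]
    exact congrArg g0 hxy
  -- (4)
  subst hkk
  have hi1S := hS' i1 hi1
  have hσ : ∀ j : Fin k', ∃ s : Fin k', g i0 (Sum.inr s) = g0 (Sum.inr j) := by
    intro j
    have : g0 (Sum.inr j) ∈ B0 := by
      rw [hBeq]; exact Finset.mem_image_of_mem _ (Finset.mem_univ j)
    obtain ⟨s, _, hs⟩ := Finset.mem_image.1 this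
    exact ⟨s, hs⟩
  choose σ hσ using hσ
  have hσinj : Function.Injective σ := by
    intro a b hab
    apply Sum.inr_injective
    apply g0.injective
    rw [← hσ a, ← hσ b, hab]
  let q : Fin m ⊕ Fin k' → V := fun z => match z with
    | Sum.inl i => g0 (Sum.inl i)
    | Sum.inr j => g i1 (Sum.inr (σ j))
  have hqinj : Function.Injective q := by
    intro a b hab
    rcases a with a | a <;> rcases b with b | b
    · exact g0.injective hab
    · exfalso
      apply hi1A (σ b)
      have : g0 (Sum.inl a) = g i1 (Sum.inr (σ b)) := hab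
      rw [← this]; exact Finset.mem_image_of_mem _ (Finset.mem_univ a)
    · exfalso
      apply hi1A (σ a)
      have : g i1 (Sum.inr (σ a)) = g0 (Sum.inl b) := hab
      rw [this]; exact Finset.mem_image_of_mem _ (Finset.mem_univ b)
    · have : g i1 (Sum.inr (σ a)) = g i1 (Sum.inr (σ b)) := hab
      rw [hσinj (Sum.inr_injective ((g i1).injective this))]
  let g' : Fin m ⊕ Fin k' ↪ V := ⟨q, hqinj⟩
  -- transfer
  have htr : ∀ (e : Finset (Fin m ⊕ Fin k')) (t : Finset (Fin n ⊕ Fin k')), e.map g0 = t.map (g i0) →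
      e.map g' = t.map (g i1) := by
    intro e t het
    have hzw : ∀ z w, g0 z = g i0 w → g' z = g i1 w := by
      intro z w hzw
      rcases z with z | z <;> rcases w with w | w
      · show g0 (Sum.inl z) = g i1 (Sum.inl w)
        rw [hzw, hb i0 i1 w]
      · exfalso
        apply hi0 w
        rw [← hzw]; exact h1 z
      · exfalso
        apply h2 z
        rw [hzw]; exact hinlS i0 w
      · show g i1 (Sum.inr (σ z)) = g i1 (Sum.inr w)
        have : g i0 (Sum.inr (σ z)) = g i0 (Sum.inr w) := by rw [hσ, hzw]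
        rw [(g i0).injective this]
    ext y
    simp only [Finset.mem_map]
    constructor
    · rintro ⟨z, hz, rfl⟩
      have : g0 z ∈ t.map (g i0) := by rw [← het]; exact Finset.mem_map_of_mem _ hz
      obtain ⟨w, hw, hwz⟩ := Finset.mem_map.1 this
      exact ⟨w, hw, (hzw z w hwz.symm).symm⟩
    · rintro ⟨w, hw, rfl⟩
      have : g i0 w ∈ e.map g0 := by rw [het]; exact Finset.mem_map_of_mem _ hw
      obtain ⟨z, hz, hzw'⟩ := Finset.mem_map.1 this
      exact ⟨z, hz, hzw z w hzw'⟩
  have hi1old := hold i1 hi1S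
  refine ⟨g', fun i => rfl, fun j => hi1S (σ j), ?_⟩
  intro e
  by_cases hmeet : ∃ j, Sum.inr j ∈ e
  · constructor
    · intro heG
      have h3 : e.map g0 ∈ F := by
        rw [hF]
        exact Finset.mem_image.2 ⟨e, Finset.mem_filter.2 ⟨heG, hmeet⟩, rfl⟩
      rw [← hTF] at h3
      obtain ⟨t, ht, hte⟩ := Finset.mem_image.1 h3
      rw [htr e t hte.symm]
      exact hi1old t ht
    · intro heE
      by_contra heG
      set Bi : Finset V := Finset.univ.image (fun x => g i1 (Sum.inr x)) with hBi
      have hBicard : Bi.card = k' := by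
        rw [hBi, Finset.card_image_of_injective _ (fun a b hab => Sum.inr_injective ((g i1).injective hab)), Finset.card_univ, Fintype.card_fin]
      have hKi := hK Bi (by rw [hBicard])
      have hdisj : Disjoint A Bi := by
        rw [Finset.disjoint_right]
        intro y hy
        obtain ⟨x, _, rfl⟩ := Finset.mem_image.1 hy
        exact hi1A x
      have hnot : e.map g' ∉ T.image (fun t => t.map (g i1)) := by
        intro hmem
        obtain ⟨t, ht, hte⟩ := Finset.mem_image.1 hmem
        have h3 : t.map (g i0) ∈ F := hnew i0 hi0 t ht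
        rw [hF] at h3
        obtain ⟨e', he', hee'⟩ := Finset.mem_image.1 h3
        have h4 := htr e' t hee'
        have h5 : e.map g' = e'.map g' := by rw [h4]; exact hte.symm
        have h6 := Finset.map_injective g' h5
        rw [h6] at heG
        exact heG (Finset.mem_filter.1 he').1
      have hcount := h845_en_add E A (A ∪ Bi) Finset.subset_union_left (insert (e.map g') (T.image (fun t => t.map (g i1)))) (by
        intro f hf
        rw [Finset.mem_insert] at hf
        rcases hf with rfl | hf
        · refine ⟨heE, ?_, ?_⟩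
          · intro y hy
            obtain ⟨z, _, rfl⟩ := Finset.mem_map.1 hy
            rcases z with z | z
            · exact Finset.mem_union_left _ (Finset.mem_image_of_mem _ (Finset.mem_univ z))
            · exact Finset.mem_union_right _ (Finset.mem_image_of_mem (fun x => g i1 (Sum.inr x)) (Finset.mem_univ (σ z)))
          · intro hsub
            obtain ⟨j, hj⟩ := hmeet
            exact hi1A (σ j) (hsub (Finset.mem_map_of_mem g' hj))
        · obtain ⟨t, ht, rfl⟩ := Finset.mem_image.1 hf
          refine ⟨hi1old t ht, ?_, ?_⟩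
          · intro y hy
            obtain ⟨z, _, rfl⟩ := Finset.mem_map.1 hy
            rcases z with z | z
            · rw [hb0]
              exact Finset.mem_union_left _ (haA z)
            · exact Finset.mem_union_right _ (Finset.mem_image_of_mem (fun x => g i1 (Sum.inr x)) (Finset.mem_univ z))
          · intro hsub
            obtain ⟨j, hj⟩ := hTmeet t ht
            exact hi1A j (hsub (Finset.mem_map_of_mem (g i1) hj)))
      rw [Finset.card_insert_of_notMem hnot, Finset.card_image_of_injective _ (Finset.map_injective (g i1)), hTcard] at hcount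
      have hcardU : (A ∪ Bi).card = A.card + k' := by
        rw [Finset.card_union_of_disjoint hdisj, hBicard]
      unfold dl at hKi
      rw [hcardU] at hKi
      push_cast at hKi
      have hcount' : (en E A : ℤ) + (k' + 1) ≤ en E (A ∪ Bi) := by exact_mod_cast hcount
      linarith
  · -- e = e0.map inl
    obtain ⟨e0, he0⟩ : ∃ e0 : Finset (Fin m), e0.map Function.Embedding.inl = e := by
      refine ⟨Finset.univ.filter (fun i => Sum.inl i ∈ e), ?_⟩
      ext z
      simp only [Finset.mem_map, Finset.mem_filter, Finset.mem_univ, true_and]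
      constructor
      · rintro ⟨i, hi, rfl⟩; exact hi
      · intro hz
        rcases z with z | z
        · exact ⟨z, hz, rfl⟩
        · exact absurd ⟨z, hz⟩ hmeet
    subst he0
    rw [hp e0]
    have : (e0.map Function.Embedding.inl).map g0 = (e0.map Function.Embedding.inl).map g' := by
      rw [Finset.map_map, Finset.map_map]
      congr 1
    rw [this]

end Pool.Agent.Helper180.SMin
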