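import Mathlib
import Pool.Agent.Helper180.SMin.Base
import Pool.Agent.Helper180.SMin.JBasic
import Pool.Agent.Helper180.SMin.JStr
import Pool.Agent.Helper180.SMin.JCount
import Pool.Agent.Helper180.SMin.JDem
import Pool.Agent.Helper180.SMin.JRichdem

set_option autoImplicit false
open FirstOrder FirstOrder.Language
open scoped FirstOrder

namespace Pool.Agent.Helper180.SMin
open scoped Classical

theorem tgood_used {n k : ℕ} {T : Finset (Finset (Fin n ⊕ Fin k))} (hT : TGood n k T) (j : Fin k) :
    ∃ e ∈ T, Sum.inr j ∈ e := by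
  obtain ⟨hk, hc, hr, hl, hB⟩ := hT
  by_contra hno
  push Not at hno
  by_cases h1 : (Finset.univ.erase j : Finset (Fin k)).Nonempty
  · have h2 : (Finset.univ.erase j : Finset (Fin k)) ≠ Finset.univ := by
      intro h
      have : j ∈ (Finset.univ.erase j : Finset (Fin k)) := by rw [h]; exact Finset.mem_univ _
      simp at this
    have h3 := hB _ h1 h2
    have h4 : T.filter (fun e => ∀ j', Sum.inr j' ∈ e → j' ∈ (Finset.univ.erase j : Finset (Fin k))) = T := by
      apply Finset.filter_true_of_mem
      intro e he j' hj'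
      refine Finset.mem_erase.mpr ⟨?_, Finset.mem_univ _⟩
      rintro rfl
      exact hno e he hj'
    rw [h4, hc, Finset.card_erase_of_mem (Finset.mem_univ _), Finset.card_univ, Fintype.card_fin] at h3
    omega
  · rw [Finset.not_nonempty_iff_eq_empty] at h1
    have hTne : T.Nonempty := by
      rw [← Finset.card_pos, hc]; exact hk
    obtain ⟨e, he⟩ := hTne
    obtain ⟨j', hj'⟩ := hr e he
    have : j' = j := by
      by_contra hne
      have : j' ∈ (Finset.univ.erase j : Finset (Fin k)) := Finset.mem_erase.mpr ⟨hne, Finset.mem_univ _⟩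
      rw [h1] at this
      simp at this
    subst this
    exact hno e he hj'

theorem newE_range {V : Type} {m k : ℕ} {G : Finset (Finset (Fin m ⊕ Fin k))} {g0 : Fin m ⊕ Fin k ↪ V}
    {e : Finset V} (he : e ∈ newE G g0) {x : V} (hx : x ∈ e) : ∃ z, g0 z = x := by
  unfold newE at he
  obtain ⟨e', _, rfl⟩ := Finset.mem_image.mp he
  obtain ⟨z, _, hz⟩ := Finset.mem_map.mp hx
  exact ⟨z, hz⟩



theorem rich_case2 {V : Type} {S : Set V} {E : Set (Finset V)} (hO : On S E) (hE : Good E) {m k : ℕ}
    {G : Finset (Finset (Fin m ⊕ Fin k))} (hk : 0 < k) (hG : Good (↑G : Set (Finset (Fin m ⊕ Fin k))))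
    (hM : MinExt m k G) {g0 : Fin m ⊕ Fin k ↪ V}
    (h1 : ∀ i, g0 (Sum.inl i) ∈ S) (h2 : ∀ j, g0 (Sum.inr j) ∉ S)
    (hp : ∀ e : Finset (Fin m), e.map Function.Embedding.inl ∈ G ↔ (e.map Function.Embedding.inl).map g0 ∈ E)
    (hK : KStr E k (Finset.univ.image (fun i => g0 (Sum.inl i))))
    {n k' : ℕ} {T : Finset (Finset (Fin n ⊕ Fin k'))} (hT : TGood n k' T)
    (g : Fin (n + 1) → (Fin n ⊕ Fin k' ↪ V))
    (hg : ∀ i, ∀ e ∈ T, e.map (g i) ∈ E ∪ (↑(newE G g0) : Set (Finset V)))
    (hb : ∀ i j x, g i (Sum.inl x) = g j (Sum.inl x))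
    (hd : ∀ i j, i ≠ j → ∀ x y, g i (Sum.inr x) ≠ g j (Sum.inr y))
    (hx : ∃ x, g 0 (Sum.inl x) ∉ S) : False := by
  have hD := rich_dem (S := S) hk hM h1 h2
  have hStr := dem_str hO hD
  set F := newE G g0 with hF
  set A : Finset V := Finset.univ.image (fun i => g0 (Sum.inl i)) with hA
  set B : Finset V := Finset.univ.image (fun j => g0 (Sum.inr j)) with hB
  have hBc : B.card = k := by
    rw [hB, Finset.card_image_of_injective _ (fun x y h => by simpa using h), Finset.card_univ, Fintype.card_fin]
  have hFc : F.card = k := by rw [hD.2.2.2.2.1, hBc]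
  have hR : ∀ x : V, x ∈ A ∪ B ↔ ∃ z, g0 z = x := by
    intro x
    rw [Finset.mem_union, hA, hB, Finset.mem_image, Finset.mem_image]
    constructor
    · rintro (⟨i, _, rfl⟩ | ⟨i, _, rfl⟩)
      · exact ⟨_, rfl⟩
      · exact ⟨_, rfl⟩
    · rintro ⟨z, rfl⟩
      rcases z with i | j
      · exact Or.inl ⟨i, Finset.mem_univ _, rfl⟩
      · exact Or.inr ⟨j, Finset.mem_univ _, rfl⟩
  have hAS : ∀ x ∈ A, x ∈ S := by
    intro x hx
    obtain ⟨i, _, rfl⟩ := Finset.mem_image.mp hx
    exact h1 i
  have hBS : ∀ x ∈ B, x ∉ S := by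
    intro x hx
    obtain ⟨i, _, rfl⟩ := Finset.mem_image.mp hx
    exact h2 i
  -- an edge of E1 with a point outside S is in F, so contained in the range
  have hout : ∀ i, ∀ e ∈ T, (∃ z ∈ e, g i z ∉ S) → ∀ z ∈ e, ∃ w, g0 w = g i z := by
    intro i e he ⟨z, hz, hzS⟩ z' hz'
    have hmem := hg i e he
    rcases hmem with hmem | hmem
    · exact absurd (hO _ hmem (g i z) (Finset.mem_map_of_mem _ hz)) hzS
    · exact newE_range (by exact_mod_cast hmem) (Finset.mem_map_of_mem _ hz')
  -- step 1
  obtain ⟨i0, hi0⟩ : ∃ i0 : Fin (n + 1), ∀ j, g i0 (Sum.inr j) ∉ S := by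
    by_contra hno
    push Not at hno
    have h := count_strong hStr hT (Finset.univ : Finset (Fin (n + 1))) g (fun x => g 0 (Sum.inl x))
      (fun i _ x => hb i 0 x) (fun i _ e he => hg i e he) (fun i _ j _ hij => hd i j hij)
      (fun i _ => ⟨hno i, Or.inr hx⟩)
    have h' : ((Finset.univ.image (fun x => g 0 (Sum.inl x))).filter (fun x => x ∉ S)).card ≤ n := by
      refine (Finset.card_filter_le _ _).trans ?_
      refine Finset.card_image_le.trans ?_
      simp
    rw [Finset.card_univ, Fintype.card_fin] at h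
    omega
  have hi0R : ∀ z, ∃ w, g0 w = g i0 z := by
    intro z
    rcases z with x | j
    · obtain ⟨e, he, hxe⟩ := hT.2.2.2.1 x
      obtain ⟨j, hj⟩ := hT.2.2.1 e he
      exact hout i0 e he ⟨_, hj, hi0 j⟩ _ hxe
    · obtain ⟨e, he, hje⟩ := tgood_used hT j
      exact hout i0 e he ⟨_, hje, hi0 j⟩ _ hje
  have hk' : k' ≤ k := by
    have hsub : (Finset.univ.image (fun j : Fin k' => g i0 (Sum.inr j))) ⊆ B := by
      intro v hv
      obtain ⟨j, _, rfl⟩ := Finset.mem_image.mp hv
      rcases Finset.mem_union.mp ((hR _).mpr (hi0R (Sum.inr j))) with h | h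
      · exact absurd (hAS _ h) (hi0 j)
      · exact h
    have := Finset.card_le_card hsub
    rw [Finset.card_image_of_injective _ (fun x y h => by simpa using h), Finset.card_univ, Fintype.card_fin, hBc] at this
    exact this
  have haR : ∀ i x, ∃ w, g0 w = g i (Sum.inl x) := by
    intro i x
    rw [hb i i0 x]
    exact hi0R _
  -- step 2
  have hall : ∀ i j, ∃ w, g0 w = g i (Sum.inr j) := by
    intro i j1
    by_contra hj1
    by_cases hmeet : ∃ j, ∃ w, g0 w = g i (Sum.inr j)
    · obtain ⟨j, hj⟩ := hmeet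
      set X : Finset V := Finset.univ.image (fun j => g i (Sum.inr j)) with hX
      obtain ⟨SR, hSR⟩ : ∃ SR : Set V, ∀ x, x ∈ SR ↔ x ∈ A ∪ B := ⟨↑(A ∪ B), fun x => Finset.mem_coe⟩
      have hc := count_lemma (E ∪ (↑F : Set (Finset V))) SR hT ({i} : Finset (Fin (n + 1))) g
        (fun x => g i (Sum.inl x))
        (fun i' _ x => hb i' i x) (fun i' _ e he => hg i' e he) (fun i' _ j' _ hij => hd i' j' hij)
        (fun i' hi' => by
          have : i' = i := Finset.mem_singleton.mp hi'
          subst this
          refine ⟨⟨j, ?_⟩, Or.inl ⟨j1, ?_⟩⟩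
          · exact (hSR _).mpr ((hR _).mpr hj)
          · intro h
            exact hj1 ((hR _).mp ((hSR _).mp h)))
      rw [Finset.singleton_biUnion, Finset.card_singleton] at hc
      set Y : Finset V := Finset.univ.image (fun x => g i (Sum.inl x)) ∪ X with hY
      have hz : ((Finset.univ.image (fun x => g i (Sum.inl x))).filter (fun x => x ∉ SR)) = ∅ := by
        apply Finset.filter_false_of_mem
        intro v hv
        obtain ⟨x, _, rfl⟩ := Finset.mem_image.mp hv
        rw [not_not]
        exact (hSR _).mpr ((hR _).mpr (haR i x))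
      rw [hz, Finset.card_empty] at hc
      have hfi : Y.filter (fun x => x ∈ SR) = (A ∪ B) ∩ Y := by
        ext v
        rw [Finset.mem_filter, Finset.mem_inter, hSR]
        tauto
      rw [hfi] at hc
      have hsm := dl_submod (E ∪ (↑F : Set (Finset V))) (A ∪ B) Y
      have hU : (A ∪ B) ∪ Y = (A ∪ B) ∪ X := by
        ext v
        rw [hY]
        simp only [Finset.mem_union]
        constructor
        · rintro (h | h | h)
          · exact Or.inl h
          · obtain ⟨x, _, rfl⟩ := Finset.mem_image.mp h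
            exact Or.inl (Finset.mem_union.mp ((hR _).mpr (haR i x)))
          · exact Or.inr h
        · rintro (h | h)
          · exact Or.inl h
          · exact Or.inr (Or.inr h)
      rw [hU] at hsm
      have hd1 := dem_dl hO hD (A ∪ B)
      have hd2 := dem_dl hO hD ((A ∪ B) ∪ X)
      have e1 : (A ∪ B).filter (fun x => x ∈ S) = A := by
        ext v
        simp only [Finset.mem_filter, Finset.mem_union]
        constructor
        · rintro ⟨h | h, hs⟩
          · exact h
          · exact absurd hs (hBS _ h)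
        · intro h
          exact ⟨Or.inl h, hAS _ h⟩
      have e2 : (A ∪ B).filter (fun x => x ∉ S) = B := by
        ext v
        simp only [Finset.mem_filter, Finset.mem_union]
        constructor
        · rintro ⟨h | h, hs⟩
          · exact absurd (hAS _ h) hs
          · exact h
        · intro h
          exact ⟨Or.inr h, hBS _ h⟩
      have e3 : F.filter (fun e => e ⊆ A ∪ B) = F := by
        apply Finset.filter_true_of_mem
        intro e he v hv
        exact (hR _).mpr (newE_range he hv)
      have e4 : ((A ∪ B) ∪ X).filter (fun x => x ∈ S) = A ∪ X.filter (fun x => x ∈ S) := by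
        rw [Finset.filter_union, e1]
      have e5 : k ≤ (((A ∪ B) ∪ X).filter (fun x => x ∉ S)).card := by
        rw [← hBc]
        apply Finset.card_le_card
        rw [Finset.filter_union, e2]
        exact Finset.subset_union_left
      have e6 : (F.filter (fun e => e ⊆ (A ∪ B) ∪ X)).card ≤ k := by
        rw [← hFc]
        exact Finset.card_filter_le _ _
      have e7 : dl E A ≤ dl E (A ∪ X.filter (fun x => x ∈ S)) := by
        apply hK
        refine (Finset.card_filter_le _ _).trans ?_
        refine (Finset.card_image_le).trans ?_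
        rw [Finset.card_univ, Fintype.card_fin]
        exact hk'
      rw [e1, e2, e3, hBc, hFc] at hd1
      rw [e4] at hd2
      push_cast at hc
      omega
    · push Not at hmeet
      obtain ⟨x0, hx0⟩ := hx
      obtain ⟨t, ht, hxt⟩ := hT.2.2.2.1 x0
      obtain ⟨j, hj⟩ := hT.2.2.1 t ht
      obtain ⟨w, hw⟩ := hout i t ht ⟨_, hxt, by rw [hb i 0 x0]; exact hx0⟩ _ hj
      exact hmeet j w hw
  have hall' : ∀ i z, ∃ w, g0 w = g i z := by
    intro i z
    rcases z with x | j
    · exact haR i x
    · exact hall i j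
  choose g' hg' using hall'
  have hinj : ∀ i, Function.Injective (g' i) := by
    intro i z z' h
    apply (g i).injective
    rw [← hg' i z, ← hg' i z', h]
  obtain ⟨i, j, hij, x, y, hxy⟩ := hG.bound n k' T hT (fun i => ⟨g' i, hinj i⟩)
    (by
      intro i e he
      have h := (rich_edges hO h1 h2 hp (e.map ⟨g' i, hinj i⟩)).mp
      refine Finset.mem_coe.mpr (h ?_)
      have : (e.map ⟨g' i, hinj i⟩).map g0 = e.map (g i) := by
        rw [Finset.map_map]
        congr 1
        ext z
        exact hg' i z
      rw [this]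
      exact hg i e he)
    (by
      intro i j x
      apply g0.injective
      change g0 (g' i (Sum.inl x)) = g0 (g' j (Sum.inl x))
      rw [hg', hg', hb i j x])
  apply hd i j hij x y
  have hxy' : g' i (Sum.inr x) = g' j (Sum.inr y) := hxy
  rw [← hg' i, ← hg' j, hxy']

end Pool.Agent.Helper180.SMin
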