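import Mathlib
import Pool.Agent.Helper180.SMin.Base
import Pool.Agent.Helper180.SMin.JBasic
import Pool.Agent.Helper180.SMin.JDem
import Pool.Agent.Helper180.SMin.JRichdem

set_option autoImplicit false
open FirstOrder FirstOrder.Language
open scoped FirstOrder

namespace Pool.Agent.Helper180.SMin
open scoped Classical


theorem rich_easy {V : Type} {S : Set V} {E : Set (Finset V)} (hO : On S E) (hE : Good E) {m k : ℕ}
    {G : Finset (Finset (Fin m ⊕ Fin k))} (hk : 0 < k) (hG : Good (↑G : Set (Finset (Fin m ⊕ Fin k))))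
    (hM : MinExt m k G) {g0 : Fin m ⊕ Fin k ↪ V}
    (h1 : ∀ i, g0 (Sum.inl i) ∈ S) (h2 : ∀ j, g0 (Sum.inr j) ∉ S)
    (hp : ∀ e : Finset (Fin m), e.map Function.Embedding.inl ∈ G ↔ (e.map Function.Embedding.inl).map g0 ∈ E) :
    (∀ e ∈ E ∪ (↑(newE G g0) : Set (Finset V)), e.card = 2 ∨ e.card = 3) ∧
    (∀ e ∈ E ∪ (↑(newE G g0) : Set (Finset V)), ∀ f ∈ E ∪ (↑(newE G g0) : Set (Finset V)),
      e.card = 2 → f.card = 3 → ¬ e ⊆ f) ∧
    (∀ X : Finset V, 0 ≤ dl (E ∪ (↑(newE G g0) : Set (Finset V))) X) := by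
  have hD := rich_dem (S := S) (G := G) (g0 := g0) hk hM h1 h2
  have hedge := fun e => rich_edges (E := E) hO h1 h2 hp e
  have hnew : ∀ e ∈ (↑(newE G g0) : Set (Finset V)), ∃ e' ∈ G, e = e'.map g0 := by
    intro e he
    rw [Finset.mem_coe, newE, Finset.mem_image] at he
    obtain ⟨e', he', rfl⟩ := he
    rw [Finset.mem_filter] at he'
    exact ⟨e', he'.1, rfl⟩
  refine ⟨?_, ?_, ?_⟩
  · rintro e (he | he)
    · exact hE.card e he
    · obtain ⟨e', he', rfl⟩ := hnew e he
      rw [Finset.card_map]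
      exact hG.card e' he'
  · intro e he f hf hce hcf hsub
    rcases hf with hf | hf
    · have hfS : ∀ x ∈ f, x ∈ S := hO f hf
      have heE : e ∈ E := (dem_old hD e (fun x hx => hfS x (hsub hx))).mp he
      exact hE.excl e heE f hf hce hcf hsub
    · obtain ⟨f', hf', rfl⟩ := hnew f hf
      obtain ⟨e', he'f, rfl⟩ := Finset.subset_map_iff.mp hsub
      rw [Finset.card_map] at hce hcf
      exact hG.excl e' ((hedge e').mp he) f' hf' hce hcf he'f
  · intro X
    have hs := dem_str hO hD X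
    have h3 : dl (E ∪ (↑(newE G g0) : Set (Finset V))) (X.filter (fun x => x ∈ S)) =
        dl E (X.filter (fun x => x ∈ S)) := by
      apply dl_congr
      intro e he
      exact dem_old hD e (fun x hx => (Finset.mem_filter.mp (he hx)).2)
    rw [h3] at hs
    exact (hE.nonneg _).trans hs

end Pool.Agent.Helper180.SMin
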