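import Mathlib
import Pool.Agent.Helper180.SMin.Base
import Pool.Agent.Helper180.SMin.JComap
import Pool.Agent.Helper180.SMin.JRichdem
import Pool.Agent.Helper180.SMin.JRicheasy
import Pool.Agent.Helper180.SMin.JRich2
import Pool.Agent.Helper180.SMin.JRich1

set_option autoImplicit false
open FirstOrder FirstOrder.Language
open scoped FirstOrder

namespace Pool.Agent.Helper180.SMin
open scoped Classical


theorem closed_rich {V : Type} {S : Set V} {E : Set (Finset V)} (hS : On S E) (hE : Good E) (hC : Closed S E)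
    (hinf : Sᶜ.Infinite) : Rich S E := by
  intro m k G a hk hG hM ha hp hK
  by_contra hno
  haveI : Infinite ↥(Sᶜ) := hinf.to_subtype
  let emb : ℕ ↪ ↥(Sᶜ) := Infinite.natEmbedding ↥(Sᶜ)
  have hembS : ∀ n, ((emb n : ↥(Sᶜ)) : V) ∉ S := fun n => (emb n).2
  let g0 : Fin m ⊕ Fin k ↪ V :=
    ⟨Sum.elim (fun i => a i) (fun j => ((emb (j : ℕ) : ↥(Sᶜ)) : V)), by
      rintro (i | i) (j | j) h
      · simp only [Sum.elim_inl] at h
        rw [a.injective h]
      · simp only [Sum.elim_inl, Sum.elim_inr] at h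
        exact absurd (h ▸ ha i) (hembS _)
      · simp only [Sum.elim_inl, Sum.elim_inr] at h
        exact absurd (h ▸ ha j) (hembS _)
      · simp only [Sum.elim_inr] at h
        have h' := emb.injective (Subtype.ext h)
        rw [Fin.ext h']⟩
  have h1 : ∀ i, g0 (Sum.inl i) ∈ S := ha
  have h2 : ∀ j, g0 (Sum.inr j) ∉ S := fun j => hembS _
  have hmap : ∀ e : Finset (Fin m), (e.map Function.Embedding.inl).map g0 = e.map a := by
    intro e
    rw [Finset.map_map]
    rfl
  have hp' : ∀ e : Finset (Fin m), e.map Function.Embedding.inl ∈ G ↔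
      (e.map Function.Embedding.inl).map g0 ∈ E := by
    intro e
    rw [hmap e]
    exact hp e
  have hK' : KStr E k (Finset.univ.image (fun i => g0 (Sum.inl i))) := by
    have : Finset.univ.image (fun i => g0 (Sum.inl i)) = Finset.univ.map a := by
      rw [Finset.map_eq_image]
      rfl
    rw [this]
    exact hK
  obtain ⟨c1, c2, c3⟩ := rich_easy hS hE hk hG hM h1 h2 hp'
  have hD := rich_dem hk hM h1 h2
  apply hC _ _ hD
  refine ⟨c1, c2, c3, ?_⟩
  intro n k' T hT g hg hb
  by_contra hcon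
  have hd : ∀ i j, i ≠ j → ∀ x y, g i (Sum.inr x) ≠ g j (Sum.inr y) := by
    intro i j hij x y hxy
    exact hcon ⟨i, j, hij, x, y, hxy⟩
  by_cases hx : ∀ x, g 0 (Sum.inl x) ∈ S
  · obtain ⟨g', q1, q2, q3⟩ := rich_case1 hS hE hk hG hM h1 h2 hp' hK' hT g hg hb hd hx
    exact hno ⟨g', q1, q2, q3⟩
  · have hx' : ∃ x, g 0 (Sum.inl x) ∉ S := by
      by_contra h
      exact hx (fun x => by_contra fun h' => h ⟨x, h'⟩)
    exact rich_case2 hS hE hk hG hM h1 h2 hp' hK' hT g hg hb hd hx'

end Pool.Agent.Helper180.SMin
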