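import Mathlib
import Pool.Agent.Helper180.SMin.Base

set_option autoImplicit false
open FirstOrder FirstOrder.Language
open scoped FirstOrder

namespace Pool.Agent.Helper180.SMin
open scoped Classical


theorem eu_mono {V : Type} (S : ℕ → Set V) (hS : ∀ i, S i ⊆ S (i + 1)) {i j : ℕ} (h : i ≤ j) : S i ⊆ S j :=
  monotone_nat_of_le_succ (f := S) hS h

theorem eu_edge {V : Type} (S : ℕ → Set V) (E : ℕ → Set (Finset V)) (hS : ∀ i, S i ⊆ S (i + 1))
    (hE : ∀ i, ∀ e : Finset V, e.card = 3 → (∀ x ∈ e, x ∈ S i) → (e ∈ E (i + 1) ↔ e ∈ E i))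
    {i j : ℕ} (h : i ≤ j) (e : Finset V) (hc : e.card = 3) (he : ∀ x ∈ e, x ∈ S i) : e ∈ E j ↔ e ∈ E i := by
  induction j, h using Nat.le_induction with
  | base => exact Iff.rfl
  | succ j hij ih => exact (hE j e hc fun x hx => eu_mono S hS hij (he x hx)).trans ih

theorem eu_edgeU {V : Type} (S : ℕ → Set V) (E : ℕ → Set (Finset V)) (hS : ∀ i, S i ⊆ S (i + 1))
    (hE : ∀ i, ∀ e : Finset V, e.card = 3 → (∀ x ∈ e, x ∈ S i) → (e ∈ E (i + 1) ↔ e ∈ E i))
    (i : ℕ) (e : Finset V) (hc : e.card = 3) (he : ∀ x ∈ e, x ∈ S i) :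
    e ∈ ({e | ∃ i, e ∈ E i ∧ ∀ x ∈ e, x ∈ S i} : Set (Finset V)) ↔ e ∈ E i := by
  constructor
  · rintro ⟨j, hj, hje⟩
    have h1 := eu_edge S E hS hE (le_max_left i j) e hc he
    have h2 := eu_edge S E hS hE (le_max_right i j) e hc hje
    exact h1.1 (h2.2 hj)
  · intro h
    exact ⟨i, h, he⟩

/-- realization in a substructure -/
def Rz {V : Type} (S : Set V) (E : Set (Finset V)) {n : ℕ} (φ : Lg.BoundedFormula Empty n) (xs : Fin n → ↥S) : Prop :=
  @BoundedFormula.Realize Lg ↥S (stru S E) Empty n φ Empty.elim xs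

theorem rz_ex {V : Type} (S : Set V) (E : Set (Finset V)) {n : ℕ} (φ : Lg.BoundedFormula Empty (n + 1))
    (xs : Fin n → ↥S) : Rz S E φ.ex xs ↔ ∃ a : ↥S, Rz S E φ (Fin.snoc xs a) := by
  letI := stru S E
  exact BoundedFormula.realize_ex

theorem rz_all {V : Type} (S : Set V) (E : Set (Finset V)) {n : ℕ} (φ : Lg.BoundedFormula Empty (n + 1))
    (xs : Fin n → ↥S) : Rz S E φ.all xs ↔ ∀ a : ↥S, Rz S E φ (Fin.snoc xs a) := by
  letI := stru S E
  exact BoundedFormula.realize_all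

theorem inc_snoc {V : Type} {S S' : Set V} (h : S ⊆ S') {n : ℕ} (xs : Fin n → ↥S) (a : ↥S) :
    Set.inclusion h ∘ (Fin.snoc xs a : Fin (n + 1) → ↥S) =
      (Fin.snoc (Set.inclusion h ∘ xs) (Set.inclusion h a) : Fin (n + 1) → ↥S') := by
  exact Fin.comp_snoc _ _ _

theorem rz_qf {V : Type} (S S' : Set V) (E E' : Set (Finset V)) (h : S ⊆ S')
    (hE : ∀ e : Finset V, e.card = 3 → (∀ x ∈ e, x ∈ S) → (e ∈ E' ↔ e ∈ E))
    {n : ℕ} (φ : Lg.BoundedFormula Empty n) (hφ : φ.IsQF) (xs : Fin n → ↥S) :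
    Rz S' E' φ (Set.inclusion h ∘ xs) ↔ Rz S E φ xs := by
  letI i1 := stru S E
  letI i2 := stru S' E'
  let f : ↥S ↪[Lg] ↥S' :=
    { toFun := Set.inclusion h
      inj' := Set.inclusion_injective h
      map_fun' := fun {n} g _ => nomatch g
      map_rel' := by
        intro n r x
        match n, r, x with
        | _, TRel.R, x =>
          change (({(x 0 : V), (x 1 : V), (x 2 : V)} : Finset V) ∈ E' ∧
            ({(x 0 : V), (x 1 : V), (x 2 : V)} : Finset V).card = 3) ↔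
            (({(x 0 : V), (x 1 : V), (x 2 : V)} : Finset V) ∈ E ∧
            ({(x 0 : V), (x 1 : V), (x 2 : V)} : Finset V).card = 3)
          constructor
          · rintro ⟨h1, h2⟩
            refine ⟨(hE _ h2 ?_).1 h1, h2⟩
            intro y hy
            simp only [Finset.mem_insert, Finset.mem_singleton] at hy
            rcases hy with rfl | rfl | rfl
            · exact (x 0).2
            · exact (x 1).2
            · exact (x 2).2
          · rintro ⟨h1, h2⟩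
            refine ⟨(hE _ h2 ?_).2 h1, h2⟩
            intro y hy
            simp only [Finset.mem_insert, Finset.mem_singleton] at hy
            rcases hy with rfl | rfl | rfl
            · exact (x 0).2
            · exact (x 1).2
            · exact (x 2).2 }
  have := hφ.realize_embedding f (v := Empty.elim) (xs := xs)
  have e : (f ∘ Empty.elim : Empty → ↥S') = Empty.elim := Subsingleton.elim _ _
  rw [e] at this
  exact this

theorem eae_union {V : Type} (SM : Set V) (EM : Set (Finset V)) (S : ℕ → Set V) (E : ℕ → Set (Finset V))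
    (hM : ∀ i, SM ⊆ S i) (hS : ∀ i, S i ⊆ S (i + 1))
    (hE : ∀ i, ∀ e : Finset V, e.card = 3 → (∀ x ∈ e, x ∈ S i) → (e ∈ E (i + 1) ↔ e ∈ E i))
    (hel : ∀ i {n : ℕ} (φ : Lg.BoundedFormula Empty n) (xs : Fin n → ↥SM),
      (@BoundedFormula.Realize Lg ↥SM (stru SM EM) Empty n φ Empty.elim xs) →
        (@BoundedFormula.Realize Lg ↥(S i) (stru (S i) (E i)) Empty n φ Empty.elim (Set.inclusion (hM i) ∘ xs)))
    (σ : Lg.BoundedFormula Empty 0) (hσ : IsEAE σ)
    (h : @BoundedFormula.Realize Lg ↥SM (stru SM EM) Empty 0 σ Empty.elim Fin.elim0) :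
    @BoundedFormula.Realize Lg ↥(⋃ i, S i) (stru (⋃ i, S i) {e | ∃ i, e ∈ E i ∧ ∀ x ∈ e, x ∈ S i}) Empty 0 σ
      Empty.elim Fin.elim0 := by
  have hel' : ∀ (i : ℕ) {n : ℕ} (φ : Lg.BoundedFormula Empty n) (xs : Fin n → ↥SM), Rz SM EM φ xs →
      Rz (S i) (E i) φ (Set.inclusion (hM i) ∘ xs) := fun i n φ xs hx => hel i φ xs hx
  have hU : ∀ i, S i ⊆ ⋃ i, S i := fun i => Set.subset_iUnion S i
  have hMU : SM ⊆ ⋃ i, S i := (hM 0).trans (hU 0)
  have key := hσ
    (fun n ψ => ∀ xs : Fin n → ↥SM, Rz SM EM ψ xs →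
      Rz (⋃ i, S i) {e | ∃ i, e ∈ E i ∧ ∀ x ∈ e, x ∈ S i} ψ (Set.inclusion hMU ∘ xs)) ?_ ?_
  · have h1 := key Fin.elim0 h
    have e : (Set.inclusion hMU ∘ (Fin.elim0 : Fin 0 → ↥SM)) = Fin.elim0 := Subsingleton.elim _ _
    rw [e] at h1
    exact h1
  · intro n ψ hψ
    have hQ := hψ (fun m χ => ∀ (i : ℕ) (xs : Fin m → ↥(S i)),
      (∀ (j : ℕ) (hij : i ≤ j), Rz (S j) (E j) χ (Set.inclusion (eu_mono S hS hij) ∘ xs)) →
      Rz (⋃ i, S i) {e | ∃ i, e ∈ E i ∧ ∀ x ∈ e, x ∈ S i} χ (Set.inclusion (hU i) ∘ xs)) ?_ ?_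
    · intro xs hxs
      refine hQ 0 (Set.inclusion (hM 0) ∘ xs) ?_
      intro j hj
      exact hel' j ψ xs hxs
    · intro m χ hχ
      have hP := hχ (fun k θ => ∀ (i : ℕ) (xs : Fin k → ↥(S i)), Rz (S i) (E i) θ xs →
        Rz (⋃ i, S i) {e | ∃ i, e ∈ E i ∧ ∀ x ∈ e, x ∈ S i} θ (Set.inclusion (hU i) ∘ xs)) ?_ ?_
      · intro i xs hxs
        refine hP i xs ?_
        have := hxs i le_rfl
        exact this
      · intro k θ hθ i xs hxs
        exact (rz_qf (S i) (⋃ i, S i) (E i) {e | ∃ i, e ∈ E i ∧ ∀ x ∈ e, x ∈ S i} (hU i)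
          (fun e hc he => eu_edgeU S E hS hE i e hc he) θ hθ xs).2 hxs
      · intro k θ hθ i xs hxs
        rw [rz_ex] at hxs ⊢
        obtain ⟨a, ha⟩ := hxs
        refine ⟨Set.inclusion (hU i) a, ?_⟩
        rw [← inc_snoc]
        exact hθ i _ ha
    · intro m χ hχ i xs hxs
      rw [rz_all]
      intro y
      obtain ⟨l, hl⟩ := Set.mem_iUnion.1 y.2
      have hil : i ≤ max i l := le_max_left i l
      have hll : l ≤ max i l := le_max_right i l
      let y' : ↥(S (max i l)) := ⟨y.1, eu_mono S hS hll hl⟩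
      have h1 := hχ (max i l) (Fin.snoc (Set.inclusion (eu_mono S hS hil) ∘ xs) y') ?_
      · rw [inc_snoc] at h1
        exact h1
      · intro j hj
        rw [inc_snoc]
        have h2 := hxs j (hil.trans hj)
        rw [rz_all] at h2
        exact h2 (Set.inclusion (eu_mono S hS hj) y')
  · intro n ψ hψ xs hxs
    rw [rz_ex] at hxs ⊢
    obtain ⟨a, ha⟩ := hxs
    refine ⟨Set.inclusion hMU a, ?_⟩
    rw [← inc_snoc]
    exact hψ _ ha

end Pool.Agent.Helper180.SMin
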