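import Mathlib
import Pool.Agent.Helper180.SMin.Base
import Pool.Agent.Helper180.SMin.JBasic
import Pool.Agent.Helper180.SMin.JStr

set_option autoImplicit false
open FirstOrder FirstOrder.Language
open scoped FirstOrder

namespace Pool.Agent.Helper180.SMin
open scoped Classical


theorem strong_step {V : Type} {E : Set (Finset V)} {A C : Finset V} (hA : Str E (↑A : Set V))
    (hC : Str E (↑C : Set V)) (hAC : A ⊂ C) :
    (∃ b ∈ C, b ∉ A ∧ Str E (↑(insert b A) : Set V) ∧ ∀ e ∈ E, e ⊆ insert b A → b ∉ e) ∨
    (∃ D : Finset V, A ⊂ D ∧ D ⊆ C ∧ dl E D = dl E A ∧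
      ∀ D' : Finset V, A ⊆ D' → D' ⊆ D → dl E D' = dl E A → D' = A ∨ D' = D) := by
  have hne : (C.powerset.filter (fun D => A ⊂ D ∧ Str E (↑D : Set V))).Nonempty :=
    ⟨C, by rw [Finset.mem_filter, Finset.mem_powerset]; exact ⟨Finset.Subset.refl _, hAC, hC⟩⟩
  obtain ⟨D, hD, hmin⟩ := Finset.exists_min_image _ (fun D : Finset V => D.card) hne
  rw [Finset.mem_filter, Finset.mem_powerset] at hD
  obtain ⟨hDC, hAD, hDs⟩ := hD
  have hmin' : ∀ D' : Finset V, A ⊂ D' → D' ⊆ D → Str E (↑D' : Set V) → D' = D := by
    intro D' h1 h2 h3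
    refine Finset.eq_of_subset_of_card_le h2 ?_
    refine hmin D' ?_
    rw [Finset.mem_filter, Finset.mem_powerset]
    exact ⟨h2.trans hDC, h1, h3⟩
  have hAD0 : dl E A ≤ dl E D := (str_finite_iff.1 hA) D hAD.1
  by_cases hdl : dl E D = dl E A
  · right
    refine ⟨D, hAD, hDC, hdl, ?_⟩
    intro D' h1 h2 h3
    by_cases h4 : D' = A
    · exact Or.inl h4
    · right
      refine hmin' D' ?_ h2 (str_of_le hA h1 h3.le)
      exact (Finset.ssubset_iff_subset_ne).2 ⟨h1, fun h => h4 h.symm⟩
  · left
    obtain ⟨b, hbD, hbA⟩ := Finset.exists_of_ssubset hAD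
    have hsub : insert b A ⊆ D := by
      intro x hx
      rcases Finset.mem_insert.1 hx with rfl | hx
      · exact hbD
      · exact hAD.1 hx
    have hAb : A ⊆ insert b A := Finset.subset_insert b A
    have hAb' : A ⊂ insert b A := Finset.ssubset_insert hbA
    have h1 := dl_insert_le E A b
    have h2 : dl E A ≤ dl E (insert b A) := (str_finite_iff.1 hA) _ hAb
    have h3 : dl E (insert b A) = dl E A + 1 := by
      by_contra h
      have h4 : dl E (insert b A) ≤ dl E A := by omega
      have h5 := hmin' (insert b A) hAb' hsub (str_of_le hA hAb h4)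
      rw [h5] at h4
      omega
    refine ⟨b, hDC hbD, hbA, ?_, ?_⟩
    · rw [str_finite_iff]
      intro Y hY
      by_contra h
      push Not at h
      have h4 : dl E Y ≤ dl E A := by omega
      have hAY : A ⊆ Y := hAb.trans hY
      have h5 : Str E (↑Y : Set V) := str_of_le hA hAY h4
      have h6 : Str E (↑(D ∩ Y) : Set V) := str_inter_fin hDs h5
      have h7 : A ⊂ D ∩ Y := by
        rw [Finset.ssubset_iff_subset_ne]
        refine ⟨Finset.subset_inter hAD.1 hAY, ?_⟩
        intro h8
        apply hbA
        rw [h8, Finset.mem_inter]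
        exact ⟨hbD, hY (Finset.mem_insert_self b A)⟩
      have h8 := hmin' (D ∩ Y) h7 Finset.inter_subset_left h6
      have h9 : D ⊆ Y := by
        rw [← h8]; exact Finset.inter_subset_right
      have h10 := (str_finite_iff.1 hDs) Y h9
      omega
    · intro e he hesub hbe
      have h4 : en E A + 1 ≤ en E (insert b A) := by
        unfold en
        have h5 : insert e (A.powerset.filter (fun e => e ∈ E)) ⊆
            (insert b A).powerset.filter (fun e => e ∈ E) := by
          intro f hf
          rw [Finset.mem_filter, Finset.mem_powerset]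
          rcases Finset.mem_insert.1 hf with rfl | hf
          · exact ⟨hesub, he⟩
          · rw [Finset.mem_filter, Finset.mem_powerset] at hf
            exact ⟨hf.1.trans hAb, hf.2⟩
        have h6 := Finset.card_le_card h5
        rw [Finset.card_insert_of_notMem] at h6
        · exact h6
        · rw [Finset.mem_filter, Finset.mem_powerset]
          intro h7
          exact hbA (h7.1 hbe)
      have h5 : (insert b A).card = A.card + 1 := Finset.card_insert_of_notMem hbA
      unfold dl at h3
      rw [h5] at h3
      push_cast at h3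
      omega

end Pool.Agent.Helper180.SMin
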