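import Mathlib
import Pool.Agent.Helper180.SMin.Base
import Pool.Agent.Helper180.SMin.JBasic
import Pool.Agent.Helper180.SMin.JStr
import Pool.Agent.Helper180.SMin.JComap
import Pool.Agent.Helper180.SMin.JStep

set_option autoImplicit false
open FirstOrder FirstOrder.Language
open scoped FirstOrder

namespace Pool.Agent.Helper180.SMin
open scoped Classical


theorem dl_eq {V : Type} (E : Set (Finset V)) (X : Finset V) :
    dl E X = (X.card : ℤ) - (en E X : ℤ) := rfl

/-- one more edge -/
theorem en_insert_lt {V : Type} {E : Set (Finset V)} {A : Finset V} {b : V} (hb : b ∉ A)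
    {e : Finset V} (he : e ∈ E) (heA : e ⊆ insert b A) (hbe : b ∈ e) :
    en E A + 1 ≤ en E (insert b A) := by
  unfold en
  have h1 : insert e (A.powerset.filter (fun e => e ∈ E)) ⊆
      (insert b A).powerset.filter (fun e => e ∈ E) := by
    intro x hx
    rw [Finset.mem_insert] at hx
    rw [Finset.mem_filter, Finset.mem_powerset]
    rcases hx with rfl | hx
    · exact ⟨heA, he⟩
    · rw [Finset.mem_filter, Finset.mem_powerset] at hx
      exact ⟨hx.1.trans (Finset.subset_insert _ _), hx.2⟩
  have h2 : e ∉ A.powerset.filter (fun e => e ∈ E) := by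
    rw [Finset.mem_filter, Finset.mem_powerset]
    rintro ⟨h, -⟩
    exact hb (h hbe)
  have h3 := Finset.card_le_card h1
  rw [Finset.card_insert_of_notMem h2] at h3
  exact h3

/-- free step -/
theorem piso_free {V W : Type} {E : Set (Finset V)} {E' : Set (Finset W)}
    (hD : InfDim Set.univ E') {A : Finset V} {f : V → W} (h : PIso E E' A f) {b : V} (hb : b ∉ A)
    (hs : Str E (↑(insert b A) : Set V)) (hn : ∀ e ∈ E, e ⊆ insert b A → b ∉ e) :
    ∃ f' : V → W, (∀ y ∈ A, f' y = f y) ∧ PIso E E' (insert b A) f' := by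
  obtain ⟨b', -, hb', hY⟩ := hD (A.image f) (fun _ _ => trivial) h.str'
  have hup : ∀ y ∈ A, Function.update f b b' y = f y := by
    intro y hy
    have : y ≠ b := fun e => hb (e ▸ hy)
    exact Function.update_of_ne this _ _
  have hupb : Function.update f b b' b = b' := Function.update_self _ _ _
  have himA : A.image (Function.update f b b') = A.image f := Finset.image_congr (fun y hy => hup y hy)
  have him : (insert b A).image (Function.update f b b') = insert b' (A.image f) := by
    rw [Finset.image_insert, hupb, himA]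
  refine ⟨Function.update f b b', hup, ?_, hs, ?_, ?_⟩
  · intro x hx y hy hxy
    have hx' : x = b ∨ x ∈ A := by simpa using hx
    have hy' : y = b ∨ y ∈ A := by simpa using hy
    rcases hx' with rfl | hx' <;> rcases hy' with rfl | hy'
    · rfl
    · exfalso
      rw [hupb, hup y hy'] at hxy
      exact hb' (hxy ▸ Finset.mem_image_of_mem f hy')
    · exfalso
      rw [hupb, hup x hx'] at hxy
      exact hb' (hxy ▸ Finset.mem_image_of_mem f hx')
    · rw [hup x hx', hup y hy'] at hxy
      exact h.inj hx' hy' hxy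
  · rw [him, str_finite_iff]
    intro Y hYs
    exact (dl_insert_le E' (A.image f) b').trans (hY Y hYs)
  · intro e he
    by_cases hbe : b ∈ e
    · constructor
      · intro h1
        exact absurd hbe (hn e h1 he)
      · intro h1
        exfalso
        have h2 : b' ∈ e.image (Function.update f b b') := by
          rw [Finset.mem_image]; exact ⟨b, hbe, hupb⟩
        have h3 : e.image (Function.update f b b') ⊆ insert b' (A.image f) := by
          rw [← him]; exact Finset.image_subset_image he
        have h4 := en_insert_lt hb' h1 h3 h2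
        have h5 := hY (insert b' (A.image f)) (Finset.Subset.refl _)
        rw [dl_eq, dl_eq, Finset.card_insert_of_notMem hb'] at h5
        push_cast at h5
        have h6 : ((en E' (A.image f) : ℤ) + 1) ≤ (en E' (insert b' (A.image f)) : ℤ) := by
          exact_mod_cast h4
        linarith
    · have heA : e ⊆ A := by
        intro y hy
        rcases Finset.mem_insert.1 (he hy) with rfl | h'
        · exact absurd hy hbe
        · exact h'
      have : e.image (Function.update f b b') = e.image f :=
        Finset.image_congr (fun y hy => hup y (heA hy))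
      rw [this]
      exact h.iso e heA

/-- counting edges of the pulled back hypergraph -/
theorem count_pull {V : Type} {E : Set (Finset V)} {m k : ℕ} (ee : Fin m ⊕ Fin k ↪ V)
    (B : Finset (Fin k)) :
    ((Finset.univ.filter (fun e : Finset (Fin m ⊕ Fin k) => e.map ee ∈ E)).filter
      (fun e => (∃ j, Sum.inr j ∈ e) ∧ ∀ j, Sum.inr j ∈ e → j ∈ B)).card +
      en E (Finset.univ.image (fun i : Fin m => ee (Sum.inl i))) =
    en E (Finset.univ.image (fun i : Fin m => ee (Sum.inl i)) ∪ B.image (fun j => ee (Sum.inr j))) := by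
  set A := Finset.univ.image (fun i : Fin m => ee (Sum.inl i)) with hA
  set F := (Finset.univ.filter (fun e : Finset (Fin m ⊕ Fin k) => e.map ee ∈ E)).filter
      (fun e => (∃ j, Sum.inr j ∈ e) ∧ ∀ j, Sum.inr j ∈ e → j ∈ B) with hF
  have hmemA : ∀ x, x ∈ A ↔ ∃ i : Fin m, ee (Sum.inl i) = x := by
    intro x; simp [hA]
  have hinr : ∀ j : Fin k, ee (Sum.inr j) ∉ A := by
    intro j hj
    obtain ⟨i, hi⟩ := (hmemA _).1 hj
    exact Sum.inl_ne_inr (ee.injective hi)
  have hcard : (F.image (fun e => e.map ee)).card = F.card := by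
    apply Finset.card_image_of_injective
    intro x y hxy
    exact Finset.map_injective ee hxy
  rw [← hcard]
  unfold en
  rw [← Finset.card_union_of_disjoint]
  · congr 1
    ext e
    simp only [Finset.mem_union, Finset.mem_image, Finset.mem_filter, Finset.mem_powerset]
    constructor
    · rintro (⟨e', he', rfl⟩ | ⟨h1, h2⟩)
      · rw [hF, Finset.mem_filter, Finset.mem_filter] at he'
        obtain ⟨⟨-, h1⟩, h2, h3⟩ := he'
        refine ⟨?_, h1⟩
        intro y hy
        obtain ⟨z, hz, rfl⟩ := Finset.mem_map.1 hy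
        rcases z with i | j
        · exact Finset.mem_union_left _ ((hmemA _).2 ⟨i, rfl⟩)
        · exact Finset.mem_union_right _ (Finset.mem_image.2 ⟨j, h3 j hz, rfl⟩)
      · exact ⟨h1.trans Finset.subset_union_left, h2⟩
    · rintro ⟨h1, h2⟩
      by_cases heA : e ⊆ A
      · exact Or.inr ⟨heA, h2⟩
      · left
        have hmap : (Finset.univ.filter (fun z => ee z ∈ e)).map ee = e := by
          ext y
          simp only [Finset.mem_map, Finset.mem_filter, Finset.mem_univ, true_and]
          constructor
          · rintro ⟨z, hz, rfl⟩; exact hz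
          · intro hy
            rcases Finset.mem_union.1 (h1 hy) with h' | h'
            · obtain ⟨i, rfl⟩ := (hmemA _).1 h'
              exact ⟨_, hy, rfl⟩
            · obtain ⟨j, -, rfl⟩ := Finset.mem_image.1 h'
              exact ⟨_, hy, rfl⟩
        refine ⟨Finset.univ.filter (fun z => ee z ∈ e), ?_, hmap⟩
        rw [hF, Finset.mem_filter, Finset.mem_filter]
        refine ⟨⟨Finset.mem_univ _, ?_⟩, ?_, ?_⟩
        · rw [hmap]; exact h2
        · rw [Finset.not_subset] at heA
          obtain ⟨y, hy, hyA⟩ := heA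
          rcases Finset.mem_union.1 (h1 hy) with h' | h'
          · exact absurd h' hyA
          · obtain ⟨j, -, rfl⟩ := Finset.mem_image.1 h'
            exact ⟨j, by simp [hy]⟩
        · intro j hj
          have hj' : ee (Sum.inr j) ∈ e := by simpa using hj
          rcases Finset.mem_union.1 (h1 hj') with h' | h'
          · exact absurd h' (hinr j)
          · obtain ⟨j', hj', hjj⟩ := Finset.mem_image.1 h'
            have := Sum.inr_injective (ee.injective hjj)
            rw [← this]; exact hj'
  · rw [Finset.disjoint_left]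
    intro e he he'
    obtain ⟨e', h1, rfl⟩ := Finset.mem_image.1 he
    rw [Finset.mem_filter, Finset.mem_powerset] at he'
    rw [hF, Finset.mem_filter] at h1
    obtain ⟨j, hj⟩ := h1.2.1
    exact hinr j (he'.1 (Finset.mem_map.2 ⟨_, hj, rfl⟩))

/-- minimal step -/
theorem piso_min {V W : Type} {E : Set (Finset V)} {E' : Set (Finset W)} (hE : Good E)
    (hR : Rich Set.univ E') {A : Finset V} {f : V → W} (h : PIso E E' A f) {D : Finset V}
    (hAD : A ⊂ D) (hdl : dl E D = dl E A)
    (hmin : ∀ D' : Finset V, A ⊆ D' → D' ⊆ D → dl E D' = dl E A → D' = A ∨ D' = D) :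
    ∃ f' : V → W, (∀ y ∈ A, f' y = f y) ∧ PIso E E' D f' := by
  classical
  set m := A.card with hm
  set k := (D \ A).card with hk
  let eA : Fin m ≃ A := (Finset.equivFin A).symm
  let eD : Fin k ≃ (D \ A : Finset V) := (Finset.equivFin (D \ A)).symm
  have hinl : ∀ i, (eA i : V) ∈ A := fun i => (eA i).2
  have hinr : ∀ j, (eD j : V) ∈ D \ A := fun j => (eD j).2
  let ee : Fin m ⊕ Fin k ↪ V := ⟨Sum.elim (fun i => (eA i : V)) (fun j => (eD j : V)), by
    intro x y hxy
    rcases x with x | x <;> rcases y with y | y <;> simp only [Sum.elim_inl, Sum.elim_inr] at hxy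
    · rw [eA.injective (Subtype.ext hxy)]
    · exact absurd (hxy ▸ hinl x) (Finset.mem_sdiff.1 (hinr y)).2
    · exact absurd (hxy ▸ hinl y) (Finset.mem_sdiff.1 (hinr x)).2
    · rw [eD.injective (Subtype.ext hxy)]⟩
  have eel : ∀ i, ee (Sum.inl i) = (eA i : V) := fun i => rfl
  have eer : ∀ j, ee (Sum.inr j) = (eD j : V) := fun j => rfl
  have hAim : Finset.univ.image (fun i : Fin m => ee (Sum.inl i)) = A := by
    ext y
    simp only [Finset.mem_image, Finset.mem_univ, true_and, eel]
    constructor
    · rintro ⟨i, rfl⟩; exact hinl i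
    · intro hy; exact ⟨eA.symm ⟨y, hy⟩, by simp⟩
  have hDsurj : ∀ y ∈ D, ∃ z, ee z = y := by
    intro y hy
    by_cases hyA : y ∈ A
    · exact ⟨Sum.inl (eA.symm ⟨y, hyA⟩), by simp [eel]⟩
    · exact ⟨Sum.inr (eD.symm ⟨y, Finset.mem_sdiff.2 ⟨hy, hyA⟩⟩), by simp [eer]⟩
  have heeD : ∀ z, ee z ∈ D := by
    rintro (i | j)
    · exact hAD.1 (hinl i)
    · exact (Finset.mem_sdiff.1 (hinr j)).1
  have hk0 : 0 < k := by
    rw [hk, Finset.card_pos, Finset.sdiff_nonempty]
    exact hAD.2
  set G := Finset.univ.filter (fun e : Finset (Fin m ⊕ Fin k) => e.map ee ∈ E) with hG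
  have hGmem : ∀ e, e ∈ G ↔ e.map ee ∈ E := by intro e; simp [hG]
  have hGgood : Good (↑G : Set (Finset (Fin m ⊕ Fin k))) := by
    have := good_comap hE ee
    have e1 : (↑G : Set (Finset (Fin m ⊕ Fin k))) = {e | e.map ee ∈ E} := by
      ext e; simp [hG]
    rw [e1]; exact this
  have hcardB : ∀ B : Finset (Fin k), (A ∪ B.image (fun j => ee (Sum.inr j))).card = A.card + B.card := by
    intro B
    rw [Finset.card_union_of_disjoint, Finset.card_image_of_injective]
    · intro x y hxy
      exact Sum.inr_injective (ee.injective hxy)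
    · rw [Finset.disjoint_left]
      intro y hy hy'
      obtain ⟨j, -, rfl⟩ := Finset.mem_image.1 hy'
      exact (Finset.mem_sdiff.1 (hinr j)).2 hy
  have hstr := (str_finite_iff.1 h.str)
  have hcount : ∀ B : Finset (Fin k), ((G.filter
      (fun e => (∃ j, Sum.inr j ∈ e) ∧ ∀ j, Sum.inr j ∈ e → j ∈ B)).card : ℤ) =
      B.card - (dl E (A ∪ B.image (fun j => ee (Sum.inr j))) - dl E A) := by
    intro B
    have h1 := count_pull (E := E) ee B
    rw [hAim] at h1
    rw [dl_eq, dl_eq, hcardB B, ← h1]
    push_cast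
    ring
  have hDun : A ∪ (Finset.univ : Finset (Fin k)).image (fun j => ee (Sum.inr j)) = D := by
    ext y
    rw [Finset.mem_union, Finset.mem_image]
    constructor
    · rintro (hy | ⟨j, -, rfl⟩)
      · exact hAD.1 hy
      · exact heeD _
    · intro hy
      by_cases hyA : y ∈ A
      · exact Or.inl hyA
      · obtain ⟨z, rfl⟩ := hDsurj y hy
        rcases z with i | j
        · exact absurd (hinl i) hyA
        · exact Or.inr ⟨j, Finset.mem_univ _, rfl⟩
  have hGmin : MinExt m k G := by
    constructor
    · have h1 := hcount Finset.univ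
      rw [hDun, hdl] at h1
      have h2 : (G.filter (fun e => ∃ j, Sum.inr j ∈ e)) = (G.filter
          (fun e => (∃ j, Sum.inr j ∈ e) ∧ ∀ j, Sum.inr j ∈ e → j ∈ (Finset.univ : Finset (Fin k)))) := by
        apply Finset.filter_congr
        intro e _
        simp
      rw [h2]
      have h3 : ((Finset.univ : Finset (Fin k)).card : ℤ) = k := by simp
      rw [h3] at h1
      have : (((G.filter (fun e => (∃ j, Sum.inr j ∈ e) ∧ ∀ j, Sum.inr j ∈ e → j ∈ (Finset.univ : Finset (Fin k)))).card : ℕ) : ℤ) = (k : ℤ) := by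
        rw [h1]; ring
      exact_mod_cast this
    · intro B hB hBu
      have h1 := hcount B
      set D' := A ∪ B.image (fun j => ee (Sum.inr j)) with hD'
      have h2 : dl E A ≤ dl E D' := hstr D' Finset.subset_union_left
      have h3 : D' ⊆ D := by
        rw [← hDun, hD']
        exact Finset.union_subset_union_right (Finset.image_subset_image (Finset.subset_univ _))
      have h4 : dl E D' ≠ dl E A := by
        intro h5
        have hc := hcardB B
        rcases hmin D' Finset.subset_union_left h3 h5 with h6 | h6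
        · rw [← hD', h6] at hc
          have := hB.card_pos
          omega
        · rw [← hD', h6] at hc
          have hc' := hcardB Finset.univ
          rw [hDun] at hc'
          have : B.card = (Finset.univ : Finset (Fin k)).card := by omega
          exact hBu ((Finset.card_eq_iff_eq_univ B).1 (by rw [this, Finset.card_univ]))
      have h5 : dl E A + 1 ≤ dl E D' := by
        rcases lt_or_eq_of_le h2 with h6 | h6
        · exact h6
        · exact absurd h6.symm h4
      have h6 : ((G.filter (fun e => (∃ j, Sum.inr j ∈ e) ∧ ∀ j, Sum.inr j ∈ e → j ∈ B)).card : ℤ)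
          < B.card := by
        rw [h1]; linarith
      exact_mod_cast h6
  let a : Fin m ↪ W := ⟨fun i => f (eA i), by
    intro x y hxy
    exact eA.injective (Subtype.ext (h.inj (hinl x) (hinl y) hxy))⟩
  have ha : ∀ i, a i = f (eA i) := fun i => rfl
  have hapat : ∀ e : Finset (Fin m), e.map Function.Embedding.inl ∈ G ↔ e.map a ∈ E' := by
    intro e
    rw [hGmem]
    have h1 : (e.map Function.Embedding.inl).map ee ⊆ A := by
      intro y hy
      obtain ⟨z, hz, rfl⟩ := Finset.mem_map.1 hy
      obtain ⟨i, _, rfl⟩ := Finset.mem_map.1 hz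
      exact hinl i
    rw [h.iso _ h1]
    have h2 : ((e.map Function.Embedding.inl).map ee).image f = e.map a := by
      ext y
      simp only [Finset.mem_image, Finset.mem_map]
      constructor
      · rintro ⟨x, ⟨z, ⟨i, hi, rfl⟩, rfl⟩, rfl⟩
        exact ⟨i, hi, rfl⟩
      · rintro ⟨i, hi, rfl⟩
        exact ⟨_, ⟨_, ⟨i, hi, rfl⟩, rfl⟩, rfl⟩
    rw [h2]
  have haim : Finset.univ.map a = A.image f := by
    ext y
    simp only [Finset.mem_image, Finset.mem_map, Finset.mem_univ, true_and]
    constructor
    · rintro ⟨i, rfl⟩; exact ⟨_, hinl i, rfl⟩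
    · rintro ⟨x, hx, rfl⟩
      exact ⟨eA.symm ⟨x, hx⟩, by simp [ha]⟩
  have hK : KStr E' k (Finset.univ.map a) := by
    intro X _
    rw [haim]
    exact (str_finite_iff.1 h.str') _ Finset.subset_union_left
  obtain ⟨g, hg1, -, hg3⟩ := hR m k G a hk0 hGgood hGmin (fun _ => trivial) hapat hK
  have hf1 : ∀ z, Function.extend ee g f (ee z) = g z := fun z => ee.injective.extend_apply g f z
  have hf1A : ∀ y ∈ A, Function.extend ee g f y = f y := by
    intro y hy
    have : ee (Sum.inl (eA.symm ⟨y, hy⟩)) = y := by simp [eel]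
    have h2 := hf1 (Sum.inl (eA.symm ⟨y, hy⟩))
    rw [this, hg1, ha] at h2
    rw [h2]; simp
  have hinj : Set.InjOn (Function.extend ee g f) (↑D : Set V) := by
    intro x hx y hy hxy
    obtain ⟨z, rfl⟩ := hDsurj x hx
    obtain ⟨w, rfl⟩ := hDsurj y hy
    rw [hf1, hf1] at hxy
    rw [g.injective hxy]
  have hiso : ∀ e : Finset V, e ⊆ D → (e ∈ E ↔ e.image (Function.extend ee g f) ∈ E') := by
    intro e he
    have hmap : (Finset.univ.filter (fun z => ee z ∈ e)).map ee = e := by
      ext y
      simp only [Finset.mem_map, Finset.mem_filter, Finset.mem_univ, true_and]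
      constructor
      · rintro ⟨z, hz, rfl⟩; exact hz
      · intro hy
        obtain ⟨z, rfl⟩ := hDsurj y (he hy)
        exact ⟨z, hy, rfl⟩
    have hmap2 : e.image (Function.extend ee g f) = (Finset.univ.filter (fun z => ee z ∈ e)).map g := by
      ext y
      simp only [Finset.mem_image, Finset.mem_map, Finset.mem_filter, Finset.mem_univ, true_and]
      constructor
      · rintro ⟨x, hx, rfl⟩
        obtain ⟨z, rfl⟩ := hDsurj x (he hx)
        exact ⟨z, hx, (hf1 z).symm⟩
      · rintro ⟨z, hz, rfl⟩
        exact ⟨_, hz, hf1 z⟩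
    rw [hmap2, ← hg3, hGmem, hmap]
  refine ⟨Function.extend ee g f, hf1A, hinj, str_of_le h.str hAD.1 hdl.le, ?_, hiso⟩
  have h1 : dl E' (D.image (Function.extend ee g f)) = dl E D := dl_image hinj hiso
  have h2 : dl E' (A.image f) = dl E A := dl_image h.inj h.iso
  refine str_of_le h.str' ?_ ?_
  · have : A.image f = A.image (Function.extend ee g f) :=
      Finset.image_congr (fun y hy => (hf1A y hy).symm)
    rw [this]
    exact Finset.image_subset_image hAD.1
  · rw [h1, h2, hdl]

theorem piso_closure {V W : Type} {E : Set (Finset V)} {E' : Set (Finset W)} (hE : Good E)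
    (hR : Rich Set.univ E') (hD : InfDim Set.univ E') {C : Finset V} (hC : Str E (↑C : Set V)) :
    ∀ (n : ℕ) (A : Finset V) (f : V → W), (C \ A).card = n → A ⊆ C → PIso E E' A f →
      ∃ f' : V → W, (∀ y ∈ A, f' y = f y) ∧ PIso E E' C f' := by
  intro n
  induction n using Nat.strong_induction_on with
  | _ n ih =>
    intro A f hn hAC h
    by_cases hAeq : A = C
    · subst hAeq
      exact ⟨f, fun _ _ => rfl, h⟩
    have hss : A ⊂ C := hAC.ssubset_of_ne hAeq
    rcases strong_step h.str hC hss with ⟨b, hbC, hbA, hs, hne⟩ | ⟨D, hAD, hDC, hdl, hmin⟩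
    · obtain ⟨f1, h1, h2⟩ := piso_free hD h hbA hs hne
      have hsub : insert b A ⊆ C := Finset.insert_subset hbC hAC
      have hlt : (C \ insert b A).card < n := by
        rw [← hn]
        apply Finset.card_lt_card
        rw [Finset.ssubset_iff_of_subset (Finset.sdiff_subset_sdiff (le_refl _) (Finset.subset_insert _ _))]
        exact ⟨b, by simp [hbC, hbA], by simp⟩
      obtain ⟨f2, h3, h4⟩ := ih _ hlt (insert b A) f1 rfl hsub h2
      refine ⟨f2, ?_, h4⟩
      intro y hy
      rw [h3 y (Finset.mem_insert_of_mem hy), h1 y hy]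
    · obtain ⟨f1, h1, h2⟩ := piso_min hE hR h hAD hdl hmin
      have hlt : (C \ D).card < n := by
        rw [← hn]
        apply Finset.card_lt_card
        rw [Finset.ssubset_iff_of_subset (Finset.sdiff_subset_sdiff (le_refl _) hAD.1)]
        obtain ⟨b, hb, hbA⟩ := Finset.not_subset.1 hAD.2
        exact ⟨b, by simp [hDC hb, hbA], by simp [hb]⟩
      obtain ⟨f2, h3, h4⟩ := ih _ hlt D f1 rfl hDC h2
      refine ⟨f2, ?_, h4⟩
      intro y hy
      rw [h3 y (hAD.1 hy), h1 y hy]

theorem piso_forth {V W : Type} {E : Set (Finset V)} {E' : Set (Finset W)} (hE : Good E) (hE' : Good E')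
    (hR : Rich Set.univ E') (hD : InfDim Set.univ E') {A : Finset V} {f : V → W} (h : PIso E E' A f) (x : V) :
    ∃ (A' : Finset V) (f' : V → W), A ⊆ A' ∧ x ∈ A' ∧ (∀ y ∈ A, f' y = f y) ∧ PIso E E' A' f' := by
  obtain ⟨C, hC1, hC2⟩ := exists_closure hE.nonneg (insert x A)
  obtain ⟨f', h1, h2⟩ := piso_closure hE hR hD hC2 _ A f rfl ((Finset.subset_insert _ _).trans hC1) h
  exact ⟨C, f', (Finset.subset_insert _ _).trans hC1, hC1 (Finset.mem_insert_self _ _), h1, h2⟩

end Pool.Agent.Helper180.SMin
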