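import Mathlib
import Pool.Agent.Helper180.SMin.Base
import Pool.Agent.Helper180.SMin.JBasic
import Pool.Agent.Helper180.SMin.JStr
import Pool.Agent.Helper180.SMin.JComap
import Pool.Agent.Helper180.SMin.JClosedpc
import Pool.Agent.Helper180.SMin.JClosedrich

set_option autoImplicit false
open FirstOrder FirstOrder.Language
open scoped FirstOrder

namespace Pool.Agent.Helper180.SMin
open scoped Classical


theorem RR_stru {V : Type} {S : Set V} {E : Set (Finset V)} (x y z : ↥S) :
    @RR ↥S (stru S E) x y z ↔ ({(x : V), (y : V), (z : V)} : Finset V) ∈ E ∧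
        ({(x : V), (y : V), (z : V)} : Finset V).card = 3 := by
  unfold RR
  show (({((![x, y, z] : Fin 3 → ↥S) 0 : V), ((![x, y, z] : Fin 3 → ↥S) 1 : V),
    ((![x, y, z] : Fin 3 → ↥S) 2 : V)} : Finset V) ∈ E ∧ _) ↔ _
  simp

theorem card3_iff {V : Type} (x y z : V) : ({x, y, z} : Finset V).card = 3 ↔ x ≠ y ∧ x ≠ z ∧ y ≠ z := by
  constructor
  · intro h
    refine ⟨?_, ?_, ?_⟩
    · rintro rfl
      have : ({x, x, z} : Finset V) = {x, z} := by ext; simp
      rw [this] at h
      have := Finset.card_le_two (a := x) (b := z)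
      omega
    · rintro rfl
      have : ({x, y, x} : Finset V) = {x, y} := by ext; simp; tauto
      rw [this] at h
      have := Finset.card_le_two (a := x) (b := y)
      omega
    · rintro rfl
      have : ({x, y, y} : Finset V) = {x, y} := by ext; simp
      rw [this] at h
      have := Finset.card_le_two (a := x) (b := y)
      omega
  · rintro ⟨h1, h2, h3⟩
    exact Finset.card_eq_three.2 ⟨x, y, z, h1, h2, h3, rfl⟩

theorem hg_stru {V : Type} {S : Set V} {E : Set (Finset V)} (hS : On S E) (hE : Good E) (hC : Closed S E)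
    (hinf : ∃ b, b ∉ S) : @hg ↥S (stru S E) = tr S E := by
  letI := stru S E
  ext e
  simp only [hg, tr, Set.mem_union, Set.mem_setOf_eq, RR_stru]
  constructor
  · rintro (⟨x, y, z, hxy, hxz, hyz, rfl, h1, h2⟩ | ⟨x, y, hxy, rfl, h⟩)
    · simpa [Finset.map_insert] using h1
    · rcases closed_cover hS hE hC hinf x.2 y.2 (by simpa [Subtype.ext_iff] using hxy) with h1 | ⟨z, hz, h1, h2⟩
      · simpa [Finset.map_insert] using h1
      · exact absurd ⟨h2, h1⟩ (h ⟨z, hz⟩)
  · intro h
    rcases hE.card _ h with h2 | h3
    · right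
      have hc : e.card = 2 := by simpa using h2
      obtain ⟨x, y, hxy, rfl⟩ := Finset.card_eq_two.1 hc
      refine ⟨x, y, hxy, by ext; simp, ?_⟩
      rintro z ⟨hz1, hz2⟩
      refine hE.excl _ h _ hz1 h2 hz2 ?_
      intro a ha
      simp at ha ⊢
      tauto
    · left
      have hc : e.card = 3 := by simpa using h3
      obtain ⟨x, y, z, hxy, hxz, hyz, rfl⟩ := Finset.card_eq_three.1 hc
      refine ⟨x, y, z, hxy, hxz, hyz, by ext; simp, ?_, ?_⟩
      · simpa [Finset.map_insert] using h
      · rw [card3_iff]
        simpa [Subtype.ext_iff] using And.intro hxy (And.intro hxz hyz)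

theorem dl_tr {V : Type} {S : Set V} {E : Set (Finset V)} (Z : Finset ↥S) :
    dl E (Z.map (Function.Embedding.subtype (fun x => x ∈ S))) = dl (tr S E) Z := by
  have := dl_image (E := tr S E) (E' := E) (X := Z) (f := fun x : ↥S => (x : V))
    (Set.injOn_of_injective Subtype.val_injective)
    (by
      intro e _
      rw [tr, Set.mem_setOf_eq, Finset.map_eq_image]
      rfl)
  rw [Finset.map_eq_image]
  exact this

theorem filter_eq_map {V : Type} {S : Set V} (X : Finset V) :
    X.filter (fun x => x ∈ S) = (X.subtype (fun x => x ∈ S)).map (Function.Embedding.subtype (fun x => x ∈ S)) := by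
  rw [Finset.subtype_map]

theorem ax_stru {V : Type} {S : Set V} {E : Set (Finset V)} (hS : On S E) (hE : Good E) (hC : Closed S E)
    (hinf : Sᶜ.Infinite) : @Ax ↥S (stru S E) := by
  letI := stru S E
  have hb : ∃ b, b ∉ S := hinf.nonempty
  have hhg := hg_stru hS hE hC hb
  refine ⟨?_, ?_, ?_, ?_, ?_⟩
  · intro x y z h
    rw [RR_stru, card3_iff] at h
    simpa [Subtype.ext_iff] using h.2
  · intro x y z h
    rw [RR_stru] at h ⊢
    rwa [Finset.insert_comm]
  · intro x y z h
    rw [RR_stru] at h ⊢
    rwa [Finset.pair_comm]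
  · rw [hhg]
    exact good_comap hE (Function.Embedding.subtype (fun x => x ∈ S))
  · rw [hhg]
    intro m k G a hk hG hM _ hiso hK
    obtain ⟨g, hg1, hg2, hg3⟩ := closed_rich hS hE hC hinf m k G
      (a.trans (Function.Embedding.subtype (fun x => x ∈ S))) hk hG hM (fun i => (a i).2)
      (by
        intro e
        rw [hiso e, tr, Set.mem_setOf_eq, Finset.map_map])
      (by
        intro X hX
        have h1 : (Finset.univ.map (a.trans (Function.Embedding.subtype (fun x => x ∈ S))) : Finset V) =
            (Finset.univ.map a).map (Function.Embedding.subtype (fun x => x ∈ S)) := by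
          rw [Finset.map_map]
        rw [h1, dl_tr]
        have h2 := hK (X.subtype (fun x => x ∈ S)) (by
          refine le_trans ?_ hX
          rw [Finset.card_subtype]
          exact Finset.card_filter_le _ _)
        refine h2.trans ?_
        have h4 : ∀ inst : DecidableEq ↥S, (@Union.union _ (@Finset.instUnion _ inst) (Finset.univ.map a)
            (X.subtype (fun x => x ∈ S))).map (Function.Embedding.subtype (fun x => x ∈ S)) =
            Finset.map (Function.Embedding.subtype (fun x => x ∈ S)) (Finset.univ.map a) ∪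
              X.filter (fun x => x ∈ S) := by
          intro inst
          ext x
          simp only [Finset.mem_map, Finset.mem_union, Finset.mem_subtype, Finset.mem_filter]
          constructor
          · rintro ⟨y, hy | hy, rfl⟩
            · exact Or.inl ⟨y, hy, rfl⟩
            · exact Or.inr ⟨hy, y.2⟩
          · rintro (⟨y, hy, rfl⟩ | ⟨h1, h2⟩)
            · exact ⟨y, Or.inl hy, rfl⟩
            · exact ⟨⟨x, h2⟩, Or.inr h1, rfl⟩
        rw [← dl_tr, h4, dl_off hS (_ ∪ X)]
        have h3 : (Finset.map (Function.Embedding.subtype (fun x => x ∈ S)) (Finset.univ.map a) ∪ X).filter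
            (fun x => x ∈ S) = Finset.map (Function.Embedding.subtype (fun x => x ∈ S)) (Finset.univ.map a) ∪
              X.filter (fun x => x ∈ S) := by
          rw [Finset.filter_union]
          congr 1
          rw [Finset.filter_eq_self]
          intro x hx
          rw [Finset.mem_map] at hx
          obtain ⟨y, _, rfl⟩ := hx
          exact y.2
        rw [h3]
        have : (0 : ℤ) ≤ (((Finset.map (Function.Embedding.subtype (fun x => x ∈ S)) (Finset.univ.map a) ∪ X).filter
            (fun x => x ∉ S)).card : ℤ) := Int.natCast_nonneg _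
        linarith)
    have hgS : ∀ s, g s ∈ S := by
      rintro (i | j)
      · rw [hg1]
        exact (a i).2
      · exact hg2 j
    refine ⟨⟨fun s => ⟨g s, hgS s⟩, ?_⟩, ?_, ?_, ?_⟩
    · intro s t hst
      exact g.injective (by simpa [Subtype.ext_iff] using hst)
    · intro i
      apply Subtype.ext
      exact hg1 i
    · intro j
      exact Set.mem_univ _
    · intro e
      rw [hg3 e, tr, Set.mem_setOf_eq, Finset.map_map]
      rfl

theorem infDim_tr {V : Type} {S : Set V} {E : Set (Finset V)} (hS : On S E) (hD : InfDim S E) :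
    InfDim (Set.univ : Set ↥S) (tr S E) := by
  intro A _ hA
  rw [str_finite_iff] at hA
  have hstr : Str E (↑(A.map (Function.Embedding.subtype (fun x => x ∈ S))) : Set V) := by
    rw [str_finite_iff]
    intro Y hY
    rw [dl_tr]
    have h1 := hA (Y.subtype (fun x => x ∈ S)) (by
      intro x hx
      rw [Finset.mem_subtype]
      apply hY
      rw [Finset.mem_map]
      exact ⟨x, hx, rfl⟩)
    rw [← dl_tr (Y.subtype (fun x => x ∈ S)), Finset.subtype_map] at h1
    refine h1.trans ?_
    rw [dl_off hS Y]
    have : (0 : ℤ) ≤ ((Y.filter (fun x => x ∉ S)).card : ℤ) := Int.natCast_nonneg _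
    linarith
  obtain ⟨b, hb, hb1, hb2⟩ := hD _ (by
    intro x hx
    rw [Finset.mem_map] at hx
    obtain ⟨y, _, rfl⟩ := hx
    exact y.2) hstr
  refine ⟨⟨b, hb⟩, Set.mem_univ _, ?_, ?_⟩
  · intro h
    apply hb1
    rw [Finset.mem_map]
    exact ⟨_, h, rfl⟩
  · intro Y hY
    have h2 := hb2 (Y.map (Function.Embedding.subtype (fun x => x ∈ S))) (by
      intro x hx
      rw [Finset.mem_insert] at hx
      rw [Finset.mem_map]
      rcases hx with rfl | hx
      · exact ⟨⟨x, hb⟩, hY (by simp), rfl⟩
      · rw [Finset.mem_map] at hx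
        obtain ⟨y, hy, rfl⟩ := hx
        exact ⟨y, hY (by simp [hy]), rfl⟩)
    rwa [dl_tr, dl_tr] at h2

end Pool.Agent.Helper180.SMin
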