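import Mathlib
import Pool.Agent.Helper180.SMin.Base
import Pool.Agent.Helper180.SMin.JBasic
import Pool.Agent.Helper180.SMin.JForth

set_option autoImplicit false
open FirstOrder FirstOrder.Language
open scoped FirstOrder

namespace Pool.Agent.Helper180.SMin
open scoped Classical


theorem piso_symm {V W : Type} [Nonempty V] {E : Set (Finset V)} {E' : Set (Finset W)} {A : Finset V} {f : V → W}
    (h : PIso E E' A f) : ∃ g : W → V, PIso E' E (A.image f) g ∧ (∀ x ∈ A, g (f x) = x) ∧
      (A.image f).image g = A := by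
  have hg : ∀ x ∈ A, Function.invFunOn f (↑A : Set V) (f x) = x := fun x hx =>
    h.inj.leftInvOn_invFunOn (Finset.mem_coe.2 hx)
  generalize Function.invFunOn f (↑A : Set V) = g at hg
  have hgA : (A.image f).image g = A := by
    rw [Finset.image_image]
    ext x
    rw [Finset.mem_image]
    constructor
    · rintro ⟨y, hy, rfl⟩
      rw [Function.comp_apply, hg y hy]; exact hy
    · intro hx
      exact ⟨x, hx, hg x hx⟩
  refine ⟨g, ⟨?_, h.str', ?_, ?_⟩, hg, hgA⟩
  · intro y hy z hz hyz
    rw [Finset.mem_coe, Finset.mem_image] at hy hz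
    obtain ⟨a, ha, rfl⟩ := hy
    obtain ⟨b, hb, rfl⟩ := hz
    rw [hg a ha, hg b hb] at hyz
    rw [hyz]
  · rw [hgA]; exact h.str
  · intro e he
    have h1 : e.image g ⊆ A := by
      have := Finset.image_subset_image (f := g) he
      rwa [hgA] at this
    have h2 : (e.image g).image f = e := by
      rw [Finset.image_image]
      ext y
      rw [Finset.mem_image]
      have key : ∀ z ∈ e, f (g z) = z := by
        intro z hz
        obtain ⟨a, ha, rfl⟩ := Finset.mem_image.1 (he hz)
        rw [hg a ha]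
      constructor
      · rintro ⟨z, hz, rfl⟩
        rw [Function.comp_apply, key z hz]; exact hz
      · intro hy
        exact ⟨y, hy, key y hy⟩
    have h3 := h.iso (e.image g) h1
    rw [h2] at h3
    exact h3.symm

theorem piso_back {V W : Type} [Nonempty V] {E : Set (Finset V)} {E' : Set (Finset W)} (hE : Good E) (hE' : Good E')
    (hR : Rich Set.univ E) (hD : InfDim Set.univ E) {A : Finset V} {f : V → W} (h : PIso E E' A f) (y : W) :
    ∃ (A' : Finset V) (f' : V → W), A ⊆ A' ∧ y ∈ A'.image f' ∧ (∀ y ∈ A, f' y = f y) ∧ PIso E E' A' f' := by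
  obtain ⟨g, hg, hg1, hg2⟩ := piso_symm h
  haveI : Nonempty W := ⟨y⟩
  obtain ⟨A'', g', hA, hy, hgg, hP⟩ := piso_forth hE' hE hR hD hg y
  obtain ⟨f'', hf'', hf1, hf2⟩ := piso_symm hP
  have key : ∀ x ∈ A, g' (f x) = x ∧ f x ∈ A'' := by
    intro x hx
    have h1 : f x ∈ A.image f := Finset.mem_image_of_mem f hx
    exact ⟨by rw [hgg _ h1, hg1 x hx], hA h1⟩
  refine ⟨A''.image g', f'', ?_, ?_, ?_, hf''⟩
  · intro x hx
    obtain ⟨h1, h2⟩ := key x hx
    rw [Finset.mem_image]
    exact ⟨f x, h2, h1⟩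
  · rw [hf2]; exact hy
  · intro x hx
    obtain ⟨h1, h2⟩ := key x hx
    have h3 := hf1 (f x) h2
    rwa [h1] at h3

end Pool.Agent.Helper180.SMin
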