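import Mathlib
import Pool.Agent.Helper180.SMin.Base
import Pool.Agent.Helper180.SMin.JForth
import Pool.Agent.Helper180.SMin.JPsym

set_option autoImplicit false
open FirstOrder FirstOrder.Language
open scoped FirstOrder

namespace Pool.Agent.Helper180.SMin
open scoped Classical


theorem pe_RR_iff {N : Type} [Lg.Structure N] (hN : Ax N) (x y z : N) :
    RR N x y z ↔ (x ≠ y ∧ x ≠ z ∧ y ≠ z) ∧ ({x, y, z} : Finset N) ∈ hg N := by
  constructor
  · intro h
    obtain ⟨h1, h2, h3⟩ := hN.irr x y z h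
    exact ⟨⟨h1, h2, h3⟩, Or.inl ⟨x, y, z, h1, h2, h3, rfl, h⟩⟩
  · rintro ⟨⟨h1, h2, h3⟩, h | h⟩
    · obtain ⟨x', y', z', g1, g2, g3, he, hr⟩ := h
      have hx : x ∈ ({x', y', z'} : Finset N) := he ▸ (by simp)
      have hy : y ∈ ({x', y', z'} : Finset N) := he ▸ (by simp)
      have hz : z ∈ ({x', y', z'} : Finset N) := he ▸ (by simp)
      simp only [Finset.mem_insert, Finset.mem_singleton] at hx hy hz
      have s1 := hN.sym1
      have s2 := hN.sym2
      rcases hx with rfl | rfl | rfl <;> rcases hy with rfl | rfl | rfl <;>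
        rcases hz with rfl | rfl | rfl <;>
        first
        | exact absurd rfl h1
        | exact absurd rfl h2
        | exact absurd rfl h3
        | exact hr
        | exact s2 _ _ _ hr
        | exact s1 _ _ _ hr
        | exact s2 _ _ _ (s1 _ _ _ hr)
        | exact s1 _ _ _ (s2 _ _ _ hr)
        | exact s2 _ _ _ (s1 _ _ _ (s2 _ _ _ hr))
    · obtain ⟨x', y', g1, he, _⟩ := h
      exfalso
      have c1 : ({x, y, z} : Finset N).card = 3 := Finset.card_eq_three.2 ⟨x, y, z, h1, h2, h3, rfl⟩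
      have c2 : ({x', y'} : Finset N).card = 2 := Finset.card_pair g1
      rw [he, c2] at c1
      omega

theorem pe_RR {N N' : Type} [Lg.Structure N] [Lg.Structure N'] (hN : Ax N) (hN' : Ax N')
    {A : Finset N} {f : N → N'} (h : PIso (hg N) (hg N') A f) (x y z : N) (hx : x ∈ A)
    (hy : y ∈ A) (hz : z ∈ A) : RR N x y z ↔ RR N' (f x) (f y) (f z) := by
  rw [pe_RR_iff hN, pe_RR_iff hN']
  have i1 : ∀ a ∈ A, ∀ b ∈ A, (a ≠ b ↔ f a ≠ f b) := by
    intro a ha b hb
    constructor
    · intro hab hf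
      exact hab (h.inj ha hb hf)
    · intro hf hab
      exact hf (congrArg f hab)
  have e : ({x, y, z} : Finset N).image f = {f x, f y, f z} := by
    rw [Finset.image_insert, Finset.image_insert, Finset.image_singleton]
  have hsub : ({x, y, z} : Finset N) ⊆ A := by
    intro w hw
    simp only [Finset.mem_insert, Finset.mem_singleton] at hw
    rcases hw with rfl | rfl | rfl <;> assumption
  rw [← i1 x hx y hy, ← i1 x hx z hz, ← i1 y hy z hz, h.iso _ hsub, e]

theorem pe_term {N N' : Type} [Lg.Structure N] [Lg.Structure N'] {A : Finset N} {f : N → N'}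
    {α : Type} {n : ℕ} (v : α → N) (xs : Fin n → N) (hv : ∀ i, v i ∈ A) (hxs : ∀ i, xs i ∈ A)
    (t : Lg.Term (α ⊕ Fin n)) : t.realize (Sum.elim v xs) ∈ A ∧
      f (t.realize (Sum.elim v xs)) = t.realize (Sum.elim (f ∘ v) (f ∘ xs)) := by
  cases t with
  | var a =>
    cases a with
    | inl a => exact ⟨hv a, rfl⟩
    | inr a => exact ⟨hxs a, rfl⟩
  | func g ts => exact nomatch g

theorem pe_rel {N : Type} [Lg.Structure N] (g : Fin 3 → N) :
    FirstOrder.Language.Structure.RelMap (L := Lg) (M := N) TRel.R g ↔ RR N (g 0) (g 1) (g 2) := by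
  unfold RR
  have : g = ![g 0, g 1, g 2] := by
    funext i
    fin_cases i <;> rfl
  rw [← this]

theorem pe_main {N N' : Type} [Lg.Structure N] [Lg.Structure N'] [Nonempty N] (hN : Ax N) (hN' : Ax N')
    (hD : InfDim Set.univ (hg N)) (hD' : InfDim Set.univ (hg N')) {α : Type} (v : α → N) {n : ℕ}
    (φ : Lg.BoundedFormula α n) : ∀ (xs : Fin n → N) (A : Finset N) (f : N → N')
    (_ : PIso (hg N) (hg N') A f)
    (_ : ∀ i, v i ∈ A) (_ : ∀ i, xs i ∈ A),
    (φ.Realize v xs ↔ φ.Realize (f ∘ v) (f ∘ xs)) := by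
  induction φ with
  | falsum => intro xs A f h hv hxs; exact Iff.rfl
  | equal t₁ t₂ =>
    intro xs A f h hv hxs
    show t₁.realize (Sum.elim v xs) = t₂.realize (Sum.elim v xs) ↔
      t₁.realize (Sum.elim (f ∘ v) (f ∘ xs)) = t₂.realize (Sum.elim (f ∘ v) (f ∘ xs))
    obtain ⟨h1, h2⟩ := pe_term (f := f) v xs hv hxs t₁
    obtain ⟨h3, h4⟩ := pe_term (f := f) v xs hv hxs t₂
    rw [← h2, ← h4]
    constructor
    · intro he; rw [he]
    · intro he; exact h.inj h1 h3 he
  | rel R ts =>
    intro xs A f h hv hxs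
    cases R
    show FirstOrder.Language.Structure.RelMap (L := Lg) (M := N) TRel.R
        (fun i => (ts i).realize (Sum.elim v xs)) ↔
      FirstOrder.Language.Structure.RelMap (L := Lg) (M := N') TRel.R
        (fun i => (ts i).realize (Sum.elim (f ∘ v) (f ∘ xs)))
    rw [pe_rel, pe_rel]
    have ht := fun i => pe_term (f := f) v xs hv hxs (ts i)
    rw [pe_RR hN hN' h _ _ _ (ht 0).1 (ht 1).1 (ht 2).1, (ht 0).2, (ht 1).2, (ht 2).2]
  | imp φ ψ ih1 ih2 =>
    intro xs A f h hv hxs
    rw [BoundedFormula.realize_imp, BoundedFormula.realize_imp, ih1 xs A f h hv hxs,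
      ih2 xs A f h hv hxs]
  | all θ ih =>
    intro xs A f h hv hxs
    rw [BoundedFormula.realize_all, BoundedFormula.realize_all]
    have key : ∀ (A' : Finset N) (f' : N → N') (x : N), A ⊆ A' → x ∈ A' → (∀ y ∈ A, f' y = f y) →
        PIso (hg N) (hg N') A' f' → (θ.Realize v (Fin.snoc xs x) ↔
          θ.Realize (f ∘ v) (Fin.snoc (f ∘ xs) (f' x))) := by
      intro A' f' x hA hx hf' h'
      have h1 := ih (Fin.snoc xs x) A' f' h' (fun i => hA (hv i)) (by
        intro i
        refine Fin.lastCases ?_ (fun j => ?_) i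
        · rw [Fin.snoc_last]; exact hx
        · rw [Fin.snoc_castSucc]; exact hA (hxs j))
      have e1 : f' ∘ v = f ∘ v := funext (fun i => hf' _ (hv i))
      have e2 : f' ∘ (Fin.snoc xs x : Fin _ → N) = Fin.snoc (f ∘ xs) (f' x) := by
        rw [Fin.comp_snoc]
        congr 1
        exact funext (fun i => hf' _ (hxs i))
      rw [e1, e2] at h1
      exact h1
    constructor
    · intro H b
      obtain ⟨A', f', hA, hb, hf', h'⟩ := piso_back hN.good hN'.good hN.rich hD h b
      obtain ⟨x, hx, rfl⟩ := Finset.mem_image.1 hb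
      exact (key A' f' x hA hx hf' h').1 (H x)
    · intro H a
      obtain ⟨A', f', hA, ha, hf', h'⟩ := piso_forth hN.good hN'.good hN'.rich hD' h a
      exact (key A' f' a hA ha hf' h').2 (H _)

theorem piso_elem {N N' : Type} [Lg.Structure N] [Lg.Structure N'] [Nonempty N] (hN : Ax N) (hN' : Ax N')
    (hD : InfDim Set.univ (hg N)) (hD' : InfDim Set.univ (hg N')) {A : Finset N} {f : N → N'}
    (h : PIso (hg N) (hg N') A f) {α : Type} {n : ℕ} (φ : Lg.BoundedFormula α n) (v : α → N) (xs : Fin n → N)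
    (hv : ∀ i, v i ∈ A) (hxs : ∀ i, xs i ∈ A) :
    φ.Realize v xs ↔ φ.Realize (f ∘ v) (f ∘ xs) :=
  pe_main hN hN' hD hD' v φ xs A f h hv hxs

end Pool.Agent.Helper180.SMin
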