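import Mathlib
import Pool.Agent.Helper180.SMin.Base
import Pool.Agent.Helper180.SMin.JBasic
import Pool.Agent.Helper180.SMin.JStr
import Pool.Agent.Helper180.SMin.JPelem
import Pool.Agent.Helper180.SMin.JHgs

set_option autoImplicit false
open FirstOrder FirstOrder.Language
open scoped FirstOrder

namespace Pool.Agent.Helper180.SMin
open scoped Classical


theorem dl_tr_aux {V : Type} {S : Set V} (E : Set (Finset V)) (Z : Finset ↥S) :
    dl (tr S E) Z = dl E (Z.map (Function.Embedding.subtype (fun x => x ∈ S))) := by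
  have h := dl_image (E := tr S E) (E' := E) (X := Z) (f := fun x : ↥S => (x : V))
    (by intro a _ b _ hab; exact Subtype.ext hab)
    (by
      intro e _
      unfold tr
      rw [Set.mem_setOf_eq, Finset.map_eq_image]
      exact Iff.rfl)
  rw [← h, Finset.map_eq_image]
  rfl

theorem str_map_aux {V : Type} {S : Set V} {E : Set (Finset V)} (hS : On S E) {A : Finset ↥S}
    (h : Str (tr S E) (↑A : Set ↥S)) :
    Str E (↑(A.map (Function.Embedding.subtype (fun x => x ∈ S))) : Set V) := by
  rw [str_finite_iff] at h ⊢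
  intro Y hY
  have hZ : (Y.subtype (fun x => x ∈ S)).map (Function.Embedding.subtype (fun x => x ∈ S))
      = Y.filter (fun x => x ∈ S) := Finset.subtype_map _
  have hAZ : A ⊆ Y.subtype (fun x => x ∈ S) := by
    intro a ha
    rw [Finset.mem_subtype]
    exact hY (Finset.mem_map_of_mem _ ha)
  have h1 := h _ hAZ
  rw [dl_tr_aux, dl_tr_aux] at h1
  have h2 := dl_off hS Y
  have h3 : dl E ((Y.subtype (fun x => x ∈ S)).map (Function.Embedding.subtype (fun x => x ∈ S)))
      = dl E (Y.filter (fun x => x ∈ S)) := by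
    congr 1
  rw [h3] at h1
  have h4 : (0 : ℤ) ≤ ((Y.filter (fun x => x ∉ S)).card : ℤ) := by positivity
  linarith

theorem incl_elem {V : Type} {S S' : Set V} {E E' : Set (Finset V)} (hS : On S E) (hE : Good E) (hC : Closed S E)
    (hS' : On S' E') (hE' : Good E') (hC' : Closed S' E') (hinf : Sᶜ.Infinite) (hinf' : S'ᶜ.Infinite)
    (hD : InfDim S E) (hD' : InfDim S' E') (hne : S.Nonempty)
    (hSS : S ⊆ S') (h : ∀ e : Finset V, (∀ x ∈ e, x ∈ S) → (e ∈ E' ↔ e ∈ E)) (hs : Str E' S)
    {n : ℕ} (φ : Lg.BoundedFormula Empty n) (xs : Fin n → ↥S) :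
    (@BoundedFormula.Realize Lg ↥S (stru S E) Empty n φ Empty.elim xs) ↔
      (@BoundedFormula.Realize Lg ↥S' (stru S' E') Empty n φ Empty.elim (Set.inclusion hSS ∘ xs)) := by
  letI i1 : Lg.Structure ↥S := stru S E
  letI i2 : Lg.Structure ↥S' := stru S' E'
  have hh : hg ↥S = tr S E := hg_stru hS hE hC hinf.nonempty
  have hh' : hg ↥S' = tr S' E' := hg_stru hS' hE' hC' hinf'.nonempty
  have ax : Ax ↥S := ax_stru hS hE hC hinf
  have ax' : Ax ↥S' := ax_stru hS' hE' hC' hinf'
  have d : InfDim (Set.univ : Set ↥S) (hg ↥S) := by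
    rw [hh]; exact infDim_tr hS hD
  have d' : InfDim (Set.univ : Set ↥S') (hg ↥S') := by
    rw [hh']; exact infDim_tr hS' hD'
  haveI : Nonempty ↥S := hne.to_subtype
  haveI : Nonempty ↥S' := (hne.mono hSS).to_subtype
  have hnn : ∀ X : Finset ↥S, 0 ≤ dl (tr S E) X := by
    intro X
    rw [dl_tr_aux]
    exact hE.nonneg _
  obtain ⟨A, hA0, hA⟩ := exists_closure hnn (Finset.univ.image xs)
  have hmapim : ∀ (inst : DecidableEq ↥S') (e : Finset ↥S),
      (@Finset.image ↥S ↥S' inst (Set.inclusion hSS) e).map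
      (Function.Embedding.subtype (fun x => x ∈ S')) =
      e.map (Function.Embedding.subtype (fun x => x ∈ S)) := by
    intro inst e
    ext x
    simp only [Finset.mem_map, Finset.mem_image, Function.Embedding.coe_subtype]
    constructor
    · rintro ⟨y, ⟨z, hz, rfl⟩, rfl⟩
      exact ⟨z, hz, rfl⟩
    · rintro ⟨z, hz, rfl⟩
      exact ⟨Set.inclusion hSS z, ⟨z, hz, rfl⟩, rfl⟩
  have hAE : Str E (↑(A.map (Function.Embedding.subtype (fun x => x ∈ S))) : Set V) :=
    str_map_aux hS hA
  have hAE' : Str E' (↑(A.map (Function.Embedding.subtype (fun x => x ∈ S))) : Set V) := by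
    refine str_trans ?_ hS h hs hAE
    intro x hx
    rw [Finset.mem_coe, Finset.mem_map] at hx
    obtain ⟨y, _, rfl⟩ := hx
    exact y.2
  have hp : PIso (hg ↥S) (hg ↥S') A (Set.inclusion hSS) := by
    refine ⟨?_, ?_, ?_, ?_⟩
    · exact (Set.inclusion_injective hSS).injOn
    · rw [hh]; exact hA
    · rw [hh', str_finite_iff]
      intro Y hY
      rw [dl_tr_aux, dl_tr_aux, hmapim]
      rw [str_finite_iff] at hAE'
      refine hAE' _ ?_
      rw [← hmapim (fun a b => Classical.propDecidable (a = b))]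
      exact Finset.map_subset_map.2 hY
    · intro e _
      rw [hh, hh']
      unfold tr
      rw [Set.mem_setOf_eq, Set.mem_setOf_eq, hmapim]
      refine (h _ ?_).symm
      intro x hx
      rw [Finset.mem_map] at hx
      obtain ⟨y, _, rfl⟩ := hx
      exact y.2
  have key := piso_elem ax ax' d d' hp φ Empty.elim xs (fun i => i.elim)
    (fun i => hA0 (Finset.mem_image_of_mem _ (Finset.mem_univ i)))
  have he : (Set.inclusion hSS ∘ (Empty.elim : Empty → ↥S)) = Empty.elim := by
    funext i; exact i.elim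
  rw [he] at key
  exact key

end Pool.Agent.Helper180.SMin
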