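import Mathlib
import Pool.Agent.Helper180.SMin.Base

set_option autoImplicit false
open FirstOrder FirstOrder.Language
open scoped FirstOrder

namespace Pool.Agent.Helper180.SMin
open scoped Classical

section UP
open Filter

abbrev UPr (N : Type) : Type := ((Filter.hyperfilter ℕ : Ultrafilter ℕ) : Filter ℕ).Product (fun _ : ℕ => N)

/-- class of a sequence -/
noncomputable def ucl {N : Type} (g : ℕ → N) : UPr N := (Quotient.mk'' g : UPr N)

theorem ucl_surj {N : Type} (x : UPr N) : ∃ g : ℕ → N, ucl g = x := by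
  induction x using Quotient.inductionOn' with
  | h g => exact ⟨g, rfl⟩

theorem ucl_eq {N : Type} (f g : ℕ → N) : ucl f = ucl g ↔ ∀ᶠ n in ((Filter.hyperfilter ℕ : Ultrafilter ℕ) : Filter ℕ), f n = g n :=
  Quotient.eq''

theorem ucl_realize {N : Type} [Lg.Structure N] [Nonempty N] {α : Type} (φ : Lg.Formula (α ⊕ Fin 1)) (v : α → N) (g : ℕ → N) :
    φ.Realize (M := UPr N) (Sum.elim (fun a => ucl (fun _ : ℕ => v a)) (fun _ => ucl g)) ↔
      ∀ᶠ n in ((Filter.hyperfilter ℕ : Ultrafilter ℕ) : Filter ℕ), φ.Realize (Sum.elim v (fun _ => g n)) := by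
  have h := Ultraproduct.realize_formula_cast (u := (Filter.hyperfilter ℕ : Ultrafilter ℕ)) (M := fun _ : ℕ => N) φ
    (Sum.elim (fun (a : α) (_ : ℕ) => v a) (fun (_ : Fin 1) (n : ℕ) => g n))
  have e1 : (Sum.elim (fun a => ucl (fun _ : ℕ => v a)) (fun _ => ucl g) : α ⊕ Fin 1 → UPr N) =
      (fun i => (((Sum.elim (fun (a : α) (_ : ℕ) => v a) (fun (_ : Fin 1) (n : ℕ) => g n)) i : ℕ → N) : UPr N)) := by
    funext i; rcases i with i | i <;> rfl
  have h' : φ.Realize (M := UPr N) (Sum.elim (fun a => ucl (fun _ : ℕ => v a)) (fun _ => ucl g)) ↔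
      ∀ᶠ n in ((Filter.hyperfilter ℕ : Ultrafilter ℕ) : Filter ℕ), φ.Realize (fun i => (Sum.elim (fun (a : α) (_ : ℕ) => v a) (fun (_ : Fin 1) (n : ℕ) => g n)) i n) := by
    refine Iff.trans (iff_of_eq ?_) h
    exact congrArg (fun w : α ⊕ Fin 1 → UPr N => φ.Realize (M := UPr N) w) e1
  have e2 : ∀ n : ℕ, (Sum.elim v (fun _ => g n) : α ⊕ Fin 1 → N) =
      (fun i => (Sum.elim (fun (a : α) (_ : ℕ) => v a) (fun (_ : Fin 1) (n : ℕ) => g n)) i n) := by
    intro n; funext i; rcases i with i | i <;> rfl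
  rw [h']
  simp only [e2]

theorem uncountable_of_infinite {N : Type} (P : N → Prop)
    (h1 : {x : N | P x}.Infinite) (Q : UPr N → Prop)
    (hQ : ∀ g : ℕ → N, (∀ n, P (g n)) → Q (ucl g)) : ¬ {x : UPr N | Q x}.Countable := by
  intro hc
  have hne : {x : UPr N | Q x}.Nonempty := by
    obtain ⟨a, ha⟩ := h1.nonempty
    exact ⟨ucl (fun _ => a), hQ _ (fun _ => ha)⟩
  obtain ⟨c, hcr⟩ := hc.exists_eq_range hne
  choose f hf using fun j => ucl_surj (c j)
  have hg : ∀ n : ℕ, ∃ y : N, P y ∧ ∀ j ≤ n, f j n ≠ y := by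
    intro n
    obtain ⟨y, hy, hy2⟩ := h1.exists_notMem_finset ((Finset.range (n + 1)).image (fun j => f j n))
    refine ⟨y, hy, fun j hj he => hy2 ?_⟩
    exact Finset.mem_image.2 ⟨j, Finset.mem_range.2 (by omega), he⟩
  choose g hgP hgne using hg
  have hmem : ucl g ∈ {x : UPr N | Q x} := hQ g hgP
  rw [hcr] at hmem
  obtain ⟨j, hj⟩ := hmem
  rw [← hf j] at hj
  rw [ucl_eq] at hj
  have h2 : ∀ᶠ n in ((Filter.hyperfilter ℕ : Ultrafilter ℕ) : Filter ℕ), j ≤ n := by
    have : ∀ᶠ n in (Filter.cofinite : Filter ℕ), j ≤ n := by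
      rw [Nat.cofinite_eq_atTop]; exact Filter.eventually_ge_atTop j
    exact Filter.hyperfilter_le_cofinite this
  obtain ⟨n, hn1, hn2⟩ := (hj.and h2).exists
  exact hgne n j hn2 hn1

end UP



theorem both_uncountable {N : Type} [Lg.Structure N] {α : Type} (φ : Lg.Formula (α ⊕ Fin 1)) (v : α → N)
    (h1 : {x : N | φ.Realize (Sum.elim v (fun _ => x))}.Infinite)
    (h2 : {x : N | ¬ φ.Realize (Sum.elim v (fun _ => x))}.Infinite) :
    ∃ (N' : Type) (_ : Lg.Structure N') (v' : α → N'), (∀ σ : Lg.Sentence, N ⊨ σ ↔ N' ⊨ σ) ∧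
      ¬ {x : N' | φ.Realize (Sum.elim v' (fun _ => x))}.Countable ∧
      ¬ {x : N' | ¬ φ.Realize (Sum.elim v' (fun _ => x))}.Countable := by
  have hne : Nonempty N := ⟨h1.nonempty.some⟩
  refine ⟨UPr N, inferInstance, fun a => ucl (fun _ : ℕ => v a), ?_, ?_, ?_⟩
  · intro σ
    have h := Ultraproduct.sentence_realize (u := (Filter.hyperfilter ℕ : Ultrafilter ℕ)) (M := fun _ : ℕ => N) σ
    rw [Filter.eventually_const] at h
    exact h.symm
  · apply uncountable_of_infinite (fun x => φ.Realize (Sum.elim v (fun _ => x))) h1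
    intro g hg
    rw [ucl_realize]
    exact Filter.Eventually.of_forall hg
  · apply uncountable_of_infinite (fun x => ¬ φ.Realize (Sum.elim v (fun _ => x))) h2
    intro g hg
    rw [ucl_realize]
    rw [← Ultrafilter.eventually_not]
    exact Filter.Eventually.of_forall hg

end Pool.Agent.Helper180.SMin
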