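import Mathlib
import Pool.Agent.Helper180.SMin.Base
import Pool.Agent.Helper180.SMin.JBasic
import Pool.Agent.Helper180.SMin.JStr
import Pool.Agent.Helper180.SMin.JAlgfin
import Pool.Agent.Helper180.SMin.JPelem
import Pool.Agent.Helper180.SMin.JAxtr
import Pool.Agent.Helper180.SMin.JUltra

set_option autoImplicit false
open FirstOrder FirstOrder.Language
open scoped FirstOrder

namespace Pool.Agent.Helper180.SMin
open scoped Classical


lemma noedge {V : Type} {E : Set (Finset V)} {A : Finset V} {b : V} (hb : Gen E A b) {e : Finset V}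
    (he : e ⊆ insert b A) (hbe : b ∈ e) : e ∉ E := by
  intro heE
  have h1 := hb.2 (insert b A) (Finset.Subset.refl _)
  unfold dl at h1
  rw [Finset.card_insert_of_notMem hb.1] at h1
  push_cast at h1
  have h2 : en E A + 1 ≤ en E (insert b A) := by
    unfold en
    have hn : e ∉ A.powerset.filter (fun e => e ∈ E) := by
      intro h
      rw [Finset.mem_filter, Finset.mem_powerset] at h
      exact hb.1 (h.1 hbe)
    rw [← Finset.card_insert_of_notMem hn]
    apply Finset.card_le_card
    intro x hx
    rw [Finset.mem_insert] at hx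
    rw [Finset.mem_filter, Finset.mem_powerset]
    rcases hx with rfl | hx
    · exact ⟨he, heE⟩
    · rw [Finset.mem_filter, Finset.mem_powerset] at hx
      exact ⟨hx.1.trans (Finset.subset_insert _ _), hx.2⟩
  omega

lemma str_insert {V : Type} {E : Set (Finset V)} {A : Finset V} {b : V} (hb : Gen E A b) :
    Str E (↑(insert b A) : Set V) := by
  rw [str_finite_iff]
  intro Y hY
  exact (dl_insert_le E A b).trans (hb.2 Y hY)

lemma piso_gen {V : Type} {E : Set (Finset V)} {A : Finset V} {b1 b2 : V} (h1 : Gen E A b1)
    (h2 : Gen E A b2) : PIso E E (insert b1 A) (Function.update id b1 b2) := by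
  have hid : ∀ x ∈ A, Function.update (id : V → V) b1 b2 x = x := by
    intro x hx
    have : x ≠ b1 := by rintro rfl; exact h1.1 hx
    rw [Function.update_of_ne this]; rfl
  have hb : Function.update (id : V → V) b1 b2 b1 = b2 := Function.update_self _ _ _
  have himg : (insert b1 A).image (Function.update (id : V → V) b1 b2) = insert b2 A := by
    rw [Finset.image_insert, hb]
    congr 1
    calc A.image (Function.update (id : V → V) b1 b2) = A.image id := Finset.image_congr (fun x hx => hid x hx)
      _ = A := Finset.image_id
  refine ⟨?_, str_insert h1, ?_, ?_⟩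
  · intro x hx y hy hxy
    rw [Finset.mem_coe, Finset.mem_insert] at hx hy
    rcases hx with rfl | hx
    · rcases hy with rfl | hy
      · rfl
      · rw [hb, hid y hy] at hxy
        exact absurd (hxy ▸ hy) h2.1
    · rcases hy with rfl | hy
      · rw [hb, hid x hx] at hxy
        exact absurd (hxy ▸ hx) h2.1
      · rw [hid x hx, hid y hy] at hxy
        exact hxy
  · rw [himg]; exact str_insert h2
  · intro e he
    by_cases hbe : b1 ∈ e
    · have e1 : e ∉ E := noedge h1 he hbe
      have e2 : e.image (Function.update (id : V → V) b1 b2) ∉ E := by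
        apply noedge h2
        · rw [← himg]; exact Finset.image_subset_image he
        · rw [Finset.mem_image]; exact ⟨b1, hbe, hb⟩
      exact ⟨fun h => absurd h e1, fun h => absurd h e2⟩
    · have heA : e ⊆ A := by
        intro x hx
        have := he hx
        rw [Finset.mem_insert] at this
        rcases this with rfl | h
        · exact absurd hx hbe
        · exact h
      have : e.image (Function.update (id : V → V) b1 b2) = e := by
        calc e.image (Function.update (id : V → V) b1 b2) = e.image id :=
              Finset.image_congr (fun x hx => hid x (heA hx))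
          _ = e := Finset.image_id
      rw [this]

theorem strongly_minimal {M : Type} [Lg.Structure M] [Infinite M] (hM : Ax M) (N : Type) [Lg.Structure N]
    (hN : N ⊨ Lg.completeTheory M) :
    Infinite N ∧ ∀ s : Set (Fin 1 → N), Set.Definable (Set.univ : Set N) Lg s → s.Finite ∨ sᶜ.Finite := by
  have hMN : ∀ σ : Lg.Sentence, M ⊨ σ → N ⊨ σ := by
    intro σ hσ
    exact hN.realize_of_mem σ hσ
  have hinf : Infinite N := by
    rw [← FirstOrder.Language.model_infiniteTheory_iff (L := Lg)]
    refine ⟨?_⟩
    intro σ hσ
    apply hMN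
    have : M ⊨ Lg.infiniteTheory := inferInstance
    exact this.realize_of_mem σ hσ
  refine ⟨hinf, ?_⟩
  haveI : Nonempty N := inferInstance
  have hAN : Ax N := ax_transfer hM hMN
  intro s hs
  by_contra hcon
  push Not at hcon
  obtain ⟨hs1, hs2⟩ := hcon
  rw [Set.definable_iff_finitely_definable] at hs
  obtain ⟨A0, -, hA0⟩ := hs
  rw [Set.definable_iff_exists_formula_sum] at hA0
  obtain ⟨φ, hφ⟩ := hA0
  let v : ↥(↑A0 : Set N) → N := fun a => (a : N)
  have key : ∀ w : Fin 1 → N, w = fun _ => w 0 := by
    intro w; funext i; rw [Subsingleton.elim i 0]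
  have t1 : {x : N | φ.Realize (Sum.elim v (fun _ => x))}.Infinite := by
    intro hfin
    apply hs1
    have : s = (fun x : N => (fun _ : Fin 1 => x)) '' {x : N | φ.Realize (Sum.elim v (fun _ => x))} := by
      rw [hφ]
      ext w
      simp only [Set.mem_ofPred_eq, Set.mem_image]
      constructor
      · intro h
        refine ⟨w 0, ?_, (key w).symm⟩
        rw [← key w]; exact h
      · rintro ⟨x, hx, rfl⟩; exact hx
    rw [this]
    exact hfin.image _
  have t2 : {x : N | ¬ φ.Realize (Sum.elim v (fun _ => x))}.Infinite := by
    intro hfin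
    apply hs2
    have : sᶜ = (fun x : N => (fun _ : Fin 1 => x)) '' {x : N | ¬ φ.Realize (Sum.elim v (fun _ => x))} := by
      rw [hφ]
      ext w
      simp only [Set.mem_ofPred_eq, Set.mem_image, Set.mem_compl_iff]
      constructor
      · intro h
        refine ⟨w 0, ?_, (key w).symm⟩
        rw [← key w]; exact h
      · rintro ⟨x, hx, rfl⟩; exact hx
    rw [this]
    exact hfin.image _
  obtain ⟨N', sN', v', hel, u1, u2⟩ := both_uncountable φ v t1 t2
  letI := sN'
  have hne : Nonempty N' := by
    by_contra hem
    rw [not_nonempty_iff] at hem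
    exact u1 (Set.to_countable _)
  have hAN' : Ax N' := ax_transfer hAN (fun σ h => (hel σ).1 h)
  obtain ⟨A, hPA, hA⟩ := exists_closure hAN'.good.nonneg (Finset.univ.image v')
  have hv'A : ∀ a, v' a ∈ A := fun a => hPA (Finset.mem_image_of_mem _ (Finset.mem_univ a))
  have hcount : ∀ {A' : Finset N'}, Str (hg N') (↑A' : Set N') → {b : N' | ¬ Gen (hg N') A' b}.Countable :=
    fun h => alg_countable hAN'.good h
  have hex : ∀ (A' : Finset N'), Str (hg N') (↑A' : Set N') → ∀ T : Set N', ¬ T.Countable →
      ∃ b ∈ T, Gen (hg N') A' b := by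
    intro A' hA' T hT
    by_contra hno
    push Not at hno
    exact hT ((hcount hA').mono (fun b hb => hno b hb))
  have hD : InfDim Set.univ (hg N') := by
    intro A' _ hA'
    obtain ⟨b, _, hb⟩ := hex A' hA' _ u1
    exact ⟨b, Set.mem_univ _, hb⟩
  obtain ⟨b1, hb1, g1⟩ := hex A hA _ u1
  obtain ⟨b2, hb2, g2⟩ := hex A hA _ u2
  have hP := piso_gen g1 g2
  have hfin := piso_elem hAN' hAN' hD hD hP (n := 0) φ (Sum.elim v' (fun _ => b1)) default
    (by
      rintro (a | a)
      · exact Finset.mem_insert_of_mem (hv'A a)
      · exact Finset.mem_insert_self _ _)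
    (fun i => i.elim0)
  have e1 : (Function.update (id : N' → N') b1 b2) ∘ (Sum.elim v' (fun _ : Fin 1 => b1))
      = Sum.elim v' (fun _ => b2) := by
    funext a
    rcases a with a | a
    · show Function.update (id : N' → N') b1 b2 (v' a) = v' a
      have : v' a ≠ b1 := by intro h; exact g1.1 (h ▸ hv'A a)
      rw [Function.update_of_ne this]; rfl
    · show Function.update (id : N' → N') b1 b2 b1 = b2
      exact Function.update_self _ _ _
  rw [e1, Subsingleton.elim ((Function.update (id : N' → N') b1 b2) ∘ (default : Fin 0 → N')) default] at hfin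
  exact hb2 (hfin.1 hb1)

end Pool.Agent.Helper180.SMin
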